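import Mathlib
import Pool.Agent.Lib.MP_695920_nt.Tow.AmbR

set_option autoImplicit false

open Finset NumberField Module IsDedekindDomain
open scoped nonZeroDivisors Pointwise

namespace Pool.Agent.Lib.MP_695920_nt.Refl

open Pool.Agent.Lib.MP_695920_nt.Solv Pool.Agent.Lib.MP_695920_nt.Tow

section inv

variable {E L : Type} [Field E] [NumberField E] [Field L] [NumberField L] [Algebra E L]
  {G : Type*} [Group G] [Finite G] [MulSemiringAction G L]

/-- an invariant ideal of an unramified extension is extended from the base -/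
lemma inv_ideal_ext (σ : G) [hE : IsGaloisGroup (Subgroup.zpowers σ) E L]
    (hσ : (orderOf σ).Prime)
    (hun : ∀ P : Ideal (𝓞 L), P.IsPrime → P ≠ ⊥ →
      ¬ P ^ 2 ∣ (P.under (𝓞 E)).map (algebraMap (𝓞 E) (𝓞 L))) :
    ∀ (n : ℕ) (J : Ideal (𝓞 L)), Ideal.absNorm J = n → J ≠ ⊥ → σ • J = J →
      ∃ I : Ideal (𝓞 E), I ≠ ⊥ ∧ I.map (algebraMap (𝓞 E) (𝓞 L)) = J := by
  classical
  cases nonempty_fintype (Subgroup.zpowers σ)
  intro n
  induction n using Nat.strong_induction_on with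
  | _ n ih =>
  intro J hn hJ0 hσJ
  by_cases hJtop : J = ⊤
  · refine ⟨⊤, top_ne_bot, ?_⟩
    rw [hJtop, Ideal.map_top]
  obtain ⟨P, hPmax, hJP⟩ := Ideal.exists_le_maximal J hJtop
  have hP : P.IsPrime := hPmax.isPrime
  have hP0 : P ≠ ⊥ := by
    rintro rfl
    exact hJ0 (le_bot_iff.mp hJP)
  have step : ∀ F : Ideal (𝓞 L), F ∣ J → F ≠ ⊥ → F ≠ ⊤ → σ • F = F →
      (∃ I : Ideal (𝓞 E), I ≠ ⊥ ∧ I.map (algebraMap (𝓞 E) (𝓞 L)) = F) →
      ∃ I : Ideal (𝓞 E), I ≠ ⊥ ∧ I.map (algebraMap (𝓞 E) (𝓞 L)) = J := by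
    rintro F ⟨J', rfl⟩ hF0 hFtop hσF ⟨I, hI0, hI⟩
    have hJ'0 : J' ≠ ⊥ := by
      rintro rfl
      exact hJ0 (Ideal.mul_bot F)
    have hσJ' : σ • J' = J' := by
      rw [smul_mul', hσF] at hσJ
      exact mul_left_cancel₀ hF0 hσJ
    have hlt : Ideal.absNorm J' < n := by
      rw [← hn, map_mul]
      have h1 : 0 < Ideal.absNorm J' := absNorm_pos_of_ne_bot hJ'0
      have h2 : 1 < Ideal.absNorm F := by
        have h3 : 0 < Ideal.absNorm F := absNorm_pos_of_ne_bot hF0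
        have h4 : Ideal.absNorm F ≠ 1 := by rwa [Ne, Ideal.absNorm_eq_one_iff]
        omega
      exact (Nat.lt_mul_iff_one_lt_left h1).mpr h2
    obtain ⟨I', hI'0, hI'⟩ := ih _ hlt J' rfl hJ'0 hσJ'
    refine ⟨I * I', mul_ne_zero hI0 hI'0, ?_⟩
    rw [Ideal.map_mul, hI, hI']
  by_cases hσP : σ • P = P
  · exact step P (Ideal.dvd_iff_le.mpr hJP) hP0 hP.ne_top hσP
      ⟨P.under (𝓞 E), Ideal.under_ne_bot _ hP0, Tow.eq_map_under hP hP0 hσP (hun P hP hP0)⟩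
  · have hdvd : ∏ h : Subgroup.zpowers σ, (h : G) • P ∣ J := orbit_prod_dvd hσ hσP hP hP0 hσJ hJP
    refine step _ hdvd ?_ ?_ ?_ ?_
    · exact Finset.prod_ne_zero_iff.mpr (fun h _ => smul_ne_bot' _ hP0)
    · intro htop
      have h1 := dvd_orbit_prod σ P
      rw [htop] at h1
      exact hP.ne_top (top_le_iff.mp (Ideal.le_of_dvd h1))
    · exact orbit_prod_inv σ P
    · exact ⟨Ideal.relNorm (𝓞 E) P, Tow.relNorm_ne_bot hP0, Tow.map_relNorm_zpowers (E := E) σ P⟩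

/-- the norm on units -/
noncomputable def nU (E L : Type) [Field E] [NumberField E] [Field L] [NumberField L] [Algebra E L] :
    (𝓞 L)ˣ →* (𝓞 E)ˣ := Units.map (Algebra.intNorm (𝓞 E) (𝓞 L) : 𝓞 L →* 𝓞 E)

/-- `σ - 1` on units -/
noncomputable def dU (L : Type) [Field L] [NumberField L] {G : Type*} [Group G]
    [MulSemiringAction G L] (σ : G) : (𝓞 L)ˣ →* (𝓞 L)ˣ :=
  Units.map (MulSemiringAction.toRingHom G (𝓞 L) σ : 𝓞 L →* 𝓞 L) / MonoidHom.id (𝓞 L)ˣ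

/-- fixed classes -/
noncomputable def fixC (L : Type) [Field L] [NumberField L] {G : Type*} [Group G]
    [MulSemiringAction G L] (σ : G) : Subgroup (ClassGroup (𝓞 L)) :=
  (act L σ / MonoidHom.id (ClassGroup (𝓞 L))).ker

lemma mem_fixC {σ : G} {x : ClassGroup (𝓞 L)} : x ∈ fixC L σ ↔ act L σ x = x := by
  unfold fixC
  rw [MonoidHom.mem_ker, MonoidHom.div_apply, MonoidHom.id_apply, div_eq_one]

/-- the ambiguous classes -/
lemma card_fixC_le (σ : G) [hE : IsGaloisGroup (Subgroup.zpowers σ) E L]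
    (hσ : (orderOf σ).Prime)
    (hun : ∀ P : Ideal (𝓞 L), P.IsPrime → P ≠ ⊥ →
      ¬ P ^ 2 ∣ (P.under (𝓞 E)).map (algebraMap (𝓞 E) (𝓞 L)))
    (hfin : Finite ((𝓞 E)ˣ ⧸ (nU E L).range)) :
    Nat.card (fixC L σ) ≤ Nat.card ((𝓞 E)ˣ ⧸ (nU E L).range) *
      Nat.card (ClassGroup.extendedHom (𝓞 E) (𝓞 L)).range := by
  classical
  have hex := fun x : fixC L σ => Tow.exists_unit_of_fixed (E := E) σ (mem_fixC.mp x.2)
  choose I a b u hI0 hIx ha hb hab hu using hex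
  refine (card_le_of_fibers (fixC L σ) (ClassGroup.extendedHom (𝓞 E) (𝓞 L)).range
    (fun x => (QuotientGroup.mk (u x) : (𝓞 E)ˣ ⧸ (nU E L).range)) ?_).trans ?_
  · intro x y hxy
    rw [eq_comm, QuotientGroup.eq] at hxy
    obtain ⟨w, hw⟩ := hxy
    have hw' : u x = u y * (nU E L) w := by rw [hw, mul_inv_cancel_left]
    have hbw : b y * (w : 𝓞 L) ≠ 0 := mul_ne_zero (hb y) w.ne_zero
    have hspan : Ideal.span {b y * (w : 𝓞 L)} = Ideal.span {b y} := by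
      rw [← Ideal.span_singleton_mul_span_singleton,
        (Ideal.span_singleton_eq_top.mpr w.isUnit), Ideal.mul_top]
    obtain ⟨J, hJ0, hJ, hJc⟩ := Tow.exists_inv_ideal σ (hI0 x) (hI0 y) (ha x) (hb x) (ha y) hbw
      (hab x) (by rw [hspan]; exact hab y) 1 (by
        rw [map_mul, hu x, hu y, hw']
        have : ((nU E L w : (𝓞 E)ˣ) : 𝓞 E) = Algebra.intNorm (𝓞 E) (𝓞 L) (w : 𝓞 L) := rfl
        push_cast
        rw [this]
        ring)
    have h2 : (x : ClassGroup (𝓞 L)) / y = cls J := by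
      rw [← hIx x, ← hIx y, ← hJc, mul_div_cancel_right]
    obtain ⟨K, hK0, hK⟩ := inv_ideal_ext (E := E) σ hσ hun _ J rfl hJ0 hJ
    rw [h2, ← hK, ← cls_map hK0]
    exact ⟨_, rfl⟩
  · apply Nat.mul_le_mul_left
    exact Nat.card_le_card_of_injective (Subgroup.inclusion inf_le_right)
      (Subgroup.inclusion_injective _)

/-- capitulation -/
lemma card_h1_le (σ : G) [hE : IsGaloisGroup (Subgroup.zpowers σ) E L]
    (hσ : (orderOf σ).Prime)
    (hun : ∀ P : Ideal (𝓞 L), P.IsPrime → P ≠ ⊥ →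
      ¬ P ^ 2 ∣ (P.under (𝓞 E)).map (algebraMap (𝓞 E) (𝓞 L))) :
    Nat.card ((nU E L).ker ⧸ ((dU L σ).range.subgroupOf (nU E L).ker)) ≤
      Nat.card (ClassGroup.extendedHom (𝓞 E) (𝓞 L)).ker := by
  classical
  have hnorm : ∀ u : (nU E L).ker, Algebra.norm E ((u : (𝓞 L)ˣ) : L) = 1 := by
    intro u
    have h1 := u.2
    rw [MonoidHom.mem_ker] at h1
    have h2 : Algebra.intNorm (𝓞 E) (𝓞 L) ((u : (𝓞 L)ˣ) : 𝓞 L) = 1 := by
      have := congrArg (fun v : (𝓞 E)ˣ => (v : 𝓞 E)) h1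
      exact this
    have h3 := Algebra.algebraMap_intNorm (A := 𝓞 E) (K := E) (L := L) (B := 𝓞 L)
      ((u : (𝓞 L)ˣ) : 𝓞 L)
    rw [h2, map_one] at h3
    exact h3.symm
  have hex : ∀ u : (nU E L).ker, ∃ (y : 𝓞 L) (I : Ideal (𝓞 E)), y ≠ 0 ∧ I ≠ ⊥ ∧
      ((u : (𝓞 L)ˣ) : 𝓞 L) * (σ • y) = y ∧
      I.map (algebraMap (𝓞 E) (𝓞 L)) = Ideal.span {y} := by
    intro u
    obtain ⟨y, hy0, hy⟩ := Tow.hilbert90_int (E := E) σ (hnorm u)
    have hy' : ((u : (𝓞 L)ˣ) : 𝓞 L) * (σ • y) = y := by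
      apply FaithfulSMul.algebraMap_injective (𝓞 L) L
      rw [map_mul]
      exact hy
    have hinv : σ • Ideal.span {y} = Ideal.span {y} := by
      rw [smul_span]
      conv_rhs => rw [← hy']
      rw [← Ideal.span_singleton_mul_span_singleton,
        (Ideal.span_singleton_eq_top.mpr (u : (𝓞 L)ˣ).isUnit), Ideal.top_mul]
    obtain ⟨I, hI0, hI⟩ := inv_ideal_ext (E := E) σ hσ hun _ (Ideal.span {y}) rfl
      (by simpa using hy0) hinv
    exact ⟨y, I, hy0, hI0, hy', hI⟩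
  choose y I hy0 hI0 hy hI using hex
  have hker : ∀ u, cls (I u) ∈ (ClassGroup.extendedHom (𝓞 E) (𝓞 L)).ker := by
    intro u
    rw [MonoidHom.mem_ker, cls_map (hI0 u), hI u, cls_span (hy0 u)]
  let f : ((nU E L).ker ⧸ ((dU L σ).range.subgroupOf (nU E L).ker)) →
      (ClassGroup.extendedHom (𝓞 E) (𝓞 L)).ker := fun q => ⟨cls (I q.out), hker _⟩
  apply Nat.card_le_card_of_injective f
  intro q r hqr
  have h1 : cls (I q.out) = cls (I r.out) := congrArg Subtype.val hqr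
  rw [cls_eq_iff (hI0 _) (hI0 _)] at h1
  obtain ⟨c, d, hc, hd, hcd⟩ := h1
  have h2 := congrArg (Ideal.map (algebraMap (𝓞 E) (𝓞 L))) hcd
  rw [Ideal.map_mul, Ideal.map_mul, Ideal.map_span, Ideal.map_span, Set.image_singleton,
    Set.image_singleton, hI, hI, Ideal.span_singleton_mul_span_singleton,
    Ideal.span_singleton_mul_span_singleton, Ideal.span_singleton_eq_span_singleton] at h2
  obtain ⟨w, hw⟩ := h2
  have hfix : ∀ e : 𝓞 E, σ • (algebraMap (𝓞 E) (𝓞 L) e) = algebraMap (𝓞 E) (𝓞 L) e := by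
    intro e
    apply FaithfulSMul.algebraMap_injective (𝓞 L) L
    exact smul_algebraMap (⟨σ, Subgroup.mem_zpowers σ⟩ : Subgroup.zpowers σ) (e : E)
  have hιc : algebraMap (𝓞 E) (𝓞 L) c ≠ 0 := by
    intro h0
    exact hc (FaithfulSMul.algebraMap_injective (𝓞 E) (𝓞 L) (by rw [h0, map_zero]))
  have hιd : algebraMap (𝓞 E) (𝓞 L) d ≠ 0 := by
    intro h0
    exact hd (FaithfulSMul.algebraMap_injective (𝓞 E) (𝓞 L) (by rw [h0, map_zero]))
  -- `q = r`
  rw [← QuotientGroup.out_eq' q, ← QuotientGroup.out_eq' r, QuotientGroup.eq,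
    Subgroup.mem_subgroupOf]
  set qq : (𝓞 L)ˣ := ((q.out : (nU E L).ker) : (𝓞 L)ˣ) with hqq
  set rr : (𝓞 L)ˣ := ((r.out : (nU E L).ker) : (𝓞 L)ˣ) with hrr
  have h3 := congrArg (fun z : 𝓞 L => σ • z) hw
  simp only [smul_mul', hfix] at h3
  have hσw : σ • (w : 𝓞 L) ≠ 0 := by
    intro h0
    have : (w : 𝓞 L) = 0 := by
      rw [← inv_smul_smul σ (w : 𝓞 L), h0, smul_zero]
    exact w.ne_zero this
  have hqy := hy q.out
  have hry := hy r.out
  have key : (rr : 𝓞 L) * (σ • (w : 𝓞 L)) = (qq : 𝓞 L) * (w : 𝓞 L) := by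
    have hne : algebraMap (𝓞 E) (𝓞 L) c * (σ • y q.out) ≠ 0 := by
      apply mul_ne_zero hιc
      intro h0
      apply hy0 q.out
      rw [← inv_smul_smul σ (y q.out), h0, smul_zero]
    apply mul_left_cancel₀ hne
    have e1 : algebraMap (𝓞 E) (𝓞 L) c * (σ • y q.out) * ((rr : 𝓞 L) * (σ • (w : 𝓞 L))) =
        (rr : 𝓞 L) * (algebraMap (𝓞 E) (𝓞 L) c * (σ • y q.out) * (σ • (w : 𝓞 L))) := by ring
    have e2 : algebraMap (𝓞 E) (𝓞 L) c * (σ • y q.out) * ((qq : 𝓞 L) * (w : 𝓞 L)) =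
        algebraMap (𝓞 E) (𝓞 L) c * ((qq : 𝓞 L) * (σ • y q.out)) * (w : 𝓞 L) := by ring
    have e3 : (rr : 𝓞 L) * (algebraMap (𝓞 E) (𝓞 L) d * (σ • y r.out)) =
        algebraMap (𝓞 E) (𝓞 L) d * ((rr : 𝓞 L) * (σ • y r.out)) := by ring
    rw [e1, h3, e3, hry, e2, hqy, hw]
  refine ⟨w⁻¹, ?_⟩
  change (Units.map (MulSemiringAction.toRingHom G (𝓞 L) σ : 𝓞 L →* 𝓞 L)) w⁻¹ / w⁻¹ = qq⁻¹ * rr
  rw [div_inv_eq_mul, map_inv, inv_mul_eq_iff_eq_mul]
  apply mul_left_cancel (a := qq)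
  have e4 : qq * ((Units.map (MulSemiringAction.toRingHom G (𝓞 L) σ : 𝓞 L →* 𝓞 L)) w *
      (qq⁻¹ * rr)) = rr * (Units.map (MulSemiringAction.toRingHom G (𝓞 L) σ : 𝓞 L →* 𝓞 L)) w := by
    rw [mul_comm rr, mul_left_comm, mul_inv_cancel_left]
  rw [e4]
  apply Units.ext
  exact key.symm

lemma cl_relNorm_cls {I : Ideal (𝓞 L)} (hI : I ≠ ⊥) :
    (idMap_relNorm (K := E) (L := L)).cl (cls I) = cls (Ideal.relNorm (𝓞 E) I) := by
  rw [cls_of_ne hI, IdMap.cl_mk0, ← cls_coe]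
  rfl

lemma card_ker_mul_range {A B : Type*} [Group A] [Group B] (f : A →* B) :
    Nat.card f.ker * Nat.card f.range = Nat.card A := by
  rw [← Subgroup.index_ker, Subgroup.card_mul_index]

/-- First inequality of class field theory for an unramified cyclic extension of prime degree. -/
theorem first_ineq (σ : G) [hE : IsGaloisGroup (Subgroup.zpowers σ) E L]
    (hσ : (orderOf σ).Prime)
    (hun : ∀ P : Ideal (𝓞 L), P.IsPrime → P ≠ ⊥ →
      ¬ P ^ 2 ∣ (P.under (𝓞 E)).map (algebraMap (𝓞 E) (𝓞 L)))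
    (h0 : 0 < Nat.card ((𝓞 E)ˣ ⧸ (nU E L).range))
    (h3 : 3 * Nat.card ((𝓞 E)ˣ ⧸ (nU E L).range) ≤
      Nat.card ((nU E L).ker ⧸ ((dU L σ).range.subgroupOf (nU E L).ker))) :
    ∃ H : Subgroup (ClassGroup (𝓞 E)), H ≠ ⊤ ∧
      ∀ I : Ideal (𝓞 L), I ≠ ⊥ → cls (Ideal.relNorm (𝓞 E) I) ∈ H := by
  classical
  set nr := (idMap_relNorm (K := E) (L := L)).cl with hnr
  refine ⟨nr.range, ?_, fun I hI => ⟨cls I, cl_relNorm_cls hI⟩⟩
  have hfin : Finite ((𝓞 E)ˣ ⧸ (nU E L).range) := (Nat.card_pos_iff.mp h0).2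
  have h1 := card_fixC_le (E := E) σ hσ hun hfin
  have h2 := card_h1_le (E := E) σ hσ hun
  have hle : (act L σ / MonoidHom.id (ClassGroup (𝓞 L))).range ≤ nr.ker := by
    rintro _ ⟨x, rfl⟩
    obtain ⟨I, hI, rfl⟩ := cls_surj x
    rw [MonoidHom.mem_ker, MonoidHom.div_apply, MonoidHom.id_apply, map_div, div_eq_one,
      cls_smul σ hI, hnr, cl_relNorm_cls (smul_ne_bot' σ hI), cl_relNorm_cls hI,
      Tow.relNorm_smul_zpowers]
  have h4 : Nat.card nr.range ≤ Nat.card (fixC L σ) := by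
    have e1 := card_ker_mul_range nr
    have e2 := card_ker_mul_range (act L σ / MonoidHom.id (ClassGroup (𝓞 L)))
    have e3 : Nat.card (act L σ / MonoidHom.id (ClassGroup (𝓞 L))).range ≤ Nat.card nr.ker :=
      Nat.card_le_card_of_injective (Subgroup.inclusion hle) (Subgroup.inclusion_injective _)
    have e4 : 0 < Nat.card (act L σ / MonoidHom.id (ClassGroup (𝓞 L))).range := Nat.card_pos
    have e5 : Nat.card (act L σ / MonoidHom.id (ClassGroup (𝓞 L))).range * Nat.card nr.range ≤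
        Nat.card (act L σ / MonoidHom.id (ClassGroup (𝓞 L))).range * Nat.card (fixC L σ) := by
      calc _ ≤ Nat.card nr.ker * Nat.card nr.range := Nat.mul_le_mul_right _ e3
        _ = Nat.card (fixC L σ) * Nat.card (act L σ / MonoidHom.id (ClassGroup (𝓞 L))).range := by
            rw [e1, ← e2]; rfl
        _ = _ := mul_comm _ _
    exact Nat.le_of_mul_le_mul_left e5 e4
  have e6 := card_ker_mul_range (ClassGroup.extendedHom (𝓞 E) (𝓞 L))
  set a := Nat.card ((𝓞 E)ˣ ⧸ (nU E L).range) with ha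
  set r := Nat.card (ClassGroup.extendedHom (𝓞 E) (𝓞 L)).range with hr
  set k := Nat.card (ClassGroup.extendedHom (𝓞 E) (𝓞 L)).ker with hk
  have e7 : 3 * Nat.card nr.range ≤ Nat.card (ClassGroup (𝓞 E)) := by
    calc 3 * Nat.card nr.range ≤ 3 * (a * r) := Nat.mul_le_mul_left _ (h4.trans h1)
      _ = (3 * a) * r := by ring
      _ ≤ k * r := Nat.mul_le_mul_right _ (h3.trans h2)
      _ = _ := e6
  intro htop
  have e8 : Nat.card nr.range = Nat.card (ClassGroup (𝓞 E)) := by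
    rw [htop, Subgroup.card_top]
  have e9 : 0 < Nat.card (ClassGroup (𝓞 E)) := Nat.card_pos
  omega

end inv

end Pool.Agent.Lib.MP_695920_nt.Refl
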