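import Mathlib
import Pool.Agent.Lib.MP_695920_nt.Refl.FirstIneq

set_option autoImplicit false

open Finset NumberField Module IsDedekindDomain
open scoped nonZeroDivisors Pointwise

namespace Pool.Agent.Lib.MP_695920_nt.Refl

open Pool.Agent.Lib.MP_695920_nt.Solv Pool.Agent.Lib.MP_695920_nt.Tow

section cop

variable {E : Type} [Field E] [NumberField E]

/-- an integral representative prime to a given element -/
lemma exists_rep_coprime {b : Ideal (𝓞 E)} (hb : b ≠ ⊥) {m : 𝓞 E} (hm : m ≠ 0) :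
    ∃ (a m0 : 𝓞 E) (c : Ideal (𝓞 E)), a ≠ 0 ∧ m0 ≠ 0 ∧ c ≠ ⊥ ∧ c ⊔ Ideal.span {m} = ⊤ ∧
      Ideal.span {a} * b = Ideal.span {m0} * c := by
  obtain ⟨b', hb'⟩ := Ideal.dvd_iff_le.mpr
    ((Ideal.span_singleton_le_iff_mem b).mpr (Ideal.absNorm_mem b))
  set m0 : 𝓞 E := ((Ideal.absNorm b : ℕ) : 𝓞 E) with hm0def
  have hm0 : m0 ≠ 0 := by
    have : Ideal.absNorm b ≠ 0 := by rwa [Ne, Ideal.absNorm_eq_zero_iff]
    rw [hm0def]
    exact_mod_cast this
  have hb'0 : b' ≠ ⊥ := by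
    rintro rfl
    rw [Ideal.mul_bot, Ideal.span_singleton_eq_bot] at hb'
    exact hm0 hb'
  have hspm : Ideal.span {m} ≠ ⊥ := by simpa using hm
  obtain ⟨a, ha⟩ := IsDedekindDomain.exists_sup_span_eq
    (I := b' * Ideal.span {m}) (J := b') Ideal.mul_le_left (mul_ne_zero hb'0 hspm)
  have hab : a ∈ b' := by
    rw [← ha]
    exact (le_sup_right : Ideal.span {a} ≤ _) (Ideal.mem_span_singleton_self a)
  obtain ⟨c, hc⟩ := Ideal.dvd_iff_le.mpr ((Ideal.span_singleton_le_iff_mem b').mpr hab)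
  have htop : Ideal.span {m} ⊔ c = ⊤ := by
    have h1 : b' * (Ideal.span {m} ⊔ c) = b' * ⊤ := by
      rw [Ideal.mul_sup, ← hc, ha, Ideal.mul_top]
    exact mul_left_cancel₀ hb'0 h1
  -- `a ≠ 0` unless everything is trivial
  by_cases ha0 : a = 0
  · -- then `m` is a unit and we may take the ideal itself
    have hmtop : Ideal.span {m} = ⊤ := by
      rw [ha0, Ideal.span_singleton_zero, sup_bot_eq] at ha
      exact mul_left_cancel₀ hb'0 (by rw [ha, Ideal.mul_top])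
    refine ⟨1, 1, b, one_ne_zero, one_ne_zero, hb, ?_, rfl⟩
    rw [hmtop, sup_top_eq]
  · refine ⟨a, m0, c, ha0, hm0, ?_, ?_, ?_⟩
    · rintro rfl
      rw [Ideal.mul_bot, Ideal.span_singleton_eq_bot] at hc
      exact ha0 hc
    · rw [sup_comm]; exact htop
    · rw [hc, hb']
      ring

lemma cls_surj_coprime (x : ClassGroup (𝓞 E)) {m : 𝓞 E} (hm : m ≠ 0) :
    ∃ J : Ideal (𝓞 E), J ≠ ⊥ ∧ cls J = x ∧ J ⊔ Ideal.span {m} = ⊤ := by
  obtain ⟨b, hb, rfl⟩ := cls_surj x
  obtain ⟨a, m0, c, ha, hm0, hc, hcm, hac⟩ := exists_rep_coprime hb hm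
  refine ⟨c, hc, ?_, hcm⟩
  rw [cls_eq_iff hc hb]
  exact ⟨m0, a, hm0, ha, hac.symm⟩

lemma not_mem_of_coprime {J : Ideal (𝓞 E)} {m : 𝓞 E} (h : J ⊔ Ideal.span {m} = ⊤)
    {q : Ideal (𝓞 E)} (hq : q.IsPrime) (hJq : J ≤ q) : m ∉ q := by
  intro hm
  apply hq.ne_top
  rw [eq_top_iff, ← h]
  exact sup_le hJq ((Ideal.span_singleton_le_iff_mem q).mpr hm)

/-- a class is in a subgroup if the classes of the prime factors are -/
lemma cls_mem_of_primes (H : Subgroup (ClassGroup (𝓞 E))) :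
    ∀ (J : Ideal (𝓞 E)), J ≠ ⊥ → (∀ q : Ideal (𝓞 E), q.IsPrime → q ≠ ⊥ → J ≤ q → cls q ∈ H) →
      cls J ∈ H := by
  intro J
  induction J using UniqueFactorizationMonoid.induction_on_prime with
  | h₁ => intro h; exact absurd rfl h
  | h₂ x hx =>
    intro _ _
    have : x = ⊤ := Ideal.isUnit_iff.mp hx
    rw [this, cls_top]
    exact one_mem _
  | h₃ a p ha hp ih =>
    intro _ hq
    have hp0 : p ≠ ⊥ := hp.ne_zero
    rw [cls_mul hp0 ha]
    refine mul_mem (hq p (Ideal.isPrime_of_prime hp) hp0 Ideal.mul_le_left) ?_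
    exact ih ha (fun q h1 h2 h3 => hq q h1 h2 (Ideal.mul_le_right.trans h3))

end cop

section grp

/-- index at least three -/
lemma three_le_relIndex {A : Type*} [CommGroup A] [Finite A] {S T : Subgroup A} {x : A}
    (hx3 : x ^ 3 ∈ S) (hxT : x ∈ T) (hxS : x ∉ S) : 3 ≤ S.relIndex T := by
  by_contra hcon
  push Not at hcon
  have h0 : S.relIndex T ≠ 0 := by
    rw [Subgroup.relIndex]
    exact Subgroup.index_ne_zero_of_finite
  have h1 : S.relIndex T ≠ 1 := by
    rw [Ne, Subgroup.relIndex_eq_one]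
    exact fun h => hxS (h hxT)
  have h2 : S.relIndex T = 2 := by omega
  have h3 : ((⟨x, hxT⟩ : T) : T ⧸ S.subgroupOf T) ^ 2 = 1 := by
    have := pow_card_eq_one' (G := T ⧸ S.subgroupOf T) (x := ((⟨x, hxT⟩ : T) : T ⧸ S.subgroupOf T))
    have h4 : Nat.card (T ⧸ S.subgroupOf T) = 2 := h2
    rwa [h4] at this
  rw [← QuotientGroup.mk_pow, QuotientGroup.eq_one_iff, Subgroup.mem_subgroupOf] at h3
  have h5 : x ^ 2 ∈ S := h3
  apply hxS
  have h6 : x = x ^ 3 * (x ^ 2)⁻¹ := by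
    rw [pow_succ x 2, mul_comm (x ^ 2) x, mul_inv_cancel_right]
  rw [h6]
  exact mul_mem hx3 (inv_mem h5)

/-- torsion in a quadratic extension of class groups -/
lemma card_tors_ge {A B : Type*} [CommGroup A] [Finite A] [CommGroup B] [Finite B] (j : B →* A)
    (N : A →* B) (hN : ∀ x, N (j x) = x ^ 2) :
    Nat.card {x : B // x ^ 3 = 1} * (j.range ⊔ (powMonoidHom 3 : A →* A).range).index ≤
      Nat.card {x : A // x ^ 3 = 1} := by
  set Cb := (powMonoidHom 3 : A →* A).range with hCb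
  set Cb' := (powMonoidHom 3 : B →* B).range with hCb'
  have hA : Nat.card {x : A // x ^ 3 = 1} = Cb.index := by
    have h1 := card_ker_mul_range (powMonoidHom 3 : A →* A)
    have h2 := Subgroup.index_mul_card Cb
    have h3 : Nat.card {x : A // x ^ 3 = 1} = Nat.card (powMonoidHom 3 : A →* A).ker := by
      apply Nat.card_congr
      exact Equiv.subtypeEquivRight (fun x => by rw [MonoidHom.mem_ker]; rfl)
    have h4 : 0 < Nat.card Cb := Nat.card_pos
    rw [h3]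
    apply Nat.eq_of_mul_eq_mul_right h4
    rw [h1, h2]
  have hB : Nat.card {x : B // x ^ 3 = 1} = Cb'.index := by
    have h1 := card_ker_mul_range (powMonoidHom 3 : B →* B)
    have h2 := Subgroup.index_mul_card Cb'
    have h3 : Nat.card {x : B // x ^ 3 = 1} = Nat.card (powMonoidHom 3 : B →* B).ker := by
      apply Nat.card_congr
      exact Equiv.subtypeEquivRight (fun x => by rw [MonoidHom.mem_ker]; rfl)
    have h4 : 0 < Nat.card Cb' := Nat.card_pos
    rw [h3]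
    apply Nat.eq_of_mul_eq_mul_right h4
    rw [h1, h2]
  have h1 : Cb.relIndex (j.range ⊔ Cb) * (j.range ⊔ Cb).index = Cb.index :=
    Subgroup.relIndex_mul_index le_sup_right
  rw [Subgroup.relIndex_sup_right, ← Subgroup.index_comap] at h1
  rw [hA, hB, ← h1]
  apply Nat.mul_le_mul_right
  have hle : Cb.comap j ≤ Cb' := by
    intro x hx
    obtain ⟨y, hy⟩ := hx
    have h2 : y ^ 3 = j x := hy
    have h3 := congrArg N h2
    rw [map_pow, hN] at h3
    refine ⟨x * (N y)⁻¹, ?_⟩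
    change (x * (N y)⁻¹) ^ 3 = x
    rw [mul_pow, inv_pow, h3, pow_succ x 2, mul_comm (x ^ 2) x, mul_inv_cancel_right]
  exact Nat.le_of_dvd (Nat.pos_of_ne_zero Subgroup.index_ne_zero_of_finite)
    (Subgroup.index_dvd_of_le hle)

end grp

section sel

variable {E : Type} [Field E] [NumberField E]

/-- choice of primes generating the class group modulo a subgroup containing the cubes -/
lemma select_primes {m : 𝓞 E} (hm : m ≠ 0) :
    ∀ (n : ℕ) (S : Subgroup (ClassGroup (𝓞 E))), S.index = n → (∀ x, x ^ 3 ∈ S) →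
      ∃ F : Finset (Ideal (𝓞 E)), (∀ q ∈ F, q.IsPrime ∧ q ≠ ⊥ ∧ m ∉ q) ∧
        S ⊔ Subgroup.closure (cls '' (F : Set (Ideal (𝓞 E)))) = ⊤ ∧ 3 ^ F.card ≤ S.index := by
  classical
  intro n
  induction n using Nat.strong_induction_on with
  | _ n ih =>
  intro S hSn hS3
  by_cases hStop : S = ⊤
  · refine ⟨∅, by simp, ?_, ?_⟩
    · rw [hStop, top_sup_eq]
    · rw [Finset.card_empty, pow_zero]
      exact Nat.pos_of_ne_zero Subgroup.index_ne_zero_of_finite
  obtain ⟨x, hx⟩ : ∃ x, x ∉ S := by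
    by_contra hcon
    push Not at hcon
    exact hStop (eq_top_iff.mpr (fun y _ => hcon y))
  obtain ⟨J, hJ0, rfl, hJm⟩ := cls_surj_coprime x hm
  obtain ⟨q, hq, hq0, hJq, hqS⟩ : ∃ q : Ideal (𝓞 E), q.IsPrime ∧ q ≠ ⊥ ∧ J ≤ q ∧ cls q ∉ S := by
    by_contra hcon
    push Not at hcon
    exact hx (cls_mem_of_primes S J hJ0 (fun q h1 h2 h3 => hcon q h1 h2 h3))
  set S' := S ⊔ Subgroup.zpowers (cls q) with hS'
  have hqS' : cls q ∈ S' := (le_sup_right : Subgroup.zpowers (cls q) ≤ S') (Subgroup.mem_zpowers _)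
  have h3 : 3 ≤ S.relIndex S' := three_le_relIndex (hS3 (cls q)) hqS' hqS
  have hidx : S.relIndex S' * S'.index = S.index := Subgroup.relIndex_mul_index le_sup_left
  have hpos : 0 < S'.index := Nat.pos_of_ne_zero Subgroup.index_ne_zero_of_finite
  have hlt : S'.index < n := by rw [← hSn, ← hidx]; nlinarith
  obtain ⟨F, hF1, hF2, hF3⟩ := ih _ hlt S' rfl (fun y => (le_sup_left : S ≤ S') (hS3 y))
  refine ⟨insert q F, ?_, ?_, ?_⟩
  · intro r hr
    rcases Finset.mem_insert.mp hr with rfl | hr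
    · exact ⟨hq, hq0, not_mem_of_coprime hJm hq hJq⟩
    · exact hF1 r hr
  · rw [eq_top_iff, ← hF2, hS']
    refine sup_le (sup_le le_sup_left ?_) ?_
    · refine le_trans ?_ le_sup_right
      rw [Subgroup.zpowers_le]
      apply Subgroup.subset_closure
      exact ⟨q, by simp, rfl⟩
    · refine le_trans ?_ le_sup_right
      apply Subgroup.closure_mono
      apply Set.image_mono
      rw [Finset.coe_insert]
      exact Set.subset_insert _ _
  · calc 3 ^ (insert q F).card ≤ 3 ^ (F.card + 1) :=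
        Nat.pow_le_pow_right (by norm_num) (Finset.card_insert_le _ _)
      _ = 3 * 3 ^ F.card := by rw [pow_succ, mul_comm]
      _ ≤ S.relIndex S' * S'.index := Nat.mul_le_mul h3 hF3
      _ = S.index := hidx

end sel

section residue

/-- cubic residue classes -/
lemma cubic_classes {R : Type} [CommRing R] {q : Ideal R} (hq : q.IsMaximal) [Finite (R ⧸ q)] :
    ∃ (Q : Type) (_ : Finite Q) (χ : R → Q), Nat.card Q ≤ 3 ∧
      ∀ a b : R, a ∉ q → b ∉ q → χ a = χ b → ∃ u : R, a - b * u ^ 3 ∈ q := by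
  classical
  let _ : Field (R ⧸ q) := Ideal.Quotient.field q
  let Q := (R ⧸ q)ˣ ⧸ (powMonoidHom 3 : (R ⧸ q)ˣ →* (R ⧸ q)ˣ).range
  have hfin : Finite Q := inferInstance
  let χ : R → Q := fun a => if h : a ∉ q then
    QuotientGroup.mk (Units.mk0 (Ideal.Quotient.mk q a) (by
      rwa [Ne, Ideal.Quotient.eq_zero_iff_mem])) else 1
  refine ⟨Q, hfin, χ, ?_, ?_⟩
  · have h1 := card_ker_mul_range (powMonoidHom 3 : (R ⧸ q)ˣ →* (R ⧸ q)ˣ)
    have h2 := Subgroup.index_mul_card (powMonoidHom 3 : (R ⧸ q)ˣ →* (R ⧸ q)ˣ).range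
    have h3 : Nat.card Q = Nat.card (powMonoidHom 3 : (R ⧸ q)ˣ →* (R ⧸ q)ˣ).ker := by
      have h4 : 0 < Nat.card (powMonoidHom 3 : (R ⧸ q)ˣ →* (R ⧸ q)ˣ).range := Nat.card_pos
      apply Nat.eq_of_mul_eq_mul_right h4
      rw [h1]
      exact h2
    rw [h3]
    have h5 : (powMonoidHom 3 : (R ⧸ q)ˣ →* (R ⧸ q)ˣ).ker = rootsOfUnity 3 (R ⧸ q) := by
      ext u
      rw [MonoidHom.mem_ker, mem_rootsOfUnity]
      rfl
    rw [h5]
    exact card_rootsOfUnity (R ⧸ q) 3
  · intro a b ha hb hab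
    simp only [χ] at hab
    rw [dif_pos ha, dif_pos hb, eq_comm, QuotientGroup.eq] at hab
    obtain ⟨v, hv⟩ := hab
    obtain ⟨u, hu⟩ := Ideal.Quotient.mk_surjective (v : R ⧸ q)
    refine ⟨u, ?_⟩
    rw [← Ideal.Quotient.eq_zero_iff_mem, map_sub, map_mul, map_pow, hu, sub_eq_zero]
    have h1 : (powMonoidHom 3 : (R ⧸ q)ˣ →* (R ⧸ q)ˣ) v = v ^ 3 := rfl
    rw [h1] at hv
    have h2 := congrArg (fun z : (R ⧸ q)ˣ => (z : R ⧸ q)) hv
    simp only [Units.val_pow_eq_pow_val, Units.val_mul, Units.val_inv_eq_inv_val,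
      Units.val_mk0] at h2
    rw [h2, mul_inv_cancel_left₀]
    rwa [Ne, Ideal.Quotient.eq_zero_iff_mem]

end residue

end Pool.Agent.Lib.MP_695920_nt.Refl
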