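import Mathlib
import Pool.Agent.Lib.MP_695920_nt.Refl.FirstIneq

set_option autoImplicit false

open Finset NumberField Module IsDedekindDomain
open scoped nonZeroDivisors Pointwise

namespace Pool.Agent.Lib.MP_695920_nt.Refl

open Pool.Agent.Lib.MP_695920_nt.Solv Pool.Agent.Lib.MP_695920_nt.Tow

section ram

variable {E L : Type} [Field E] [NumberField E] [Field L] [NumberField L] [Algebra E L]
  [IsGalois E L]

/-- in a Galois extension of prime degree the whole group is the inertia group of a ramified prime -/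
lemma ram_inertia (h3 : (finrank E L).Prime) {P : Ideal (𝓞 L)} (hP : P.IsPrime) (hP0 : P ≠ ⊥)
    (hram : P ^ 2 ∣ (P.under (𝓞 E)).map (algebraMap (𝓞 E) (𝓞 L))) (σ : Gal(L/E)) (x : 𝓞 L) :
    σ • x - x ∈ P := by
  classical
  set q := P.under (𝓞 E) with hq
  have hqp : q.IsPrime := inferInstance
  have hover' : P.LiesOver q := ⟨rfl⟩
  have hne : q ≠ ⊥ := Ideal.under_ne_bot _ hP0
  have hmax : q.IsMaximal := hqp.isMaximal hne
  have hPmax : P.IsMaximal := hP.isMaximal hP0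
  have hfin : Finite (𝓞 E ⧸ q) := Ring.HasFiniteQuotients.finiteQuotient hne
  have hfinP : Finite (𝓞 L ⧸ P) := Ring.HasFiniteQuotients.finiteQuotient hP0
  have h1 : Ideal.ramificationIdx' q P ≠ 1 := by
    rw [Ideal.ramificationIdx'_ne_one_iff]
    · exact Ideal.le_of_dvd hram
    · exact Ideal.map_comap_le
  rw [Ideal.ramificationIdx'_eq_ramificationIdx _ P hne] at h1
  have h2 := Ideal.card_inertia_eq_ramificationIdxIn (G := Gal(L/E)) q P
  rw [Ideal.ramificationIdxIn_eq_ramificationIdx q P Gal(L/E)] at h2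
  have h4 : Nat.card (P.inertia Gal(L/E)) ∣ Nat.card Gal(L/E) := Subgroup.card_subgroup_dvd_card _
  rw [IsGalois.card_aut_eq_finrank] at h4
  rcases (Nat.dvd_prime h3).mp h4 with h5 | h5
  · exact absurd (h2.symm.trans h5) h1
  · have h6 : P.inertia Gal(L/E) = ⊤ := by
      apply Subgroup.eq_top_of_card_eq
      rw [h5, IsGalois.card_aut_eq_finrank]
    have h7 : σ ∈ P.inertia Gal(L/E) := by rw [h6]; trivial
    exact h7 x

/-- a prime moved by the Galois group of an extension of prime degree has relative degree one -/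
lemma relNorm_of_moved (h3 : (finrank E L).Prime) {P : Ideal (𝓞 L)} (hP : P.IsPrime) (hP0 : P ≠ ⊥)
    {σ : Gal(L/E)} (hσ : σ • P ≠ P) : Ideal.relNorm (𝓞 E) P = P.under (𝓞 E) := by
  classical
  set q := P.under (𝓞 E) with hq
  have hqp : q.IsPrime := inferInstance
  have hover' : P.LiesOver q := ⟨rfl⟩
  have hne : q ≠ ⊥ := Ideal.under_ne_bot _ hP0
  have hmax : q.IsMaximal := hqp.isMaximal hne
  have hPmax : P.IsMaximal := hP.isMaximal hP0
  have h1 := Ideal.ncard_primesOver_mul_ramificationIdxIn_mul_inertiaDegIn q (𝓞 L) Gal(L/E)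
  rw [Ideal.inertiaDegIn_eq_inertiaDeg q P Gal(L/E), IsGalois.card_aut_eq_finrank] at h1
  have h2 : (Ideal.primesOver q (𝓞 L)).ncard ∣ finrank E L := ⟨_, h1.symm⟩
  have hfin : (Ideal.primesOver q (𝓞 L)).Finite := IsDedekindDomain.primesOver_finite q (𝓞 L)
  have hPmem : P ∈ Ideal.primesOver q (𝓞 L) := ⟨hP, hover'⟩
  have hσmem : σ • P ∈ Ideal.primesOver q (𝓞 L) := by
    refine ⟨hP.smul σ, ⟨?_⟩⟩
    rw [hq]
    exact (P.under_smul (𝓞 E) σ).symm
  rcases (Nat.dvd_prime h3).mp h2 with h4 | h4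
  · exfalso
    rw [Set.ncard_eq_one] at h4
    obtain ⟨Q, hQ⟩ := h4
    rw [hQ] at hPmem hσmem
    rw [Set.mem_singleton_iff] at hPmem hσmem
    exact hσ (by rw [hσmem, hPmem])
  · rw [h4] at h1
    have h5 : Ideal.ramificationIdxIn q (𝓞 L) * P.inertiaDeg (𝓞 E) = 1 := by
      have h6 : finrank E L * (Ideal.ramificationIdxIn q (𝓞 L) * P.inertiaDeg (𝓞 E)) =
          finrank E L * 1 := by rw [h1, mul_one]
      exact Nat.eq_of_mul_eq_mul_left h3.pos h6
    have h6 : P.inertiaDeg (𝓞 E) = 1 := Nat.eq_one_of_mul_eq_one_left h5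
    rw [Ideal.relNorm_eq_pow_of_isMaximal P q, h6, pow_one]

/-- existence of primes above a prime -/
lemma exists_over {q : Ideal (𝓞 E)} (hq : q.IsPrime) (hq0 : q ≠ ⊥) :
    ∃ P : Ideal (𝓞 L), P.IsPrime ∧ P ≠ ⊥ ∧ P.under (𝓞 E) = q := by
  have hmax : q.IsMaximal := hq.isMaximal hq0
  obtain ⟨P, hP1, hP2⟩ := Ideal.exists_maximal_ideal_liesOver_of_isIntegral (S := 𝓞 L) q
  have hP0 : P ≠ ⊥ := by
    rintro rfl
    apply hq0
    have := hP2.over
    rw [this]
    exact Ideal.comap_bot_of_injective _ (FaithfulSMul.algebraMap_injective (𝓞 E) (𝓞 L))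
  exact ⟨P, hP1.isPrime, hP0, hP2.over.symm⟩

end ram

section coprime

variable {E : Type} [Field E] [NumberField E]

/-- an integral representative prime to a given prime -/
lemma exists_rep_not_le {b : Ideal (𝓞 E)} (hb : b ≠ ⊥) {q : Ideal (𝓞 E)} (hq : q.IsPrime)
    : ∃ (a m : 𝓞 E) (c : Ideal (𝓞 E)), a ≠ 0 ∧ m ≠ 0 ∧ ¬ c ≤ q ∧
      Ideal.span {a} * b = Ideal.span {m} * c := by
  -- complement
  obtain ⟨b', hb'⟩ := Ideal.dvd_iff_le.mpr
    ((Ideal.span_singleton_le_iff_mem b).mpr (Ideal.absNorm_mem b))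
  set m : 𝓞 E := ((Ideal.absNorm b : ℕ) : 𝓞 E) with hm
  have hm0 : m ≠ 0 := by
    have : Ideal.absNorm b ≠ 0 := by rwa [Ne, Ideal.absNorm_eq_zero_iff]
    rw [hm]
    exact_mod_cast this
  have hb'0 : b' ≠ ⊥ := by
    rintro rfl
    rw [Ideal.mul_bot, Ideal.span_singleton_eq_bot] at hb'
    exact hm0 hb'
  have hlt : ¬ b' ≤ q * b' := by
    intro h
    have h1 : q * b' ∣ ⊤ * b' := by
      rw [Ideal.top_mul]; exact Ideal.dvd_iff_le.mpr h
    have h2 : q ∣ ⊤ := (mul_dvd_mul_iff_right hb'0).mp h1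
    exact hq.ne_top (top_le_iff.mp (Ideal.le_of_dvd h2))
  obtain ⟨a, ha, haq⟩ := Set.not_subset.mp hlt
  obtain ⟨c, hc⟩ := Ideal.dvd_iff_le.mpr ((Ideal.span_singleton_le_iff_mem b').mpr ha)
  have ha0 : a ≠ 0 := by
    rintro rfl
    exact haq (Ideal.zero_mem _)
  refine ⟨a, m, c, ha0, hm0, ?_, ?_⟩
  · intro hcq
    apply haq
    have h1 : Ideal.span {a} ≤ q * b' := by
      rw [hc, mul_comm]
      exact Ideal.mul_mono_left hcq
    exact h1 (Ideal.mem_span_singleton_self a)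
  · rw [hc, hb']
    ring

end coprime

section kummer

variable {E L : Type} [Field E] [NumberField E] [Field L] [NumberField L] [Algebra E L]
  [IsGalois E L]

lemma smul_alg (σ : Gal(L/E)) (x : 𝓞 E) :
    σ • (algebraMap (𝓞 E) (𝓞 L) x) = algebraMap (𝓞 E) (𝓞 L) x := by
  apply FaithfulSMul.algebraMap_injective (𝓞 L) L
  exact smul_algebraMap σ (x : E)

lemma three_mem {R : Type*} [CommRing R] {ω : R} (hω : ω ^ 2 + ω + 1 = 0) {P : Ideal R}
    (h : ω - 1 ∈ P) : (3 : R) ∈ P := by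
  have h1 : (3 : R) = (ω - 1) * (-ω - 2) := by linear_combination hω
  rw [h1]
  exact Ideal.mul_mem_right _ _ h

/-- the extension by the cube root is unramified -/
theorem kummer_unram (h3 : finrank E L = 3) {σ : Gal(L/E)} {ω γ c0 : 𝓞 E} {θ : 𝓞 L}
    (hω : ω ^ 2 + ω + 1 = 0) (hγ : γ ≠ 0) (hθ : θ ^ 3 = algebraMap (𝓞 E) (𝓞 L) γ)
    (hσ : σ • θ = algebraMap (𝓞 E) (𝓞 L) ω * θ) {b : Ideal (𝓞 E)}
    (hb : Ideal.span {γ} = b ^ 3)
    (hγ3 : ∀ Q : Ideal (𝓞 E), Q.IsPrime → (3 : 𝓞 E) ∈ Q → γ ∉ Q)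
    (hc : γ - c0 ^ 3 ∈ Ideal.span {(9 : 𝓞 E)}) :
    ∀ P : Ideal (𝓞 L), P.IsPrime → P ≠ ⊥ →
      ¬ P ^ 2 ∣ (P.under (𝓞 E)).map (algebraMap (𝓞 E) (𝓞 L)) := by
  intro P hP hP0 hram
  have hin := ram_inertia (by rw [h3]; exact Nat.prime_three) hP hP0 hram σ
  set ι := algebraMap (𝓞 E) (𝓞 L) with hι
  have hιinj : Function.Injective ι := FaithfulSMul.algebraMap_injective (𝓞 E) (𝓞 L)
  have hω' : (ι ω) ^ 2 + ι ω + 1 = 0 := by
    rw [← map_pow, ← map_add, ← map_one ι, ← map_add, hω, map_zero]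
  have hunder : ∀ x : 𝓞 E, ι x ∈ P → x ∈ P.under (𝓞 E) := fun x hx => by
    rw [Ideal.under, Ideal.mem_comap]; exact hx
  have hθP : ι γ ∉ P → θ ∉ P := by
    intro h1 h2
    apply h1
    rw [← hθ]
    exact Ideal.pow_mem_of_mem P h2 3 (by norm_num)
  by_cases hP3 : (3 : 𝓞 L) ∈ P
  · -- primes above 3
    obtain ⟨e, he⟩ := Ideal.mem_span_singleton.mp hc
    set lam : 𝓞 L := ι (ω - ω ^ 2) with hlam
    have hlam2 : lam ^ 2 = -3 := by
      rw [hlam, map_sub, map_pow]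
      linear_combination ((ι ω) ^ 2 - 3 * ι ω + 3) * hω'
    have hlam0 : lam ≠ 0 := by
      intro h0
      rw [h0] at hlam2
      norm_num at hlam2
    have he' : ι γ - (ι c0) ^ 3 = 9 * ι e := by
      rw [← map_pow, ← map_sub, he, map_mul]
      have : ι 9 = 9 := map_ofNat ι 9
      rw [this]
    -- `y = (θ - c0) / lam`
    have hlamL : (lam : L) ≠ 0 := by simpa using hlam0
    obtain ⟨y, hyl⟩ : ∃ y : L, (lam : L) * y = (θ : L) - (ι c0 : L) :=
      ⟨((θ : L) - (ι c0 : L)) / (lam : L), by field_simp⟩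
    have hcub : y ^ 3 = (lam : L) * (ι c0 : L) * y ^ 2 + (ι c0 : L) ^ 2 * y + (lam : L) * (ι e : L) := by
      have e1 : ((θ : L)) ^ 3 = (ι γ : L) := by exact_mod_cast congrArg (fun z : 𝓞 L => (z : L)) hθ
      have e2 : (ι γ : L) - (ι c0 : L) ^ 3 = 9 * (ι e : L) := by
        have := congrArg (fun z : 𝓞 L => (z : L)) he'
        simp only [map_sub, map_pow, map_mul, map_ofNat] at this
        exact this
      have e3 : (lam : L) ^ 2 = -3 := by
        have := congrArg (fun z : 𝓞 L => (z : L)) hlam2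
        simp only [map_neg, map_pow, map_ofNat] at this
        exact this
      have e4 : (θ : L) = (lam : L) * y + (ι c0 : L) := by rw [hyl]; ring
      have e5 : (lam : L) ^ 3 ≠ 0 := pow_ne_zero _ hlamL
      apply mul_left_cancel₀ e5
      rw [e4] at e1
      linear_combination e1 + e2 - ((ι e : L) * ((lam : L) ^ 2 - 3) + (ι c0 : L) * ((lam : L) * y) ^ 2 +
        (ι c0 : L) ^ 2 * ((lam : L) * y)) * e3
    have hyint : IsIntegral (𝓞 L) y := by
      refine ⟨Polynomial.X ^ 3 - (Polynomial.C (lam * ι c0) * Polynomial.X ^ 2 +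
        Polynomial.C ((ι c0) ^ 2) * Polynomial.X + Polynomial.C (lam * ι e)), ?_, ?_⟩
      · apply Polynomial.monic_X_pow_sub
        compute_degree
        norm_num
      · simp only [Polynomial.eval₂_sub, Polynomial.eval₂_add, Polynomial.eval₂_mul,
          Polynomial.eval₂_pow, Polynomial.eval₂_X, Polynomial.eval₂_C, map_mul, map_pow]
        rw [hcub]
        ring
    obtain ⟨y', rfl⟩ : ∃ y' : 𝓞 L, (y' : L) = y :=
      IsIntegrallyClosed.isIntegral_iff.mp hyint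
    have hyl' : lam * y' = θ - ι c0 := by
      apply FaithfulSMul.algebraMap_injective (𝓞 L) L
      rw [map_mul, hyl, map_sub]
    -- `σ y - y = - ω² θ`
    have h5 := hin y'
    have h6 : σ • y' - y' = -(ι ω) ^ 2 * θ := by
      apply mul_left_cancel₀ hlam0
      have h7 := congrArg (fun z : 𝓞 L => σ • z) hyl'
      simp only [smul_mul', smul_sub] at h7
      rw [hlam, hι, smul_alg, smul_alg, hσ, ← hι, ← hlam] at h7
      have h8 : lam = ι ω - (ι ω) ^ 2 := by rw [hlam, map_sub, map_pow]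
      rw [mul_sub, h7, hyl']
      rw [h8]
      linear_combination (-θ * (ι ω - 1) ^ 2) * hω'
    rw [h6] at h5
    have hγP : ι γ ∉ P := by
      intro h7
      refine hγ3 (P.under (𝓞 E)) inferInstance (hunder 3 ?_) (hunder γ h7)
      rw [map_ofNat]
      exact hP3
    rcases hP.mem_or_mem h5 with h7 | h7
    · -- `ω` is a unit
      have h8 : (1 : 𝓞 L) ∈ P := by
        have h9 : (1 : 𝓞 L) = -(ι ω) ^ 2 * (-(ι ω)) := by
          linear_combination (1 - ι ω) * hω'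
        rw [h9]
        exact Ideal.mul_mem_right _ _ h7
      exact hP.ne_top ((Ideal.eq_top_iff_one P).mpr h8)
    · exact hθP hγP h7
  · -- primes not above 3
    have hb0 : b ≠ ⊥ := by
      rintro rfl
      rw [← Ideal.zero_eq_bot, zero_pow (by norm_num), Ideal.zero_eq_bot,
        Ideal.span_singleton_eq_bot] at hb
      exact hγ hb
    obtain ⟨a, m, c, ha, hm, hcq, hac⟩ := exists_rep_not_le hb0
      (inferInstance : (P.under (𝓞 E)).IsPrime)
    have h4 : Ideal.span {a ^ 3 * γ} = Ideal.span {m ^ 3} * c ^ 3 := by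
      rw [← Ideal.span_singleton_mul_span_singleton, ← Ideal.span_singleton_pow,
        ← Ideal.span_singleton_pow, hb, ← mul_pow, hac, mul_pow]
    have h5 : m ^ 3 ∣ a ^ 3 * γ := by
      rw [← Ideal.mem_span_singleton]
      have : a ^ 3 * γ ∈ Ideal.span {a ^ 3 * γ} := Ideal.mem_span_singleton_self _
      rw [h4] at this
      exact (Ideal.mul_le_left : Ideal.span {m ^ 3} * c ^ 3 ≤ Ideal.span {m ^ 3}) this
    obtain ⟨g, hg⟩ := h5
    have hm3 : m ^ 3 ≠ 0 := pow_ne_zero _ hm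
    have h6 : Ideal.span {g} = c ^ 3 := by
      rw [hg, ← Ideal.span_singleton_mul_span_singleton] at h4
      exact mul_left_cancel₀ (by simpa using hm3) h4
    have hgP : ι g ∉ P := by
      intro h7
      have h8 : c ^ 3 ≤ P.under (𝓞 E) := by
        rw [← h6, Ideal.span_singleton_le_iff_mem]
        exact hunder g h7
      exact hcq ((Ideal.IsPrime.pow_le_iff (by norm_num)).mp h8)
    have h7 : (ι m) ^ 3 ∣ (ι a * θ) ^ 3 := by
      refine ⟨ι g, ?_⟩
      rw [mul_pow, hθ, ← map_pow, ← map_mul, hg, map_mul, map_pow]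
    rw [IsIntegrallyClosed.pow_dvd_pow_iff (by norm_num)] at h7
    obtain ⟨x, hx⟩ := h7
    have hιm : ι m ≠ 0 := by
      intro h0
      exact hm (hιinj (by rw [h0, map_zero]))
    have hx3 : x ^ 3 = ι g := by
      apply mul_left_cancel₀ (pow_ne_zero 3 hιm)
      rw [← mul_pow, ← hx, mul_pow, hθ, ← map_pow, ← map_pow, ← map_mul, hg, map_mul]
    have hxP : x ∉ P := by
      intro h8
      apply hgP
      rw [← hx3]
      exact Ideal.pow_mem_of_mem P h8 3 (by norm_num)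
    have hσx : σ • x = ι ω * x := by
      apply mul_left_cancel₀ hιm
      have h8 := congrArg (fun z : 𝓞 L => σ • z) hx
      simp only [smul_mul'] at h8
      rw [hι, smul_alg, smul_alg, hσ, ← hι] at h8
      rw [← h8, mul_left_comm, hx, mul_left_comm]
    have h8 := hin x
    rw [hσx] at h8
    have h9 : (ι ω - 1) * x ∈ P := by
      rw [sub_mul, one_mul]; exact h8
    rcases hP.mem_or_mem h9 with h10 | h10
    · exact hP3 (three_mem hω' h10)
    · exact hxP h10

/-- a prime at which `γ` is a cube is a norm -/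
theorem kummer_split (h3 : finrank E L = 3) {σ : Gal(L/E)} {ω γ : 𝓞 E} {θ : 𝓞 L}
    (hω : ω ^ 2 + ω + 1 = 0) (hθ : θ ^ 3 = algebraMap (𝓞 E) (𝓞 L) γ)
    (hσ : σ • θ = algebraMap (𝓞 E) (𝓞 L) ω * θ) {q : Ideal (𝓞 E)} (hq : q.IsPrime) (hq0 : q ≠ ⊥)
    (h3q : (3 : 𝓞 E) ∉ q) (hγq : γ ∉ q) {y : 𝓞 E} (hy : γ - y ^ 3 ∈ q) :
    ∃ P : Ideal (𝓞 L), P ≠ ⊥ ∧ Ideal.relNorm (𝓞 E) P = q := by
  obtain ⟨P, hP, hP0, hPq⟩ := exists_over (L := L) hq hq0
  set ι := algebraMap (𝓞 E) (𝓞 L) with hι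
  have hω' : (ι ω) ^ 2 + ι ω + 1 = 0 := by
    rw [← map_pow, ← map_add, ← map_one ι, ← map_add, hω, map_zero]
  have hunder : ∀ x : 𝓞 E, ι x ∈ P ↔ x ∈ q := fun x => by
    rw [← hPq, Ideal.under, Ideal.mem_comap]
  have h3P : (3 : 𝓞 L) ∉ P := by
    rw [← map_ofNat ι 3, hunder]
    exact h3q
  have hθP : θ ∉ P := by
    intro h
    apply hγq
    rw [← hunder, ← hθ]
    exact Ideal.pow_mem_of_mem P h 3 (by norm_num)
  refine ⟨P, hP0, ?_⟩
  rw [← hPq]
  apply relNorm_of_moved (by rw [h3]; exact Nat.prime_three) hP hP0 (σ := σ)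
  intro hσP
  have hstab : ∀ x ∈ P, σ • x ∈ P := by
    intro x hx
    have := Ideal.smul_mem_pointwise_smul σ x P hx
    rwa [hσP] at this
  have key : ∀ z : 𝓞 E, θ - ι z ∈ P → False := by
    intro z hz
    have h1 := hstab _ hz
    rw [smul_sub, hι, smul_alg, hσ, ← hι] at h1
    have h2 : (ι ω - 1) * θ ∈ P := by
      have := Ideal.sub_mem P h1 hz
      have e : ι ω * θ - ι z - (θ - ι z) = (ι ω - 1) * θ := by ring
      rwa [e] at this
    rcases hP.mem_or_mem h2 with h4 | h4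
    · exact h3P (three_mem hω' h4)
    · exact hθP h4
  have h5 : (θ - ι y) * ((θ - ι (ω * y)) * (θ - ι (ω ^ 2 * y))) ∈ P := by
    have e : (θ - ι y) * ((θ - ι (ω * y)) * (θ - ι (ω ^ 2 * y))) = ι (γ - y ^ 3) := by
      rw [map_mul, map_mul, map_pow, map_sub, map_pow, ← hθ]
      linear_combination (-θ ^ 2 * ι y + θ * (ι y) ^ 2 * ι ω - (ι y) ^ 3 * (ι ω - 1)) * hω'
    rw [e, hunder]
    exact hy
  rcases hP.mem_or_mem h5 with h6 | h6
  · exact key _ h6
  · rcases hP.mem_or_mem h6 with h7 | h7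
    · exact key _ h7
    · exact key _ h7

end kummer

end Pool.Agent.Lib.MP_695920_nt.Refl
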