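import Mathlib

set_option autoImplicit false

open Finset NumberField Module IsDedekindDomain Filter Topology
open scoped nonZeroDivisors

namespace Pool.Agent.Lib.MP_695920_nt.Refl

section euler

variable {K : Type*} [Field K] [NumberField K] {F : Type*} [NormedField F] [CompleteSpace F]

/-- nonzero ideals all of whose prime factors are in `S` -/
def MS (S : Finset (HeightOneSpectrum (𝓞 K))) : Set (Ideal (𝓞 K)) :=
  {I | I ≠ ⊥ ∧ ∀ v : HeightOneSpectrum (𝓞 K), v.asIdeal ∣ I → v ∈ S}

lemma mem_MS {S : Finset (HeightOneSpectrum (𝓞 K))} {I : Ideal (𝓞 K)} :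
    I ∈ MS S ↔ I ≠ ⊥ ∧ ∀ v : HeightOneSpectrum (𝓞 K), v.asIdeal ∣ I → v ∈ S := Iff.rfl

lemma MS_empty : (MS (∅ : Finset (HeightOneSpectrum (𝓞 K)))) = {⊤} := by
  ext I
  rw [mem_MS, Set.mem_singleton_iff]
  constructor
  · rintro ⟨h0, h⟩
    by_contra hI
    obtain ⟨M, hM, hIM⟩ := Ideal.exists_le_maximal I hI
    have hM0 : M ≠ ⊥ := by
      rintro rfl
      exact h0 (le_bot_iff.mp hIM)
    exact absurd (h ⟨M, hM.isPrime, hM0⟩ (Ideal.dvd_iff_le.mpr hIM)) (Finset.notMem_empty _)
  · rintro rfl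
    refine ⟨top_ne_bot, fun v hv => ?_⟩
    exact absurd (top_le_iff.mp (Ideal.le_of_dvd hv)) v.isPrime.ne_top

open Classical in
/-- decomposition of `MS (insert v S)` -/
lemma MS_insert_bij {S : Finset (HeightOneSpectrum (𝓞 K))} {v : HeightOneSpectrum (𝓞 K)}
    (hv : v ∉ S) : Set.BijOn (fun p : ℕ × Ideal (𝓞 K) => v.asIdeal ^ p.1 * p.2)
      (Set.univ ×ˢ MS S) (MS (insert v S)) := by
  have hvp : Prime v.asIdeal := v.prime
  have hvn : ∀ I ∈ MS S, ¬ v.asIdeal ∣ I := fun I hI h => hv (hI.2 v h)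
  refine ⟨?_, ?_, ?_⟩
  · rintro ⟨e, I⟩ ⟨-, hI⟩
    refine ⟨mul_ne_zero (pow_ne_zero _ v.ne_bot) hI.1, fun u hu => ?_⟩
    rcases u.prime.dvd_or_dvd hu with h | h
    · have h1 := u.prime.dvd_of_dvd_pow h
      have h2 : u = v := by
        apply HeightOneSpectrum.ext
        exact ((v.isPrime.isMaximal v.ne_bot).eq_of_le u.isPrime.ne_top (Ideal.le_of_dvd h1)).symm
      rw [h2]
      exact Finset.mem_insert_self _ _
    · exact Finset.mem_insert_of_mem (hI.2 u h)
  · rintro ⟨e, I⟩ ⟨-, hI⟩ ⟨d, J⟩ ⟨-, hJ⟩ h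
    have hI' : ¬ v.asIdeal ∣ I := hvn I hI
    have hJ' : ¬ v.asIdeal ∣ J := hvn J hJ
    change v.asIdeal ^ e * I = v.asIdeal ^ d * J at h
    have hed : e = d := by
      rcases lt_trichotomy e d with hlt | heq | hgt
      · exfalso
        obtain ⟨k, rfl⟩ := Nat.exists_eq_add_of_lt hlt
        rw [show e + k + 1 = e + (k + 1) by ring, pow_add, mul_assoc] at h
        have h1 := mul_left_cancel₀ (pow_ne_zero e v.ne_bot) h
        apply hI'
        rw [h1, pow_succ', mul_assoc]
        exact dvd_mul_right _ _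
      · exact heq
      · exfalso
        obtain ⟨k, rfl⟩ := Nat.exists_eq_add_of_lt hgt
        rw [show d + k + 1 = d + (k + 1) by ring, pow_add, mul_assoc] at h
        have h1 := mul_left_cancel₀ (pow_ne_zero d v.ne_bot) h
        apply hJ'
        rw [← h1, pow_succ', mul_assoc]
        exact dvd_mul_right _ _
    subst hed
    have h1 := mul_left_cancel₀ (pow_ne_zero e v.ne_bot) h
    rw [h1]
  · rintro I ⟨hI0, hI⟩
    have hfin : FiniteMultiplicity v.asIdeal I :=
      FiniteMultiplicity.of_prime_left hvp hI0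
    obtain ⟨J, hJ, hJv⟩ := hfin.exists_eq_pow_mul_and_not_dvd
    have hJ0 : J ≠ ⊥ := by
      rintro rfl
      rw [Ideal.mul_bot] at hJ
      exact hI0 hJ
    refine ⟨(multiplicity v.asIdeal I, J), ⟨Set.mem_univ _, hJ0, fun u hu => ?_⟩, hJ.symm⟩
    have h1 : u ∈ insert v S := hI u (by rw [hJ]; exact Dvd.dvd.mul_left hu _)
    rcases Finset.mem_insert.mp h1 with rfl | h2
    · exact absurd hu hJv
    · exact h2

variable (f : Ideal (𝓞 K) →*₀ F)

lemma norm_lt_one (hsum : Summable (fun I => ‖f I‖)) (v : HeightOneSpectrum (𝓞 K)) :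
    ‖f v.asIdeal‖ < 1 := by
  have hinj : Function.Injective (fun n : ℕ => v.asIdeal ^ n) := by
    intro a b hab
    have hnu : ¬ IsUnit v.asIdeal := v.prime.not_isUnit
    exact pow_injective_of_not_isUnit hnu v.ne_bot hab
  have h1 := hsum.comp_injective hinj
  have h2 : (fun I => ‖f I‖) ∘ (fun n : ℕ => v.asIdeal ^ n) = fun n => ‖f v.asIdeal‖ ^ n := by
    funext n
    simp
  rw [h2, summable_geometric_iff_norm_lt_one] at h1
  rwa [norm_norm] at h1

open Classical in
/-- finite Euler products -/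
theorem euler_fin (hsum : Summable (fun I => ‖f I‖)) (S : Finset (HeightOneSpectrum (𝓞 K))) :
    ∑' I, (MS S).indicator f I = ∏ v ∈ S, (1 - f v.asIdeal)⁻¹ := by
  induction S using Finset.induction_on with
  | empty =>
    rw [MS_empty, Finset.prod_empty]
    rw [tsum_eq_single (⊤ : Ideal (𝓞 K))]
    · simp [← Ideal.one_eq_top]
    · intro I hI
      exact Set.indicator_of_notMem (by simpa using hI) _
  | insert v S hv ih =>
    rw [Finset.prod_insert hv, ← ih]
    have hbij := MS_insert_bij hv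
    have hgeo : Summable (fun n : ℕ => ‖f v.asIdeal ^ n‖) := by
      simp only [norm_pow]
      exact summable_geometric_of_lt_one (norm_nonneg _) (norm_lt_one f hsum v)
    have hS : Summable (fun I => ‖(MS S).indicator f I‖) := by
      apply Summable.of_nonneg_of_le (fun _ => norm_nonneg _) _ hsum
      intro I
      exact norm_indicator_le_norm_self _ _
    have h1 := tsum_mul_tsum_of_summable_norm hgeo hS
    rw [tsum_geometric_of_norm_lt_one (norm_lt_one f hsum v)] at h1
    rw [h1]
    -- both sides as sums over subtypes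
    rw [← _root_.tsum_subtype (MS (insert v S)) f]
    let e : (Set.univ ×ˢ MS S : Set (ℕ × Ideal (𝓞 K))) ≃ (MS (insert v S) : Set (Ideal (𝓞 K))) :=
      hbij.equiv
    rw [← e.tsum_eq]
    have h2 : ∀ z : ℕ × Ideal (𝓞 K), f v.asIdeal ^ z.1 * (MS S).indicator f z.2 =
        (Set.univ ×ˢ MS S : Set (ℕ × Ideal (𝓞 K))).indicator
          (fun z => f v.asIdeal ^ z.1 * f z.2) z := by
      intro z
      by_cases hz : z.2 ∈ MS S
      · rw [Set.indicator_of_mem hz, Set.indicator_of_mem (Set.mk_mem_prod (Set.mem_univ _) hz)]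
      · rw [Set.indicator_of_notMem hz, mul_zero, Set.indicator_of_notMem]
        exact fun h => hz h.2
    rw [tsum_congr h2, ← _root_.tsum_subtype]
    apply tsum_congr
    rintro ⟨⟨n, I⟩, hnI⟩
    change f (v.asIdeal ^ n * I) = f v.asIdeal ^ n * f I
    rw [map_mul, map_pow]

open Classical in
/-- Euler products -/
theorem euler_tendsto (hsum : Summable (fun I => ‖f I‖)) :
    Tendsto (fun S : Finset (HeightOneSpectrum (𝓞 K)) => ∏ v ∈ S, (1 - f v.asIdeal)⁻¹) atTop
      (𝓝 (∑' I, f I)) := by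
  simp only [← euler_fin f hsum]
  apply tendsto_tsum_of_dominated_convergence hsum
  · intro I
    by_cases hI : I = ⊥
    · have h1 : f I = 0 := by rw [hI]; exact map_zero f
      have h2 : ∀ S : Finset (HeightOneSpectrum (𝓞 K)), (MS S).indicator f I = 0 := by
        intro S
        by_cases h : I ∈ MS S
        · rw [Set.indicator_of_mem h, h1]
        · exact Set.indicator_of_notMem h _
      simp only [h2, h1]
      exact tendsto_const_nhds
    · have hfin : {v : HeightOneSpectrum (𝓞 K) | v.asIdeal ∣ I}.Finite := Ideal.finite_factors hI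
      apply tendsto_const_nhds.congr'
      filter_upwards [eventually_ge_atTop hfin.toFinset] with S hS
      rw [Set.indicator_of_mem]
      exact ⟨hI, fun v hv => hS (by simpa using hv)⟩
  · filter_upwards with S I
    exact norm_indicator_le_norm_self _ _

end euler

end Pool.Agent.Lib.MP_695920_nt.Refl
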