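import Mathlib
import Pool.Agent.Lib.MP_695920_nt.Refl.EulerId

set_option autoImplicit false

open Finset NumberField Module IsDedekindDomain Filter Topology
open scoped nonZeroDivisors

namespace Pool.Agent.Lib.MP_695920_nt.Refl

section zeta

variable (K : Type*) [Field K] [NumberField K]

/-- the norm to the power `-s` -/
noncomputable def nz (s : ℝ) (hs : 1 < s) : Ideal (𝓞 K) →*₀ ℝ where
  toFun I := (Ideal.absNorm I : ℝ) ^ (-s)
  map_zero' := by
    rw [map_zero, Nat.cast_zero, Real.zero_rpow (by linarith)]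
  map_one' := by rw [map_one, Nat.cast_one, Real.one_rpow]
  map_mul' I J := by
    rw [map_mul, Nat.cast_mul, Real.mul_rpow (Nat.cast_nonneg _) (Nat.cast_nonneg _)]

lemma nz_apply (s : ℝ) (hs : 1 < s) (I : Ideal (𝓞 K)) :
    nz K s hs I = (Ideal.absNorm I : ℝ) ^ (-s) := rfl

lemma nz_nonneg (s : ℝ) (hs : 1 < s) (I : Ideal (𝓞 K)) : 0 ≤ nz K s hs I := by
  rw [nz_apply]; positivity

lemma term_eq (s : ℝ) (hs : 1 < s) (n : ℕ) :
    LSeries.term (fun n ↦ (Nat.card {I : Ideal (𝓞 K) // Ideal.absNorm I = n} : ℂ)) (s : ℂ) n =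
      (((∑' I : {I : Ideal (𝓞 K) // Ideal.absNorm I = n}, nz K s hs I.1 : ℝ)) : ℂ) := by
  have h1 : ∀ I : {I : Ideal (𝓞 K) // Ideal.absNorm I = n}, nz K s hs I.1 = (n : ℝ) ^ (-s) := by
    intro I
    rw [nz_apply, I.2]
  rw [tsum_congr h1, tsum_const, nsmul_eq_mul, LSeries.term_def]
  by_cases hn : n = 0
  · subst hn
    rw [if_pos rfl, Nat.cast_zero, Real.zero_rpow (by linarith)]
    simp
  · rw [if_neg hn, Complex.ofReal_mul, Complex.ofReal_cpow (Nat.cast_nonneg n), Complex.ofReal_neg,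
      Complex.cpow_neg, div_eq_mul_inv]
    simp

lemma summable_iff (s : ℝ) (hs : 1 < s) :
    Summable (fun I => nz K s hs I) ↔
      Summable (LSeries.term (fun n ↦ (Nat.card {I : Ideal (𝓞 K) // Ideal.absNorm I = n} : ℂ)) (s : ℂ)) := by
  have h1 : LSeries.term (fun n ↦ (Nat.card {I : Ideal (𝓞 K) // Ideal.absNorm I = n} : ℂ)) (s : ℂ) =
      fun n => (((∑' I : {I : Ideal (𝓞 K) // Ideal.absNorm I = n}, nz K s hs I.1 : ℝ)) : ℂ) := by
    funext n
    exact term_eq K s hs n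
  rw [h1, Complex.summable_ofReal]
  let e := Equiv.sigmaFiberEquiv (fun I : Ideal (𝓞 K) => Ideal.absNorm I)
  rw [← e.summable_iff]
  have hnn : ∀ x : (Σ y : ℕ, {I : Ideal (𝓞 K) // Ideal.absNorm I = y}),
      0 ≤ ((fun I => nz K s hs I) ∘ e) x := fun x => nz_nonneg K s hs _
  rw [summable_sigma_of_nonneg hnn]
  constructor
  · rintro ⟨-, h⟩
    exact h
  · intro h
    refine ⟨fun n => ?_, h⟩
    have hfin : Finite {I : Ideal (𝓞 K) // Ideal.absNorm I = n} := by
      by_cases hn : n = 0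
      · subst hn
        have : Subsingleton {I : Ideal (𝓞 K) // Ideal.absNorm I = 0} := by
          refine ⟨fun I J => Subtype.ext ?_⟩
          rw [Ideal.absNorm_eq_zero_iff.mp I.2, Ideal.absNorm_eq_zero_iff.mp J.2]
        infer_instance
      · exact (Ideal.finite_setOf_absNorm_eq n).to_subtype
    exact Summable.of_finite

lemma zr_eq (s : ℝ) (hs : 1 < s) (hsum : Summable (fun I => nz K s hs I)) :
    ((∑' I, nz K s hs I : ℝ) : ℂ) = dedekindZeta K s := by
  rw [dedekindZeta, LSeries]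
  have h1 : LSeries.term (fun n ↦ (Nat.card {I : Ideal (𝓞 K) // Ideal.absNorm I = n} : ℂ)) (s : ℂ) =
      fun n => (((∑' I : {I : Ideal (𝓞 K) // Ideal.absNorm I = n}, nz K s hs I.1 : ℝ)) : ℂ) := by
    funext n
    exact term_eq K s hs n
  rw [h1, ← Complex.ofReal_tsum]
  congr 1
  let e := Equiv.sigmaFiberEquiv (fun I : Ideal (𝓞 K) => Ideal.absNorm I)
  rw [← e.tsum_eq]
  have h2 : Summable (fun c => nz K s hs (e c)) := e.summable_iff.mpr hsum
  rw [h2.tsum_sigma]
  rfl

/-- the behaviour of the zeta function near `1` -/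
theorem zeta_asymp : ∃ κ κ' : ℝ, 0 < κ ∧ 0 < κ' ∧ ∀ᶠ s in 𝓝[>] (1 : ℝ), ∀ hs : 1 < s,
    Summable (fun I => nz K s hs I) ∧ κ / (s - 1) ≤ ∑' I, nz K s hs I ∧
      ∑' I, nz K s hs I ≤ κ' / (s - 1) := by
  have h1 := tendsto_sub_one_mul_dedekindZeta_nhdsGT K
  set r := dedekindZeta_residue K with hr
  have hr0 : 0 < r := dedekindZeta_residue_pos K
  have h2 := h1.norm
  rw [Complex.norm_real, Real.norm_of_nonneg hr0.le] at h2
  refine ⟨r / 2, 2 * r, by positivity, by positivity, ?_⟩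
  have h3 := h2.eventually (Ioo_mem_nhds (show r / 2 < r by linarith) (show r < 2 * r by linarith))
  filter_upwards [h3, self_mem_nhdsWithin] with s hs hs1 hs1'
  have hs0 : 0 < s - 1 := by linarith
  have hnorm : ‖((s : ℂ) - 1) * dedekindZeta K s‖ = (s - 1) * ‖dedekindZeta K s‖ := by
    rw [norm_mul]
    congr 1
    rw [← Complex.ofReal_one, ← Complex.ofReal_sub, Complex.norm_real, Real.norm_of_nonneg hs0.le]
  rw [hnorm] at hs
  have hsum : Summable (fun I => nz K s hs1' I) := by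
    rw [summable_iff]
    by_contra hcon
    have h4 : dedekindZeta K s = 0 := by
      rw [dedekindZeta, LSeries]
      exact tsum_eq_zero_of_not_summable hcon
    rw [h4, norm_zero, mul_zero] at hs
    linarith [hs.1]
  have h5 := zr_eq K s hs1' hsum
  have h6 : ‖dedekindZeta K s‖ = ∑' I, nz K s hs1' I := by
    rw [← h5, Complex.norm_real, Real.norm_of_nonneg]
    exact tsum_nonneg (fun I => nz_nonneg K s hs1' I)
  rw [h6] at hs
  refine ⟨hsum, ?_, ?_⟩
  · rw [div_le_iff₀ hs0]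
    linarith [hs.1, mul_comm (s - 1) (∑' I, nz K s hs1' I)]
  · rw [le_div_iff₀ hs0]
    linarith [hs.2, mul_comm (s - 1) (∑' I, nz K s hs1' I)]

end zeta

end Pool.Agent.Lib.MP_695920_nt.Refl
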