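import Mathlib
import Pool.Agent.Lib.MP_695920_nt.Refl.ClsTools
import Pool.Agent.Lib.MP_695920_nt.Refl.Kummer
import Pool.Agent.Lib.MP_695920_nt.Refl.ZetaK
import Pool.Agent.Lib.MP_695920_nt.IdealSums

set_option autoImplicit false

open Finset NumberField Module IsDedekindDomain
open scoped nonZeroDivisors Pointwise

namespace Pool.Agent.Lib.MP_695920_nt.Refl

open Pool.Agent.Lib.MP_695920_nt.Solv Pool.Agent.Lib.MP_695920_nt.Tow

lemma cube_root_norm {t : ℂ} (ht : t ^ 3 = 1) : ‖t‖ = 1 := by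
  have h1 : ‖t‖ ^ 3 = 1 := by rw [← norm_pow, ht, norm_one]
  exact (pow_eq_one_iff_of_nonneg (norm_nonneg _) (by norm_num)).mp h1

lemma cube_root_re {t : ℂ} (ht : t ^ 3 = 1) : -(1 / 2) ≤ t.re := by
  by_cases h : t = 1
  · rw [h]; norm_num
  · have h1 : t ^ 2 + t + 1 = 0 := by
      have h2 : (t - 1) * (t ^ 2 + t + 1) = 0 := by linear_combination ht
      exact (mul_eq_zero.mp h2).resolve_left (sub_ne_zero.mpr h)
    have h2 : (starRingEnd ℂ) t * t = 1 := by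
      rw [Complex.conj_mul', cube_root_norm ht]; norm_num
    have h3 : t + 1 + (starRingEnd ℂ) t = 0 := by
      linear_combination ((starRingEnd ℂ) t) * h1 - (t + 1) * h2
    have h4 := congrArg Complex.re h3
    simp only [Complex.add_re, Complex.one_re, Complex.conj_re, Complex.zero_re] at h4
    linarith

/-- the local inequality -/
lemma local_ineq {t : ℂ} (ht : t ^ 3 = 1) {x : ℝ} (hx0 : 0 ≤ x) (hx1 : x < 1) :
    ((1 - x)⁻¹) ^ 2 ≤ ‖(1 - t * x)⁻¹‖ ^ 2 * ((1 - x)⁻¹) ^ 3 := by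
  have h1 := cube_root_re ht
  have h2 := cube_root_norm ht
  have h3 : ‖1 - t * x‖ ^ 2 = 1 - 2 * t.re * x + x ^ 2 := by
    rw [← Complex.normSq_eq_norm_sq, Complex.normSq_apply]
    have h4 : t.re * t.re + t.im * t.im = 1 := by
      rw [← Complex.normSq_apply, Complex.normSq_eq_norm_sq, h2]; norm_num
    simp only [Complex.sub_re, Complex.one_re, Complex.mul_re, Complex.ofReal_re,
      Complex.ofReal_im, mul_zero, sub_zero, Complex.sub_im, Complex.one_im, Complex.mul_im,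
      zero_add, zero_sub]
    linear_combination (x ^ 2) * h4
  have h5 : 0 < ‖1 - t * x‖ := by
    rw [norm_pos_iff, sub_ne_zero]
    intro h
    have h6 := congrArg norm h
    rw [norm_one, norm_mul, h2, one_mul, Complex.norm_real, Real.norm_of_nonneg hx0] at h6
    linarith
  have hx : 0 < 1 - x := by linarith
  rw [norm_inv, inv_pow ‖1 - t * (x : ℂ)‖ 2]
  have h6 : 1 ≤ (‖1 - t * x‖ ^ 2)⁻¹ * (1 - x)⁻¹ := by
    rw [← mul_inv]
    apply (one_le_inv₀ (by positivity)).mpr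
    rw [h3]
    nlinarith [pow_nonneg hx0 3, mul_nonneg hx0 hx.le]
  calc ((1 - x)⁻¹) ^ 2 = 1 * ((1 - x)⁻¹) ^ 2 := (one_mul _).symm
    _ ≤ ((‖1 - t * x‖ ^ 2)⁻¹ * (1 - x)⁻¹) * ((1 - x)⁻¹) ^ 2 :=
        mul_le_mul_of_nonneg_right h6 (by positivity)
    _ = _ := by ring

lemma absNorm_mod_three_ne {K : Type} [Field K] [NumberField K] {v : Ideal (𝓞 K)} (hv : v.IsPrime)
    (hv0 : v ≠ ⊥) (h3 : (3 : 𝓞 K) ∉ v) : Ideal.absNorm v % 3 ≠ 0 := by
  intro h
  apply h3
  have h1 : (Ideal.absNorm v : 𝓞 K) ∈ v := Ideal.absNorm_mem v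
  obtain ⟨p, f, hp, hf, -, hpv, hN⟩ := exists_prime_absNorm hv0 hv
  have h4 : 3 ∣ p ^ f := by rw [← hN]; exact Nat.dvd_of_mod_eq_zero h
  have h5 : 3 ∣ p := Nat.prime_three.dvd_of_dvd_pow h4
  have h6 : 3 = p := (Nat.prime_dvd_prime_iff_eq Nat.prime_three hp).mp h5
  rw [← h6] at hpv
  exact_mod_cast hpv

section two

variable {K K' : Type} [Field K] [NumberField K] [Field K'] [NumberField K'] [Algebra K K']

/-- primes of norm `1` modulo `3` split in the extension by the cube roots of unity -/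
lemma two_primes (h2 : finrank K K' = 2) {ω : 𝓞 K'} (hω : ω ^ 2 + ω + 1 = 0)
    (hK : ∀ z : K, z ^ 2 + z + 1 ≠ 0) {v : Ideal (𝓞 K)} (hv : v.IsPrime) (hv0 : v ≠ ⊥)
    (h3 : (3 : 𝓞 K) ∉ v) (hN : Ideal.absNorm v % 3 = 1) :
    ∃ P Q : Ideal (𝓞 K'), P.IsPrime ∧ Q.IsPrime ∧ P ≠ ⊥ ∧ Q ≠ ⊥ ∧ P ≠ Q ∧
      P.under (𝓞 K) = v ∧ Q.under (𝓞 K) = v ∧ Ideal.absNorm P = Ideal.absNorm v ∧
      Ideal.absNorm Q = Ideal.absNorm v := by
  classical
  have hquad : Algebra.IsQuadraticExtension K K' := ⟨h2⟩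
  have hgal : IsGalois K K' := inferInstance
  -- an automorphism moving `ω`
  have hωK' : ((ω : K')) ^ 2 + (ω : K') + 1 = 0 := by
    have := congrArg (fun z : 𝓞 K' => (z : K')) hω
    simpa using this
  have hσ : ∃ σ : Gal(K'/K), σ • ω ≠ ω := by
    by_contra hcon
    push Not at hcon
    have h4 : (ω : K') ∈ (⊥ : IntermediateField K K') := by
      rw [IsGalois.mem_bot_iff_fixed]
      intro σ
      exact congrArg (fun z : 𝓞 K' => (z : K')) (hcon σ)
    obtain ⟨z, hz⟩ := IntermediateField.mem_bot.mp h4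
    apply hK z
    apply (algebraMap K K').injective
    rw [map_add, map_add, map_pow, hz, map_one, map_zero]
    exact hωK'
  obtain ⟨σ, hσ⟩ := hσ
  have hσω : σ • ω = -1 - ω := by
    have h4 : (σ • ω) ^ 2 + σ • ω + 1 = 0 := by
      have := congrArg (fun z : 𝓞 K' => σ • z) hω
      simpa [smul_add, smul_pow', smul_one, smul_zero] using this
    have h5 : (σ • ω - ω) * (σ • ω - (-1 - ω)) = 0 := by
      linear_combination h4 - hω
    exact sub_eq_zero.mp ((mul_eq_zero.mp h5).resolve_left (sub_ne_zero.mpr hσ))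
  -- a root of unity modulo `v`
  have hmax := hv.isMaximal hv0
  have hc : ∃ c : 𝓞 K, c ^ 2 + c + 1 ∈ v := by
    let _ : Field (𝓞 K ⧸ v) := Ideal.Quotient.field v
    have hfin : Finite (𝓞 K ⧸ v) := Ring.HasFiniteQuotients.finiteQuotient hv0
    cases nonempty_fintype (𝓞 K ⧸ v)
    have hcard : Nat.card (𝓞 K ⧸ v)ˣ = Ideal.absNorm v - 1 := by
      rw [Nat.card_units]; rfl
    have h4 : 3 ∣ Nat.card (𝓞 K ⧸ v)ˣ := by rw [hcard]; omega
    obtain ⟨g, hg⟩ := exists_prime_orderOf_dvd_card' 3 h4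
    have hg3 : (g : 𝓞 K ⧸ v) ^ 3 = 1 := by
      rw [← Units.val_pow_eq_pow_val, ← hg, pow_orderOf_eq_one, Units.val_one]
    have hg1 : (g : 𝓞 K ⧸ v) ≠ 1 := by
      intro h
      have : g = 1 := Units.ext h
      rw [this, orderOf_one] at hg
      norm_num at hg
    obtain ⟨c, hc⟩ := Ideal.Quotient.mk_surjective (g : 𝓞 K ⧸ v)
    refine ⟨c, ?_⟩
    rw [← Ideal.Quotient.eq_zero_iff_mem, map_add, map_add, map_pow, hc, map_one]
    have h5 : ((g : 𝓞 K ⧸ v) - 1) * ((g : 𝓞 K ⧸ v) ^ 2 + g + 1) = 0 := by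
      linear_combination hg3
    exact (mul_eq_zero.mp h5).resolve_left (sub_ne_zero.mpr hg1)
  obtain ⟨c, hc⟩ := hc
  obtain ⟨P, hP, hP0, hPv⟩ := exists_over (L := K') hv hv0
  set ι := algebraMap (𝓞 K) (𝓞 K') with hι
  have hιmem : ∀ x : 𝓞 K, x ∈ v → ι x ∈ P := by
    intro x hx
    rw [← hPv] at hx
    exact hx
  have hιnot : ∀ x : 𝓞 K, x ∉ v → ι x ∉ P := by
    intro x hx h
    apply hx
    rw [← hPv]
    exact h
  have h3P : (3 : 𝓞 K') ∉ P := by
    have := hιnot 3 h3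
    rwa [map_ofNat] at this
  -- WLOG `ω ≡ c`
  have hcω : ∃ c : 𝓞 K, c ^ 2 + c + 1 ∈ v ∧ ω - ι c ∈ P := by
    have h5 : (ω - ι c) * (ω - ι (-1 - c)) ∈ P := by
      have h6 : (ω - ι c) * (ω - ι (-1 - c)) = - ι (c ^ 2 + c + 1) := by
        simp only [map_add, map_pow, map_sub, map_neg, map_one]
        linear_combination hω
      rw [h6]
      exact P.neg_mem (hιmem _ hc)
    rcases hP.mem_or_mem h5 with h6 | h6
    · exact ⟨c, hc, h6⟩
    · refine ⟨-1 - c, ?_, h6⟩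
      have : (-1 - c) ^ 2 + (-1 - c) + 1 = c ^ 2 + c + 1 := by ring
      rw [this]
      exact hc
  obtain ⟨c, hc, hcω⟩ := hcω
  have hmoved : σ • P ≠ P := by
    intro h
    have h5 : σ • (ω - ι c) ∈ σ • P := Ideal.smul_mem_pointwise_smul σ _ P hcω
    rw [h, smul_sub, hσω, smul_alg] at h5
    have h6 : -(1 + 2 * ι c) ∈ P := by
      have h7 := P.add_mem hcω h5
      have h8 : ω - ι c + (-1 - ω - ι c) = -(1 + 2 * ι c) := by ring
      rwa [h8] at h7
    have h7 : (1 + 2 * ι c) ∈ P := by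
      rw [← neg_neg (1 + 2 * ι c)]
      exact P.neg_mem h6
    have h8 : (3 : 𝓞 K') = 4 * ι (c ^ 2 + c + 1) - (1 + 2 * ι c) * (1 + 2 * ι c) := by
      simp only [map_add, map_pow, map_one]
      ring
    apply h3P
    rw [h8]
    exact P.sub_mem (P.mul_mem_left _ (hιmem _ hc)) (P.mul_mem_left _ h7)
  have hprime2 : (finrank K K').Prime := by rw [h2]; exact Nat.prime_two
  have hQ : (σ • P).IsPrime := hP.smul σ
  have hQ0 : σ • P ≠ ⊥ := by
    intro h
    apply hP0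
    have h5 : σ⁻¹ • (σ • P) = σ⁻¹ • (⊥ : Ideal (𝓞 K')) := by rw [h]
    rw [inv_smul_smul] at h5
    rw [h5]
    exact Ideal.smul_bot _
  have hQmoved : σ⁻¹ • (σ • P) ≠ σ • P := by
    rw [inv_smul_smul]
    exact fun h => hmoved h.symm
  have hQv : (σ • P).under (𝓞 K) = v := by
    rw [P.under_smul (𝓞 K) σ, hPv]
  have hN1 : Ideal.absNorm P = Ideal.absNorm v := by
    have h5 := relNorm_of_moved hprime2 hP hP0 hmoved
    rw [hPv] at h5
    rw [← h5, Ideal.absNorm_relNorm]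
  have hN2 : Ideal.absNorm (σ • P) = Ideal.absNorm v := by
    have h5 := relNorm_of_moved hprime2 hQ hQ0 hQmoved
    rw [hQv] at h5
    rw [← h5, Ideal.absNorm_relNorm]
  exact ⟨P, σ • P, hP, hQ, hP0, hQ0, fun h => hmoved h.symm, hPv, hQv, hN1, hN2⟩

end two

end Pool.Agent.Lib.MP_695920_nt.Refl
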