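import Mathlib

/-!
Sums over prime ideals.
-/

set_option autoImplicit false

open NumberField IsDedekindDomain

namespace Pool.Agent.Lib.MP_695920_nt.Refl

variable (K : Type) [Field K] [NumberField K]

/-- the sum of `N(P)^(-s)` over the nonzero prime ideals in `A` -/
noncomputable def psum (A : Set (HeightOneSpectrum (𝓞 K))) (s : ℝ) : ℝ :=
  ∑' P : HeightOneSpectrum (𝓞 K), A.indicator (fun P => (Ideal.absNorm P.asIdeal : ℝ) ^ (-s)) P

end Pool.Agent.Lib.MP_695920_nt.Refl
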