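import Mathlib
import Pool.Agent.Lib.MP_695920_nt.Refl.PDefs
import Pool.Agent.Lib.MP_695920_nt.Refl.ZetaK

/-!
The sum of `N(P)^(-s)` over all primes is `-log (s-1) + O(1)`.
-/

set_option autoImplicit false

open Filter Topology NumberField IsDedekindDomain Module
open scoped nonZeroDivisors

namespace Pool.Agent.Lib.MP_695920_nt.Refl

section ps

variable (K : Type) [Field K] [NumberField K]

private lemma ps_two_le (P : HeightOneSpectrum (𝓞 K)) :
    (2 : ℝ) ≤ Ideal.absNorm P.asIdeal := by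
  have h1 : Ideal.absNorm P.asIdeal ≠ 0 := by
    rw [Ne, Ideal.absNorm_eq_zero_iff]
    exact P.ne_bot
  have h2 : Ideal.absNorm P.asIdeal ≠ 1 := by
    rw [Ne, Ideal.absNorm_eq_one_iff]
    exact P.isPrime.ne_top
  have h3 : 2 ≤ Ideal.absNorm P.asIdeal := by omega
  exact_mod_cast h3

private lemma ps_exp_le {x : ℝ} (h0 : 0 ≤ x) (h1 : x ≤ 1 / 2) :
    Real.exp x ≤ (1 - x)⁻¹ ∧ (1 - x)⁻¹ ≤ Real.exp (x + x ^ 2) := by
  have hx : 0 < 1 - x := by linarith
  constructor
  · have h2 := Real.one_sub_le_exp_neg x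
    rw [Real.exp_neg] at h2
    rwa [le_inv_comm₀ (Real.exp_pos _) hx]
  · have h2 := Real.quadratic_le_exp_of_nonneg (show 0 ≤ x + x ^ 2 by positivity)
    rw [inv_le_iff_one_le_mul₀ hx]
    have h3 : 1 ≤ (1 + (x + x ^ 2) + (x + x ^ 2) ^ 2 / 2) * (1 - x) := by
      have h4 : (1 + (x + x ^ 2) + (x + x ^ 2) ^ 2 / 2) * (1 - x) =
          1 + x ^ 2 / 2 * (1 - x - x ^ 2 - x ^ 3) := by ring
      rw [h4]
      have h5 : x ^ 2 ≤ 1 / 4 := by nlinarith
      have h6 : x ^ 3 ≤ 1 / 8 := by nlinarith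
      have h7 : 0 ≤ x ^ 2 / 2 * (1 - x - x ^ 2 - x ^ 3) :=
        mul_nonneg (by positivity) (by linarith)
      linarith
    exact h3.trans (mul_le_mul_of_nonneg_right h2 hx.le)

end ps

theorem summable_prime (K : Type) [Field K] [NumberField K] {s : ℝ} (hs : 1 < s) :
    Summable fun P : HeightOneSpectrum (𝓞 K) => (Ideal.absNorm P.asIdeal : ℝ) ^ (-s) := by
  obtain ⟨κ, κ', -, -, h⟩ := zeta_asymp K
  have h1 : ∀ᶠ t in 𝓝[>] (1 : ℝ), t ∈ Set.Ioo 1 s := Ioo_mem_nhdsGT hs
  obtain ⟨t, ht, ht1⟩ := (h.and h1).exists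
  have hsum := (ht ht1.1).1
  have hinj : Function.Injective fun P : HeightOneSpectrum (𝓞 K) => P.asIdeal :=
    fun P Q h => HeightOneSpectrum.ext h
  refine Summable.of_nonneg_of_le (fun P => by positivity) (fun P => ?_) (hsum.comp_injective hinj)
  rw [Function.comp, nz_apply]
  have h2 := ps_two_le K P
  exact Real.rpow_le_rpow_of_exponent_le (by linarith) (by linarith [ht1.2])

theorem psum_univ (K : Type) [Field K] [NumberField K] :
    ∃ C : ℝ, ∀ᶠ s in 𝓝[>] (1 : ℝ), |psum K Set.univ s + Real.log (s - 1)| ≤ C := by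
  classical
  obtain ⟨κ, κ', hκ, hκ', h⟩ := zeta_asymp K
  set B := ∑' P : HeightOneSpectrum (𝓞 K), (Ideal.absNorm P.asIdeal : ℝ) ^ (-(2 : ℝ)) with hB
  have hB0 : 0 ≤ B := tsum_nonneg fun P => by positivity
  refine ⟨|Real.log κ| + |Real.log κ'| + B, ?_⟩
  filter_upwards [h, self_mem_nhdsWithin] with s h1 hs
  have hs1 : 1 < s := hs
  obtain ⟨hsum, hlow, hup⟩ := h1 hs1
  set Z := ∑' I, nz K s hs1 I with hZ
  have hs0 : 0 < s - 1 := by linarith
  have hZ0 : 0 < Z := lt_of_lt_of_le (by positivity) hlow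
  have hps : psum K Set.univ s = ∑' P : HeightOneSpectrum (𝓞 K),
      (Ideal.absNorm P.asIdeal : ℝ) ^ (-s) := by
    rw [psum]; simp
  have hsp := summable_prime K hs1
  have hsp2 := summable_prime K (show (1 : ℝ) < 2 by norm_num)
  have hx : ∀ P : HeightOneSpectrum (𝓞 K), 0 ≤ (Ideal.absNorm P.asIdeal : ℝ) ^ (-s) ∧
      (Ideal.absNorm P.asIdeal : ℝ) ^ (-s) ≤ 1 / 2 := by
    intro P
    have h2 := ps_two_le K P
    refine ⟨by positivity, ?_⟩
    calc (Ideal.absNorm P.asIdeal : ℝ) ^ (-s) ≤ (Ideal.absNorm P.asIdeal : ℝ) ^ (-(1 : ℝ)) :=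
          Real.rpow_le_rpow_of_exponent_le (by linarith) (by linarith)
      _ = (Ideal.absNorm P.asIdeal : ℝ)⁻¹ := Real.rpow_neg_one _
      _ ≤ 1 / 2 := by
          rw [one_div]
          exact inv_anti₀ (by norm_num) h2
  have hx2 : ∀ P : HeightOneSpectrum (𝓞 K), ((Ideal.absNorm P.asIdeal : ℝ) ^ (-s)) ^ 2 ≤
      (Ideal.absNorm P.asIdeal : ℝ) ^ (-(2 : ℝ)) := by
    intro P
    have h2 := ps_two_le K P
    rw [← Real.rpow_natCast, ← Real.rpow_mul (by linarith)]
    exact Real.rpow_le_rpow_of_exponent_le (by linarith) (by push_cast; linarith)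
  have heul := euler_tendsto (nz K s hs1) (by
    refine hsum.congr fun I => ?_
    rw [Real.norm_of_nonneg (nz_nonneg K s hs1 I)])
  have hlo : Real.exp (psum K Set.univ s) ≤ Z := by
    rw [hps]
    refine le_of_tendsto_of_tendsto ((Real.continuous_exp.tendsto _).comp hsp.hasSum) heul ?_
    refine Eventually.of_forall fun S => ?_
    simp only [Function.comp, Real.exp_sum]
    refine Finset.prod_le_prod (fun _ _ => (Real.exp_pos _).le) fun P _ => ?_
    rw [nz_apply]
    exact (ps_exp_le (hx P).1 (hx P).2).1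
  have hhi : Z ≤ Real.exp (psum K Set.univ s + B) := by
    rw [hps, hB]
    refine le_of_tendsto_of_tendsto heul
      ((Real.continuous_exp.tendsto _).comp (hsp.hasSum.add hsp2.hasSum)) ?_
    refine Eventually.of_forall fun S => ?_
    simp only [Function.comp, ← Finset.sum_add_distrib]
    rw [Real.exp_sum]
    refine Finset.prod_le_prod (fun P _ => ?_) fun P _ => ?_
    · rw [nz_apply]
      exact inv_nonneg.2 (by linarith [(hx P).2])
    · rw [nz_apply]
      refine (ps_exp_le (hx P).1 (hx P).2).2.trans ?_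
      rw [Real.exp_le_exp]
      linarith [hx2 P]
  have h2 : psum K Set.univ s ≤ Real.log Z := by
    rw [← Real.log_exp (psum K Set.univ s)]
    exact Real.log_le_log (Real.exp_pos _) hlo
  have h3 : Real.log Z ≤ psum K Set.univ s + B := by
    rw [← Real.log_exp (psum K Set.univ s + B)]
    exact Real.log_le_log hZ0 hhi
  have h4 : Real.log κ - Real.log (s - 1) ≤ Real.log Z := by
    rw [← Real.log_div hκ.ne' hs0.ne']
    exact Real.log_le_log (by positivity) hlow
  have h5 : Real.log Z ≤ Real.log κ' - Real.log (s - 1) := by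
    rw [← Real.log_div hκ'.ne' hs0.ne']
    exact Real.log_le_log hZ0 hup
  rw [abs_le]
  have h6 := neg_abs_le (Real.log κ)
  have h7 := le_abs_self (Real.log κ')
  have h8 := abs_nonneg (Real.log κ)
  have h9 := abs_nonneg (Real.log κ')
  constructor <;> linarith

end Pool.Agent.Lib.MP_695920_nt.Refl
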