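import Mathlib
import Pool.Agent.Lib.MP_695920_nt.Refl.PSum

/-!
At least half of the primes are inert in a quadratic extension.
-/

set_option autoImplicit false

open Filter Topology NumberField IsDedekindDomain Module
open scoped nonZeroDivisors

namespace Pool.Agent.Lib.MP_695920_nt.Refl

section

variable (K K' : Type) [Field K] [NumberField K] [Field K'] [NumberField K'] [Algebra K K']

/-- the primes which ramify -/
def quadRam : Set (HeightOneSpectrum (𝓞 K)) :=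
  {P | ∃ Q : Ideal (𝓞 K'), Q.IsPrime ∧ P.asIdeal.map (algebraMap (𝓞 K) (𝓞 K')) ≤ Q ^ 2}

lemma quadRam_finite : (quadRam K K').Finite := by
  have h0 : differentIdeal (𝓞 K) (𝓞 K') ≠ 0 := differentIdeal_ne_bot
  have hfin := Ideal.finite_factors h0
  have hfin2 : (Set.range fun Q : {Q : HeightOneSpectrum (𝓞 K') |
      Q.asIdeal ∣ differentIdeal (𝓞 K) (𝓞 K')} =>
      Q.1.asIdeal.under (𝓞 K)).Finite := by
    have := hfin.to_subtype
    exact Set.finite_range _
  refine Set.Finite.of_finite_image (f := fun P => P.asIdeal) (hfin2.subset ?_) ?_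
  · rintro _ ⟨P, ⟨Q, hQ, hPQ⟩, rfl⟩
    have hPmax : P.asIdeal.IsMaximal := P.isMaximal
    have hmap : P.asIdeal.map (algebraMap (𝓞 K) (𝓞 K')) ≠ ⊥ :=
      Ideal.map_ne_bot_of_ne_bot P.ne_bot
    have hQ0 : Q ≠ ⊥ := by
      rintro rfl
      apply hmap
      rw [eq_bot_iff]
      refine hPQ.trans ?_
      rw [← Ideal.zero_eq_bot]
      simp
    have hdvd : Q ∣ differentIdeal (𝓞 K) (𝓞 K') := by
      have h := pow_sub_one_dvd_differentIdeal (𝓞 K) Q 2 P.ne_bot (Ideal.dvd_iff_le.mpr hPQ)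
      simpa using h
    have hle : P.asIdeal ≤ Q.under (𝓞 K) := by
      rw [Ideal.under_def, ← Ideal.map_le_iff_le_comap]
      exact hPQ.trans (Ideal.pow_le_self two_ne_zero)
    have hund : Q.under (𝓞 K) ≠ ⊤ := (inferInstance : (Q.under (𝓞 K)).IsPrime).ne_top
    exact ⟨⟨⟨Q, hQ, hQ0⟩, hdvd⟩, (hPmax.eq_of_le hund hle).symm⟩
  · intro P _ P' _ h
    exact HeightOneSpectrum.ext h

/-- two primes of the same norm above an unramified prime which is not inert -/
lemma quad_split (h2 : finrank K K' = 2) (P : HeightOneSpectrum (𝓞 K))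
    (hI : ¬ (P.asIdeal.map (algebraMap (𝓞 K) (𝓞 K'))).IsPrime) (hR : P ∉ quadRam K K') :
    ∃ Q1 Q2 : HeightOneSpectrum (𝓞 K'), Q1 ≠ Q2 ∧ Q1.asIdeal.under (𝓞 K) = P.asIdeal ∧
      Q2.asIdeal.under (𝓞 K) = P.asIdeal ∧ Ideal.absNorm Q1.asIdeal = Ideal.absNorm P.asIdeal ∧
      Ideal.absNorm Q2.asIdeal = Ideal.absNorm P.asIdeal := by
  classical
  set p := P.asIdeal with hp
  have hpmax : p.IsMaximal := P.isMaximal
  have hpne : p ≠ ⊥ := P.ne_bot
  have hmap : p.map (algebraMap (𝓞 K) (𝓞 K')) ≠ ⊥ := Ideal.map_ne_bot_of_ne_bot hpne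
  obtain ⟨Q1, hQ1max, hQ1over⟩ :=
    Ideal.exists_maximal_ideal_liesOver_of_isIntegral (S := 𝓞 K') p
  have hle1 : p.map (algebraMap (𝓞 K) (𝓞 K')) ≤ Q1 := by
    rw [Ideal.map_le_iff_le_comap]
    exact hQ1over.over.le
  obtain ⟨J, hJ⟩ := Ideal.dvd_iff_le.mpr hle1
  have hJtop : J ≠ ⊤ := by
    intro h
    apply hI
    rw [hJ, h, Ideal.mul_top]
    exact hQ1max.isPrime
  obtain ⟨Q2, hQ2max, hJ2⟩ := Ideal.exists_le_maximal J hJtop
  obtain ⟨J2, hJ2'⟩ := Ideal.dvd_iff_le.mpr hJ2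
  have hne : Q1 ≠ Q2 := by
    rintro rfl
    apply hR
    refine ⟨Q1, hQ1max.isPrime, ?_⟩
    have e : p.map (algebraMap (𝓞 K) (𝓞 K')) = Q1 ^ 2 * J2 := by
      rw [hJ, hJ2']; ring
    rw [← hp, e]
    exact Ideal.mul_le_left
  have hle2 : p.map (algebraMap (𝓞 K) (𝓞 K')) ≤ Q2 := by
    rw [hJ]
    exact (Ideal.mul_le_right (I := Q1) (J := J)).trans hJ2
  have hund2 : Q2.under (𝓞 K) = p := by
    have h1 : p ≤ Q2.under (𝓞 K) := by
      rw [Ideal.under_def, ← Ideal.map_le_iff_le_comap]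
      exact hle2
    have : (Q2.under (𝓞 K)).IsPrime := inferInstance
    exact (hpmax.eq_of_le this.ne_top h1).symm
  have hQ2over : Q2.LiesOver p := ⟨hund2.symm⟩
  have hQ1prime := hQ1max.isPrime
  have hQ2prime := hQ2max.isPrime
  have hb1 : Q1 ≠ ⊥ := fun h => hmap (eq_bot_iff.mpr (h ▸ hle1))
  have hb2 : Q2 ≠ ⊥ := fun h => hmap (eq_bot_iff.mpr (h ▸ hle2))
  have hsum := Ideal.sum_ramification_inertia (𝓞 K') K K' hpne
  rw [h2] at hsum
  have hm1 : Q1 ∈ IsDedekindDomain.primesOverFinset p (𝓞 K') :=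
    (IsDedekindDomain.mem_primesOverFinset_iff hpne _).mpr ⟨hQ1prime, hQ1over⟩
  have hm2 : Q2 ∈ IsDedekindDomain.primesOverFinset p (𝓞 K') :=
    (IsDedekindDomain.mem_primesOverFinset_iff hpne _).mpr ⟨hQ2prime, hQ2over⟩
  have hsub : ({Q1, Q2} : Finset (Ideal (𝓞 K'))) ⊆
      IsDedekindDomain.primesOverFinset p (𝓞 K') := by
    intro Q hQ
    rw [Finset.mem_insert, Finset.mem_singleton] at hQ
    rcases hQ with rfl | rfl
    · exact hm1
    · exact hm2
  have hle := Finset.sum_le_sum_of_subset (f := fun Q =>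
    Ideal.ramificationIdx' p Q * Ideal.inertiaDeg' p Q) hsub
  rw [hsum, Finset.sum_pair hne] at hle
  have e1 : Ideal.ramificationIdx' p Q1 ≠ 0 :=
    Ideal.IsDedekindDomain.ramificationIdx'_ne_zero_of_liesOver Q1 hpne
  have e2 : Ideal.ramificationIdx' p Q2 ≠ 0 :=
    Ideal.IsDedekindDomain.ramificationIdx'_ne_zero_of_liesOver Q2 hpne
  have f1 : Ideal.inertiaDeg' p Q1 ≠ 0 := Ideal.inertiaDeg'_ne_zero p Q1
  have f2 : Ideal.inertiaDeg' p Q2 ≠ 0 := Ideal.inertiaDeg'_ne_zero p Q2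
  have g1 : Ideal.inertiaDeg' p Q1 ≤ Ideal.ramificationIdx' p Q1 * Ideal.inertiaDeg' p Q1 :=
    Nat.le_mul_of_pos_left _ (Nat.pos_of_ne_zero e1)
  have g2 : Ideal.inertiaDeg' p Q2 ≤ Ideal.ramificationIdx' p Q2 * Ideal.inertiaDeg' p Q2 :=
    Nat.le_mul_of_pos_left _ (Nat.pos_of_ne_zero e2)
  have i1 : Ideal.inertiaDeg' p Q1 = 1 := by omega
  have i2 : Ideal.inertiaDeg' p Q2 = 1 := by omega
  have n1 := Ideal.absNorm_eq_pow_inertiaDeg'_of_liesOver Q1 p hpmax.isPrime hpne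
  have n2 := Ideal.absNorm_eq_pow_inertiaDeg'_of_liesOver Q2 p hpmax.isPrime hpne
  rw [i1, pow_one] at n1
  rw [i2, pow_one] at n2
  refine ⟨⟨Q1, hQ1prime, hb1⟩, ⟨Q2, hQ2prime, hb2⟩, ?_, hQ1over.over.symm, hund2, n1, n2⟩
  intro h
  exact hne (congrArg HeightOneSpectrum.asIdeal h)

/-- the split primes contribute twice -/
lemma two_psum_split_le (h2 : finrank K K' = 2) {s : ℝ} (hs : 1 < s)
    (S : Set (HeightOneSpectrum (𝓞 K)))
    (hS : ∀ P ∈ S, ¬ (P.asIdeal.map (algebraMap (𝓞 K) (𝓞 K'))).IsPrime ∧ P ∉ quadRam K K') :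
    2 * psum K S s ≤ psum K' Set.univ s := by
  classical
  choose Q1 Q2 hne hu1 hu2 hn1 hn2 using
    fun (P : HeightOneSpectrum (𝓞 K)) (h : P ∈ S) => quad_split K K' h2 P (hS P h).1 (hS P h).2
  let g : S × Bool → HeightOneSpectrum (𝓞 K') :=
    fun x => if x.2 then Q1 x.1.1 x.1.2 else Q2 x.1.1 x.1.2
  have hgu : ∀ x, (g x).asIdeal.under (𝓞 K) = x.1.1.asIdeal := by
    rintro ⟨⟨P, hP⟩, b⟩
    cases b
    · exact hu2 P hP
    · exact hu1 P hP
  have hinj : Function.Injective g := by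
    rintro ⟨⟨P, hP⟩, b⟩ ⟨⟨P', hP'⟩, b'⟩ h
    have h1 : P = P' := by
      apply HeightOneSpectrum.ext
      have e1 := hgu ⟨⟨P, hP⟩, b⟩
      have e2 := hgu ⟨⟨P', hP'⟩, b'⟩
      rw [h] at e1
      exact e1.symm.trans e2
    subst h1
    have h2 : b = b' := by
      cases b <;> cases b'
      · rfl
      · exact absurd h.symm (hne P hP)
      · exact absurd h (hne P hP)
      · rfl
    rw [h2]
  have hsum' := summable_prime K' hs
  have hsum := summable_prime K hs
  have h1 := tsum_comp_le_tsum_of_inj hsum' (fun Q => by positivity) hinj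
  have h3 : ∀ x : S × Bool, ((fun Q : HeightOneSpectrum (𝓞 K') =>
      (Ideal.absNorm Q.asIdeal : ℝ) ^ (-s)) ∘ g) x =
      (Ideal.absNorm x.1.1.asIdeal : ℝ) ^ (-s) := by
    rintro ⟨⟨P, hP⟩, b⟩
    cases b
    · simp only [Function.comp, g, Bool.false_eq_true, if_false]
      rw [hn2 P hP]
    · simp only [Function.comp, g, if_true]
      rw [hn1 P hP]
  have hsumg : Summable ((fun Q : HeightOneSpectrum (𝓞 K') =>
      (Ideal.absNorm Q.asIdeal : ℝ) ^ (-s)) ∘ g) := hsum'.comp_injective hinj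
  have h4 : ∑' x : S × Bool, ((fun Q : HeightOneSpectrum (𝓞 K') =>
      (Ideal.absNorm Q.asIdeal : ℝ) ^ (-s)) ∘ g) x =
      2 * psum K S s := by
    rw [hsumg.tsum_prod]
    have h5 : ∀ P : S, ∑' b : Bool, ((fun Q : HeightOneSpectrum (𝓞 K') =>
        (Ideal.absNorm Q.asIdeal : ℝ) ^ (-s)) ∘ g) (P, b) =
        2 * (Ideal.absNorm P.1.asIdeal : ℝ) ^ (-s) := by
      intro P
      rw [tsum_fintype, Fintype.sum_bool, h3, h3]
      ring
    rw [tsum_congr h5, tsum_mul_left, psum, ← tsum_subtype]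
  rw [h4] at h1
  refine h1.trans_eq ?_
  rw [psum]
  simp

end

/-- Task S5 (Refl/Quad.lean). At least half of the primes are inert in a quadratic extension. -/
theorem psum_inert (K K' : Type) [Field K] [NumberField K] [Field K'] [NumberField K']
    [Algebra K K'] (h2 : finrank K K' = 2) :
    ∃ C : ℝ, ∀ᶠ s in 𝓝[>] (1 : ℝ), psum K Set.univ s ≤
      2 * psum K {P | (P.asIdeal.map (algebraMap (𝓞 K) (𝓞 K'))).IsPrime} s + C := by
  classical
  obtain ⟨C1, hC1⟩ := psum_univ K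
  obtain ⟨C2, hC2⟩ := psum_univ K'
  set I : Set (HeightOneSpectrum (𝓞 K)) :=
    {P | (P.asIdeal.map (algebraMap (𝓞 K) (𝓞 K'))).IsPrime} with hI
  set R := quadRam K K' with hR
  have hRf : R.Finite := quadRam_finite K K'
  set S : Set (HeightOneSpectrum (𝓞 K)) := {P | P ∉ I ∧ P ∉ R} with hS
  refine ⟨C1 + C2 + 2 * hRf.toFinset.card, ?_⟩
  filter_upwards [hC1, hC2, self_mem_nhdsWithin] with s h1 h2' hs
  have hs1 : 1 < s := hs
  have hsum := summable_prime K hs1
  have hsplit := two_psum_split_le K K' h2 hs1 S (fun P hP => hP)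
  have hle : psum K Set.univ s ≤ psum K I s + psum K S s + psum K R s := by
    have s1 := hsum.indicator I
    have s2 := hsum.indicator S
    have s3 := hsum.indicator R
    rw [psum, psum, psum, psum, ← s1.tsum_add s2, ← (s1.add s2).tsum_add s3]
    refine Summable.tsum_le_tsum ?_ (hsum.indicator _) ((s1.add s2).add s3)
    intro P
    have hpos : 0 ≤ (Ideal.absNorm P.asIdeal : ℝ) ^ (-s) := by positivity
    have hind : ∀ A : Set (HeightOneSpectrum (𝓞 K)),
        0 ≤ A.indicator (fun P => (Ideal.absNorm P.asIdeal : ℝ) ^ (-s)) P := fun A =>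
      Set.indicator_nonneg (fun P _ => by positivity) P
    rw [Set.indicator_univ]
    by_cases hPI : P ∈ I
    · rw [Set.indicator_of_mem hPI]
      linarith [hind S, hind R]
    · by_cases hPR : P ∈ R
      · rw [Set.indicator_of_mem hPR]
        linarith [hind S, hind I]
      · rw [Set.indicator_of_mem (s := S) ⟨hPI, hPR⟩]
        linarith [hind R, hind I]
  have hRle : psum K R s ≤ hRf.toFinset.card := by
    rw [psum, ← tsum_subtype]
    have hf := hRf.fintype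
    rw [tsum_fintype]
    have hone : ∀ P : R, (Ideal.absNorm P.1.asIdeal : ℝ) ^ (-s) ≤ 1 := by
      intro P
      have h3 : (1 : ℝ) ≤ Ideal.absNorm P.1.asIdeal := by
        have h4 : Ideal.absNorm P.1.asIdeal ≠ 0 := by
          rw [Ne, Ideal.absNorm_eq_zero_iff]
          exact P.1.ne_bot
        exact_mod_cast Nat.one_le_iff_ne_zero.mpr h4
      exact Real.rpow_le_one_of_one_le_of_nonpos h3 (by linarith)
    refine (Finset.sum_le_sum fun P _ => hone P).trans_eq ?_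
    rw [Finset.sum_const, nsmul_eq_mul, mul_one]
    congr 1
    rw [Finset.card_univ, Set.Finite.card_toFinset]
  have a1 := (abs_le.mp h1).2
  have a2 := (abs_le.mp h1).1
  have a3 := (abs_le.mp h2').2
  linarith

end Pool.Agent.Lib.MP_695920_nt.Refl
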