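import Pool.Agent.Lib.MP_695920_nt.Refl.CZ5

/-!
The partial zeta functions of two ideal classes differ by a bounded amount near `1` (task R4).
-/

set_option autoImplicit false

open Finset NumberField Module IsDedekindDomain
open scoped nonZeroDivisors

namespace Pool.Agent.Lib.MP_695920_nt.Refl

open scoped ENNReal

theorem cz_real_alg {β δ s : ℝ} (hβ : 1 ≤ β) (hδ : 1 ≤ δ) (hs : 1 < s) :
    β ^ s * (δ * (β * δ) ^ (-s)) ≤ 1 := by
  have hβ0 : 0 < β := by linarith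
  have hδ0 : 0 < δ := by linarith
  rw [Real.mul_rpow hβ0.le hδ0.le]
  have h1 : β ^ s * (δ * (β ^ (-s) * δ ^ (-s))) = (β ^ s * β ^ (-s)) * (δ ^ (1 : ℝ) * δ ^ (-s)) := by
    rw [Real.rpow_one]; ring
  rw [h1, ← Real.rpow_add hβ0, ← Real.rpow_add hδ0, add_neg_cancel, Real.rpow_zero, one_mul]
  exact Real.rpow_le_one_of_one_le_of_nonpos hδ (by linarith)

theorem cz_Z_le {K : Type*} [Field K] [NumberField K] (c c' : ClassGroup (𝓞 K)) :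
    ∃ C : ℝ≥0∞, C ≠ ∞ ∧ ∀ s : ℝ, 1 < s → s ≤ 2 → czZ K c s ≤ czZ K c' s + C := by
  obtain ⟨b, hb⟩ := ClassGroup.mk0_surjective (c⁻¹)
  obtain ⟨d, hd⟩ := ClassGroup.mk0_surjective (c * c'⁻¹)
  have hb' : ClassGroup.mk0 (b * d) = c'⁻¹ := by
    rw [map_mul, hb, hd, inv_mul_cancel_left]
  have hle : ((b * d : (Ideal (𝓞 K))⁰) : Ideal (𝓞 K)) ≤ (b : Ideal (𝓞 K)) := by
    have h1 : ((b * d : (Ideal (𝓞 K))⁰) : Ideal (𝓞 K)) = (b : Ideal (𝓞 K)) * (d : Ideal (𝓞 K)) :=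
      rfl
    rw [h1]
    exact Ideal.mul_le_left (I := (b : Ideal (𝓞 K))) (J := (d : Ideal (𝓞 K)))
  obtain ⟨Γ, hΓ, hmain⟩ := cz_S_le hle (nonZeroDivisors.coe_ne_zero (b * d))
  set β : ℕ := Ideal.absNorm (b : Ideal (𝓞 K)) with hβ
  set δ : ℕ := Ideal.absNorm (d : Ideal (𝓞 K)) with hδ
  have hβ0 : β ≠ 0 := by
    rw [hβ, Ne, Ideal.absNorm_eq_zero_iff]; exact nonZeroDivisors.coe_ne_zero b
  have hδ0 : δ ≠ 0 := by
    rw [hδ, Ne, Ideal.absNorm_eq_zero_iff]; exact nonZeroDivisors.coe_ne_zero d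
  have hN : Ideal.absNorm ((b * d : (Ideal (𝓞 K))⁰) : Ideal (𝓞 K)) = β * δ := by
    have h1 : ((b * d : (Ideal (𝓞 K))⁰) : Ideal (𝓞 K)) = (b : Ideal (𝓞 K)) * (d : Ideal (𝓞 K)) :=
      rfl
    rw [h1, map_mul]
  have hm : (Submodule.toAddSubgroup ((b * d : (Ideal (𝓞 K))⁰) : Ideal (𝓞 K))).relIndex
      (Submodule.toAddSubgroup (b : Ideal (𝓞 K))) = δ := by
    have h1 := AddSubgroup.relIndex_mul_index
      (H := Submodule.toAddSubgroup ((b * d : (Ideal (𝓞 K))⁰) : Ideal (𝓞 K)))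
      (K := Submodule.toAddSubgroup (b : Ideal (𝓞 K))) hle
    have h2 : (Submodule.toAddSubgroup (b : Ideal (𝓞 K))).index = β := rfl
    have h3 : (Submodule.toAddSubgroup ((b * d : (Ideal (𝓞 K))⁰) : Ideal (𝓞 K))).index = β * δ :=
      hN
    rw [h2, h3, mul_comm β δ] at h1
    exact Nat.eq_of_mul_eq_mul_right (Nat.pos_of_ne_zero hβ0) h1
  rw [hm] at hmain
  have hβ1 : (1 : ℝ) ≤ β := by exact_mod_cast Nat.one_le_iff_ne_zero.2 hβ0
  have hδ1 : (1 : ℝ) ≤ δ := by exact_mod_cast Nat.one_le_iff_ne_zero.2 hδ0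
  set w : ℝ≥0∞ := (Units.torsionOrder K : ℝ≥0∞) with hw
  have hw0 : w ≠ 0 := by
    rw [hw, Nat.cast_ne_zero]; exact Units.torsionOrder_ne_zero K
  have hwt : w ≠ ∞ := ENNReal.natCast_ne_top _
  have hw1 : 1 ≤ w := by
    rw [hw]
    exact_mod_cast Nat.one_le_iff_ne_zero.2 (Units.torsionOrder_ne_zero K)
  refine ⟨ENNReal.ofReal ((β : ℝ) ^ 2) * ((δ : ℝ≥0∞) * Γ), ?_, ?_⟩
  · exact ENNReal.mul_ne_top ENNReal.ofReal_ne_top
      (ENNReal.mul_ne_top (ENNReal.natCast_ne_top _) hΓ)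
  intro s hs1 hs2
  have h1 := hmain s hs1 hs2
  rw [cz_S_eq hb hs1, cz_S_eq hb' hs1, hN, ← hβ, ← hw] at h1
  have h2 := mul_le_mul_right h1 (ENNReal.ofReal ((β : ℝ) ^ s))
  have hβs : ENNReal.ofReal ((β : ℝ) ^ s) * ENNReal.ofReal ((β : ℝ) ^ (-s)) = 1 := by
    rw [← ENNReal.ofReal_mul (by positivity), ← Real.rpow_add (by linarith), add_neg_cancel,
      Real.rpow_zero, ENNReal.ofReal_one]
  have h3 : ENNReal.ofReal ((β : ℝ) ^ s) * (w * (ENNReal.ofReal ((β : ℝ) ^ (-s)) * czZ K c s)) =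
      w * czZ K c s := by
    calc _ = w * ((ENNReal.ofReal ((β : ℝ) ^ s) * ENNReal.ofReal ((β : ℝ) ^ (-s))) *
          czZ K c s) := by ring
      _ = w * czZ K c s := by rw [hβs, one_mul]
  rw [h3] at h2
  have h4 : ENNReal.ofReal ((β : ℝ) ^ s) * ((δ : ℝ≥0∞) *
      (w * (ENNReal.ofReal (((β * δ : ℕ) : ℝ) ^ (-s)) * czZ K c' s) + Γ)) ≤
      w * (czZ K c' s + ENNReal.ofReal ((β : ℝ) ^ 2) * ((δ : ℝ≥0∞) * Γ)) := by
    have h5 : ENNReal.ofReal ((β : ℝ) ^ s) * ((δ : ℝ≥0∞) *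
        ENNReal.ofReal (((β * δ : ℕ) : ℝ) ^ (-s))) ≤ 1 := by
      rw [← ENNReal.ofReal_natCast δ, ← ENNReal.ofReal_mul (by positivity),
        ← ENNReal.ofReal_mul (by positivity), ← ENNReal.ofReal_one, Nat.cast_mul]
      exact ENNReal.ofReal_le_ofReal (cz_real_alg hβ1 hδ1 hs1)
    have h6 : ENNReal.ofReal ((β : ℝ) ^ s) ≤ ENNReal.ofReal ((β : ℝ) ^ 2) := by
      apply ENNReal.ofReal_le_ofReal
      rw [← Real.rpow_two]
      exact Real.rpow_le_rpow_of_exponent_le hβ1 hs2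
    calc ENNReal.ofReal ((β : ℝ) ^ s) * ((δ : ℝ≥0∞) *
          (w * (ENNReal.ofReal (((β * δ : ℕ) : ℝ) ^ (-s)) * czZ K c' s) + Γ))
        = w * ((ENNReal.ofReal ((β : ℝ) ^ s) * ((δ : ℝ≥0∞) *
            ENNReal.ofReal (((β * δ : ℕ) : ℝ) ^ (-s)))) * czZ K c' s) +
            ENNReal.ofReal ((β : ℝ) ^ s) * ((δ : ℝ≥0∞) * Γ) := by ring
      _ ≤ w * (1 * czZ K c' s) + 1 * (ENNReal.ofReal ((β : ℝ) ^ 2) * ((δ : ℝ≥0∞) * Γ)) := by
          rw [one_mul (ENNReal.ofReal ((β : ℝ) ^ 2) * ((δ : ℝ≥0∞) * Γ))]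
          gcongr
      _ ≤ w * (1 * czZ K c' s) + w * (ENNReal.ofReal ((β : ℝ) ^ 2) * ((δ : ℝ≥0∞) * Γ)) := by
          gcongr
      _ = w * (czZ K c' s + ENNReal.ofReal ((β : ℝ) ^ 2) * ((δ : ℝ≥0∞) * Γ)) := by ring
  exact (ENNReal.mul_le_mul_iff_right hw0 hwt).1 (h2.trans h4)

theorem cz_toReal {A B C₁ C₂ : ℝ≥0∞} (h1 : A ≤ B + C₁) (h2 : B ≤ A + C₂) (hC1 : C₁ ≠ ∞)
    (hC2 : C₂ ≠ ∞) : |A.toReal - B.toReal| ≤ C₁.toReal + C₂.toReal := by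
  by_cases hA : A = ∞
  · have hB : B = ∞ := by
      by_contra hB
      rw [hA, top_le_iff] at h1
      exact ENNReal.add_ne_top.2 ⟨hB, hC1⟩ h1
    rw [hA, hB, sub_self, abs_zero]
    positivity
  · have hB : B ≠ ∞ := ne_top_of_le_ne_top (ENNReal.add_ne_top.2 ⟨hA, hC2⟩) h2
    have h3 := ENNReal.toReal_mono (ENNReal.add_ne_top.2 ⟨hB, hC1⟩) h1
    have h4 := ENNReal.toReal_mono (ENNReal.add_ne_top.2 ⟨hA, hC2⟩) h2
    rw [ENNReal.toReal_add hB hC1] at h3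
    rw [ENNReal.toReal_add hA hC2] at h4
    have h5 : 0 ≤ C₁.toReal := ENNReal.toReal_nonneg
    have h6 : 0 ≤ C₂.toReal := ENNReal.toReal_nonneg
    rw [abs_le]
    constructor <;> linarith

theorem cz_Z_toReal {K : Type*} [Field K] [NumberField K] (c : ClassGroup (𝓞 K)) (s : ℝ) :
    (czZ K c s).toReal = ∑' I : {I : (Ideal (𝓞 K))⁰ // ClassGroup.mk0 I = c},
      ((Ideal.absNorm (I.1 : Ideal (𝓞 K)) : ℕ) : ℝ) ^ (-s) := by
  rw [czZ, ENNReal.tsum_toReal_eq fun _ => ENNReal.ofReal_ne_top]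
  refine tsum_congr fun I => ?_
  exact ENNReal.toReal_ofReal (by positivity)

/-! ### R4 (file Refl/ClassZeta.lean) -/

/-- the partial zeta functions of two ideal classes differ by a bounded amount near `1` -/
theorem classZeta_diff (K : Type) [Field K] [NumberField K] :
    ∃ C : ℝ, ∀ s : ℝ, 1 < s → s ≤ 2 → ∀ c c' : ClassGroup (𝓞 K),
      |(∑' I : {I : (Ideal (𝓞 K))⁰ // ClassGroup.mk0 I = c},
          ((Ideal.absNorm (I.1 : Ideal (𝓞 K)) : ℕ) : ℝ) ^ (-s)) -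
        ∑' I : {I : (Ideal (𝓞 K))⁰ // ClassGroup.mk0 I = c'},
          ((Ideal.absNorm (I.1 : Ideal (𝓞 K)) : ℕ) : ℝ) ^ (-s)| ≤ C := by
  classical
  choose C hC hCs using cz_Z_le (K := K)
  refine ⟨∑ c : ClassGroup (𝓞 K), ∑ c' : ClassGroup (𝓞 K),
    ((C c c').toReal + (C c' c).toReal), ?_⟩
  intro s hs1 hs2 c c'
  rw [← cz_Z_toReal, ← cz_Z_toReal]
  refine (cz_toReal (hCs c c' s hs1 hs2) (hCs c' c s hs1 hs2) (hC c c') (hC c' c)).trans ?_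
  have h1 : ∀ a b : ClassGroup (𝓞 K), 0 ≤ (C a b).toReal + (C b a).toReal := fun a b =>
    add_nonneg ENNReal.toReal_nonneg ENNReal.toReal_nonneg
  refine le_trans ?_ (Finset.single_le_sum (f := fun c : ClassGroup (𝓞 K) =>
    ∑ c' : ClassGroup (𝓞 K), ((C c c').toReal + (C c' c).toReal))
    (fun a _ => Finset.sum_nonneg fun b _ => h1 a b) (Finset.mem_univ c))
  exact Finset.single_le_sum (f := fun c' : ClassGroup (𝓞 K) =>
    ((C c c').toReal + (C c' c).toReal)) (fun b _ => h1 c b) (Finset.mem_univ c')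

end Pool.Agent.Lib.MP_695920_nt.Refl
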