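import Mathlib
import Pool.Agent.Lib.MP_695920_nt.Refl.GenA
import Pool.Agent.Lib.MP_695920_nt.Refl.ClassZeta

set_option autoImplicit false

open Finset NumberField Module IsDedekindDomain
open scoped nonZeroDivisors Pointwise

namespace Pool.Agent.Lib.MP_695920_nt.Refl

open Pool.Agent.Lib.MP_695920_nt.Solv Pool.Agent.Lib.MP_695920_nt.Tow

lemma nz_norm_summable {K : Type} [Field K] [NumberField K] {s : ℝ} (hs : 1 < s)
    (hsum : Summable (fun I => nz K s hs I)) : Summable (fun I => ‖nz K s hs I‖) := by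
  have : (fun I => ‖nz K s hs I‖) = fun I => nz K s hs I := by
    funext I
    exact Real.norm_of_nonneg (nz_nonneg K s hs I)
  rw [this]
  exact hsum

lemma nz_lt_one {K : Type} [Field K] [NumberField K] {s : ℝ} (hs : 1 < s)
    (v : HeightOneSpectrum (𝓞 K)) : nz K s hs v.asIdeal ≤ 1 / 2 := by
  have h1 : (2 : ℝ) ≤ (Ideal.absNorm v.asIdeal : ℝ) := by
    have h2 : 1 < Ideal.absNorm v.asIdeal := by
      have h3 := absNorm_pos_of_ne_bot v.ne_bot
      have h4 : Ideal.absNorm v.asIdeal ≠ 1 := by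
        rw [Ne, Ideal.absNorm_eq_one_iff]
        exact v.isPrime.ne_top
      omega
    exact_mod_cast h2
  rw [nz_apply, Real.rpow_neg (by positivity), one_div]
  apply inv_anti₀ (by norm_num)
  calc (2 : ℝ) ≤ (Ideal.absNorm v.asIdeal : ℝ) := h1
    _ = (Ideal.absNorm v.asIdeal : ℝ) ^ (1 : ℝ) := (Real.rpow_one _).symm
    _ ≤ _ := Real.rpow_le_rpow_of_exponent_le (by linarith) hs.le

section two

variable {K K' : Type} [Field K] [NumberField K] [Field K'] [NumberField K'] [Algebra K K']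

open Classical in
lemma w_bound (h2 : finrank K K' = 2) {ω : 𝓞 K'} (hω : ω ^ 2 + ω + 1 = 0)
    (hK : ∀ z : K, z ^ 2 + z + 1 ≠ 0) {s : ℝ} (hs : 1 < s)
    (hsum : Summable (fun I => nz K' s hs I)) (S : Finset (HeightOneSpectrum (𝓞 K)))
    (hS : ∀ v ∈ S, (3 : 𝓞 K) ∉ v.asIdeal ∧ Ideal.absNorm v.asIdeal % 3 = 1) :
    (∏ v ∈ S, (1 - nz K s hs v.asIdeal)⁻¹) ^ 2 ≤ ∑' I, nz K' s hs I := by
  have hex : ∀ v : S, ∃ P Q : HeightOneSpectrum (𝓞 K'), P ≠ Q ∧
      P.asIdeal.under (𝓞 K) = v.1.asIdeal ∧ Q.asIdeal.under (𝓞 K) = v.1.asIdeal ∧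
      Ideal.absNorm P.asIdeal = Ideal.absNorm v.1.asIdeal ∧
      Ideal.absNorm Q.asIdeal = Ideal.absNorm v.1.asIdeal := by
    intro v
    obtain ⟨h3, hN⟩ := hS v.1 v.2
    obtain ⟨P, Q, hP, hQ, hP0, hQ0, hPQ, h4, h5, h6, h7⟩ :=
      two_primes h2 hω hK v.1.isPrime v.1.ne_bot h3 hN
    refine ⟨⟨P, hP, hP0⟩, ⟨Q, hQ, hQ0⟩, ?_, h4, h5, h6, h7⟩
    intro h
    exact hPQ (congrArg HeightOneSpectrum.asIdeal h)
  choose P Q hPQ hPv hQv hPN hQN using hex
  have hPinj : Function.Injective P := by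
    intro a b hab
    apply Subtype.ext
    apply HeightOneSpectrum.ext
    rw [← hPv, ← hPv, hab]
  have hQinj : Function.Injective Q := by
    intro a b hab
    apply Subtype.ext
    apply HeightOneSpectrum.ext
    rw [← hQv, ← hQv, hab]
  set TP := Finset.univ.image P with hTP
  set TQ := Finset.univ.image Q with hTQ
  have hdisj : Disjoint TP TQ := by
    rw [Finset.disjoint_left]
    intro x hx hy
    rw [hTP, Finset.mem_image] at hx
    rw [hTQ, Finset.mem_image] at hy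
    obtain ⟨a, -, rfl⟩ := hx
    obtain ⟨b, -, hb⟩ := hy
    have hab : a = b := by
      apply Subtype.ext
      apply HeightOneSpectrum.ext
      rw [← hPv, ← hQv, hb]
    subst hab
    exact hPQ a hb.symm
  have h1 := euler_fin (nz K' s hs) (nz_norm_summable hs hsum) (TP ∪ TQ)
  rw [Finset.prod_union hdisj, Finset.prod_image (fun _ _ _ _ h => hPinj h),
    Finset.prod_image (fun _ _ _ _ h => hQinj h)] at h1
  have h3 : ∏ v : S, (1 - nz K' s hs (P v).asIdeal)⁻¹ = ∏ v ∈ S, (1 - nz K s hs v.asIdeal)⁻¹ := by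
    rw [← Finset.prod_coe_sort S]
    apply Finset.prod_congr rfl
    intro v _
    rw [nz_apply, nz_apply, hPN]
  have h4 : ∏ v : S, (1 - nz K' s hs (Q v).asIdeal)⁻¹ = ∏ v ∈ S, (1 - nz K s hs v.asIdeal)⁻¹ := by
    rw [← Finset.prod_coe_sort S]
    apply Finset.prod_congr rfl
    intro v _
    rw [nz_apply, nz_apply, hQN]
  rw [h3, h4, ← sq] at h1
  rw [← h1]
  have hle : ∀ I, (MS (TP ∪ TQ)).indicator (nz K' s hs) I ≤ nz K' s hs I := by
    intro I
    apply Set.indicator_le_self' (fun I _ => nz_nonneg K' s hs I)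
  exact Summable.tsum_le_tsum hle (hsum.indicator _) hsum

end two

section lseries

variable {K : Type} [Field K] [NumberField K]

/-- the twisted norm -/
noncomputable def tw (ψ : ClassGroup (𝓞 K) →* ℂˣ) (s : ℝ) (hs : 1 < s) : Ideal (𝓞 K) →*₀ ℂ where
  toFun I := (ψ (cls I) : ℂ) * ((nz K s hs I : ℝ) : ℂ)
  map_zero' := by
    rw [map_zero, Complex.ofReal_zero, mul_zero]
  map_one' := by
    rw [map_one, Ideal.one_eq_top, cls_top, map_one]; simp
  map_mul' I J := by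
    by_cases hI : I = ⊥
    · have hz : nz K s hs (⊥ : Ideal (𝓞 K)) = 0 := map_zero _
      rw [hI, Ideal.bot_mul, hz]; simp
    by_cases hJ : J = ⊥
    · have hz : nz K s hs (⊥ : Ideal (𝓞 K)) = 0 := map_zero _
      rw [hJ, Ideal.mul_bot, hz]; simp
    rw [cls_mul hI hJ, map_mul, map_mul]
    push_cast
    ring

lemma tw_apply (ψ : ClassGroup (𝓞 K) →* ℂˣ) (s : ℝ) (hs : 1 < s) (I : Ideal (𝓞 K)) :
    tw ψ s hs I = (ψ (cls I) : ℂ) * ((nz K s hs I : ℝ) : ℂ) := rfl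

lemma char_norm (ψ : ClassGroup (𝓞 K) →* ℂˣ) (x : ClassGroup (𝓞 K)) : ‖(ψ x : ℂ)‖ = 1 := by
  have h1 : ((ψ x : ℂ)) ^ (Fintype.card (ClassGroup (𝓞 K))) = 1 := by
    rw [← Units.val_pow_eq_pow_val, ← map_pow, pow_card_eq_one, map_one, Units.val_one]
  have h2 : ‖(ψ x : ℂ)‖ ^ (Fintype.card (ClassGroup (𝓞 K))) = 1 := by
    rw [← norm_pow, h1, norm_one]
  exact (pow_eq_one_iff_of_nonneg (norm_nonneg _) Fintype.card_ne_zero).mp h2

lemma tw_norm (ψ : ClassGroup (𝓞 K) →* ℂˣ) (s : ℝ) (hs : 1 < s) (I : Ideal (𝓞 K)) :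
    ‖tw ψ s hs I‖ = nz K s hs I := by
  rw [tw_apply, norm_mul, char_norm, one_mul, Complex.norm_real,
    Real.norm_of_nonneg (nz_nonneg K s hs I)]

variable (K) in
/-- the twisted zeta function is bounded near `1` -/
lemma l_bound : ∃ C : ℝ, ∀ (s : ℝ) (hs : 1 < s), s ≤ 2 → Summable (fun I => nz K s hs I) →
    ∀ ψ : ClassGroup (𝓞 K) →* ℂˣ, ψ ≠ 1 → ‖∑' I, tw ψ s hs I‖ ≤ C := by
  classical
  obtain ⟨C, hC⟩ := classZeta_diff K
  refine ⟨∑ _c : ClassGroup (𝓞 K), C, ?_⟩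
  intro s hs hs2 hsum ψ hψ
  have hsupp : Function.support (tw ψ s hs) ⊆ Set.range (Subtype.val : (Ideal (𝓞 K))⁰ → Ideal (𝓞 K)) := by
    intro I hI
    rw [Subtype.range_coe]
    have : I ≠ ⊥ := by
      rintro rfl
      exact hI (map_zero (tw ψ s hs))
    exact mem_nonZeroDivisors_of_ne_zero this
  rw [← Subtype.val_injective.tsum_eq hsupp]
  have htw : Summable (fun I : (Ideal (𝓞 K))⁰ => tw ψ s hs (I : Ideal (𝓞 K))) := by
    have h1 : Summable (fun I => tw ψ s hs I) := by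
      apply Summable.of_norm
      simp only [tw_norm]
      exact hsum
    exact h1.comp_injective Subtype.val_injective
  let e := Equiv.sigmaFiberEquiv (fun I : (Ideal (𝓞 K))⁰ => ClassGroup.mk0 I)
  rw [← e.tsum_eq]
  have h2 : Summable (fun c => tw ψ s hs ((e c : (Ideal (𝓞 K))⁰) : Ideal (𝓞 K))) :=
    e.summable_iff.mpr htw
  rw [h2.tsum_sigma, tsum_fintype]
  set Z : ClassGroup (𝓞 K) → ℝ := fun c =>
    ∑' I : {I : (Ideal (𝓞 K))⁰ // ClassGroup.mk0 I = c},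
      ((Ideal.absNorm (I.1 : Ideal (𝓞 K)) : ℕ) : ℝ) ^ (-s) with hZ
  have h3 : ∀ c : ClassGroup (𝓞 K), ∑' (I : {I : (Ideal (𝓞 K))⁰ // ClassGroup.mk0 I = c}),
      tw ψ s hs ((e ⟨c, I⟩ : (Ideal (𝓞 K))⁰) : Ideal (𝓞 K)) = (ψ c : ℂ) * (Z c : ℂ) := by
    intro c
    rw [hZ, Complex.ofReal_tsum, ← tsum_mul_left]
    apply tsum_congr
    rintro ⟨I, rfl⟩
    change tw ψ s hs (I : Ideal (𝓞 K)) = _
    rw [tw_apply, cls_coe]
    rfl
  rw [Finset.sum_congr rfl (fun c _ => h3 c)]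
  have h4 : ∑ c : ClassGroup (𝓞 K), (ψ c : ℂ) = 0 := by
    have := sum_hom_units_eq_zero (R := ℂ) ((Units.coeHom ℂ).comp ψ) (by
      intro h
      apply hψ
      ext x
      have := congrArg (fun f : ClassGroup (𝓞 K) →* ℂ => f x) h
      simpa using this)
    simpa using this
  have h5 : ∑ c : ClassGroup (𝓞 K), (ψ c : ℂ) * (Z c : ℂ) =
      ∑ c : ClassGroup (𝓞 K), (ψ c : ℂ) * ((Z c - Z 1 : ℝ) : ℂ) := by
    simp only [Complex.ofReal_sub, mul_sub, Finset.sum_sub_distrib]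
    rw [← Finset.sum_mul, h4, zero_mul, sub_zero]
  rw [h5]
  refine (norm_sum_le _ _).trans (Finset.sum_le_sum fun c _ => ?_)
  rw [norm_mul, char_norm, one_mul, Complex.norm_real, Real.norm_eq_abs]
  exact hC s hs hs2 c 1

end lseries

end Pool.Agent.Lib.MP_695920_nt.Refl
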