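import Mathlib

/-!
The Herbrand quotient of a finitely generated abelian group with an automorphism of order three.
-/

set_option autoImplicit false

open Finset Module

namespace Pool.Agent.Lib.MP_695920_nt.Refl

/-- `D = σ - 1` -/
def DD {M : Type*} [AddCommGroup M] (σ : M →+ M) : M →+ M := σ - AddMonoidHom.id M
/-- `N = 1 + σ + σ²` -/
def NN {M : Type*} [AddCommGroup M] (σ : M →+ M) : M →+ M := AddMonoidHom.id M + σ + σ.comp σ

/-- the property: `[X : 3 X] = 3 ^ rank X * |X[3]|` -/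
def r1_P (X : Type*) [AddCommGroup X] : Prop :=
  (nsmulAddMonoidHom (α := X) 3).range.index =
    3 ^ finrank ℤ X * Nat.card (nsmulAddMonoidHom (α := X) 3).ker ∧
  Nat.card (nsmulAddMonoidHom (α := X) 3).ker ≠ 0

theorem r1_P_congr {X Y : Type*} [AddCommGroup X] [AddCommGroup Y] (e : X ≃+ Y)
    (h : r1_P Y) : r1_P X := by
  have h1 : (nsmulAddMonoidHom (α := X) 3).range =
      AddSubgroup.comap (e : X →+ Y) (nsmulAddMonoidHom (α := Y) 3).range := by
    ext x
    simp only [AddMonoidHom.mem_range, AddSubgroup.mem_comap, nsmulAddMonoidHom_apply]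
    constructor
    · rintro ⟨y, rfl⟩
      exact ⟨e y, by simp⟩
    · rintro ⟨y, hy⟩
      refine ⟨e.symm y, e.injective ?_⟩
      simpa using hy
  have h2 : Nat.card (nsmulAddMonoidHom (α := X) 3).ker =
      Nat.card (nsmulAddMonoidHom (α := Y) 3).ker := by
    refine Nat.card_congr (e.toEquiv.subtypeEquiv fun x => ?_)
    simp only [AddMonoidHom.mem_ker, nsmulAddMonoidHom_apply]
    constructor
    · intro hx
      have := congrArg e hx
      simpa using this
    · intro hx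
      apply e.injective
      simpa using hx
  have h3 : finrank ℤ X = finrank ℤ Y := e.toIntLinearEquiv.finrank_eq
  unfold r1_P
  rw [h1, AddSubgroup.index_comap_of_surjective _ (f := (e : X →+ Y)) e.surjective, h2, h3]
  exact h

theorem r1_P_prod {X T : Type*} [AddCommGroup X] [Free ℤ X] [Module.Finite ℤ X]
    [AddCommGroup T] [Finite T] : r1_P (X × T) := by
  have h1 : (nsmulAddMonoidHom (α := X × T) 3).range =
      (nsmulAddMonoidHom (α := X) 3).range.prod (nsmulAddMonoidHom (α := T) 3).range := by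
    ext ⟨x, t⟩
    simp only [AddMonoidHom.mem_range, AddSubgroup.mem_prod, nsmulAddMonoidHom_apply]
    constructor
    · rintro ⟨⟨y, s⟩, h⟩
      rw [Prod.smul_mk, Prod.mk.injEq] at h
      exact ⟨⟨y, h.1⟩, ⟨s, h.2⟩⟩
    · rintro ⟨⟨y, hy⟩, ⟨s, hs⟩⟩
      exact ⟨(y, s), by rw [Prod.smul_mk, hy, hs]⟩
  have h2 : Nat.card (nsmulAddMonoidHom (α := X × T) 3).ker =
      Nat.card (nsmulAddMonoidHom (α := T) 3).ker := by
    refine Nat.card_congr ⟨fun z => ⟨z.1.2, ?_⟩, fun z => ⟨(0, z.1), ?_⟩, ?_, ?_⟩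
    · have := z.2
      rw [AddMonoidHom.mem_ker, nsmulAddMonoidHom_apply] at this ⊢
      exact congrArg Prod.snd this
    · have := z.2
      rw [AddMonoidHom.mem_ker, nsmulAddMonoidHom_apply] at this ⊢
      rw [Prod.smul_mk, this, smul_zero]
      rfl
    · rintro ⟨⟨x, t⟩, hz⟩
      rw [AddMonoidHom.mem_ker, nsmulAddMonoidHom_apply] at hz
      have hx : 3 • x = 0 := congrArg Prod.fst hz
      have hx0 : x = 0 := by
        have := AddSubgroup.nsmulAddMonoidHom_injective_of_isTorsionFree (M := X)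
          (n := 3) (by norm_num)
        apply this
        simpa using hx
      simp [hx0]
    · rintro ⟨t, ht⟩
      rfl
  have h3 : (nsmulAddMonoidHom (α := T) 3).range.index =
      Nat.card (nsmulAddMonoidHom (α := T) 3).ker := by
    have e1 := AddSubgroup.card_mul_index (nsmulAddMonoidHom (α := T) 3).ker
    have e2 := AddSubgroup.card_mul_index (nsmulAddMonoidHom (α := T) 3).range
    rw [AddSubgroup.index_ker, ← e2, mul_comm] at e1
    exact (Nat.eq_of_mul_eq_mul_left Nat.card_pos e1).symm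
  have h4 : finrank ℤ (X × T) = finrank ℤ X := by
    have e1 : (LinearMap.fst ℤ X T).ker ≤ Submodule.torsion ℤ (X × T) := by
      rintro ⟨x, t⟩ hz
      rw [LinearMap.mem_ker, LinearMap.fst_apply] at hz
      rw [Submodule.mem_torsion_iff]
      have hc : ((Nat.card T : ℕ) : ℤ) ≠ 0 := by exact_mod_cast Nat.card_pos.ne'
      refine ⟨⟨(Nat.card T : ℤ), mem_nonZeroDivisors_of_ne_zero hc⟩, ?_⟩
      have h5 : Nat.card T • t = 0 := card_nsmul_eq_zero'
      change (Nat.card T : ℤ) • ((x, t) : X × T) = 0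
      have h6 : x = 0 := hz
      rw [Prod.smul_mk, natCast_zsmul, natCast_zsmul, h5, h6, smul_zero]
      rfl
    have e2 := finrank_quotient_eq_of_le_torsion e1
    rw [← e2]
    exact (LinearMap.quotKerEquivOfSurjective (LinearMap.fst ℤ X T)
      LinearMap.fst_surjective).finrank_eq
  unfold r1_P
  rw [h1, h2, AddSubgroup.index_prod, h3, AddSubgroup.index_range_nsmul, h4]
  exact ⟨rfl, Nat.card_pos.ne'⟩

theorem r1_P_of_fg (X : Type*) [AddCommGroup X] [Module.Finite ℤ X] : r1_P X := by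
  have : AddGroup.FG X := Module.Finite.iff_addGroup_fg.1 inferInstance
  obtain ⟨n, ι, _, p, hp, e, ⟨E⟩⟩ := AddCommGroup.equiv_free_prod_directSum_zmod X
  classical
  have h1 : ∀ i, NeZero (p i ^ e i) := fun i => ⟨pow_ne_zero _ (hp i).ne_zero⟩
  have h2 : Finite (DirectSum ι fun i => ZMod (p i ^ e i)) :=
    Finite.of_equiv _ (DirectSum.addEquivProd (fun i => ZMod (p i ^ e i))).symm.toEquiv
  exact r1_P_congr E r1_P_prod

theorem r1_sq {X : Type*} [AddCommGroup X] (φ : X →+ X) :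
    (φ.comp φ).range.index * (Nat.card φ.ker) ^ 2 =
      Nat.card (φ.comp φ).ker * φ.range.index ^ 2 ∧
    (Nat.card (φ.comp φ).ker ≠ 0 → Nat.card φ.ker ≠ 0) := by
  have e1 : φ.range.relIndex φ.ker * (φ.range ⊔ φ.ker).index = φ.range.index := by
    rw [← AddSubgroup.relIndex_mul_index (le_sup_left : φ.range ≤ φ.range ⊔ φ.ker),
      AddSubgroup.relIndex_sup_left]
  have e2 : (φ.range ⊔ φ.ker).index * φ.range.index = (φ.comp φ).range.index := by
    have h1 : (φ.comp φ).range ≤ φ.range := by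
      rintro _ ⟨x, rfl⟩
      exact ⟨φ x, rfl⟩
    have h2 := AddSubgroup.relIndex_map_map φ φ.range ⊤
    rw [top_sup_eq, AddSubgroup.relIndex_top_right] at h2
    rw [← AddSubgroup.relIndex_mul_index h1, ← h2]
    congr 2
    · ext x
      simp only [AddMonoidHom.mem_range, AddSubgroup.mem_map, AddMonoidHom.comp_apply]
      constructor
      · rintro ⟨y, ⟨z, rfl⟩, rfl⟩
        exact ⟨z, rfl⟩
      · rintro ⟨z, rfl⟩
        exact ⟨φ z, ⟨z, rfl⟩, rfl⟩
    · exact (AddMonoidHom.range_eq_map φ).symm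
  have e3 : Nat.card φ.ker * Nat.card (φ.range ⊓ φ.ker : AddSubgroup X) =
      Nat.card (φ.comp φ).ker := by
    have h1 : φ.ker ≤ (φ.comp φ).ker := by
      intro x hx
      rw [AddMonoidHom.mem_ker] at hx ⊢
      rw [AddMonoidHom.comp_apply, hx, map_zero]
    have h2 : (φ.comp φ).ker = AddSubgroup.comap φ φ.ker := by
      ext x
      rfl
    have h3 := AddSubgroup.relIndex_mul_relIndex ⊥ φ.ker (φ.comp φ).ker bot_le h1
    rw [AddSubgroup.relIndex_bot_left, AddSubgroup.relIndex_bot_left, AddSubgroup.relIndex_ker]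
      at h3
    rw [← h3]
    congr 2
    rw [h2, AddSubgroup.map_comap_eq]
  have e4 : Nat.card (φ.range ⊓ φ.ker : AddSubgroup X) * φ.range.relIndex φ.ker =
      Nat.card φ.ker := by
    have h3 := AddSubgroup.relIndex_mul_relIndex ⊥ (φ.range ⊓ φ.ker) φ.ker bot_le inf_le_right
    rw [AddSubgroup.relIndex_bot_left, AddSubgroup.relIndex_bot_left,
      AddSubgroup.inf_relIndex_right] at h3
    exact h3
  constructor
  · rw [← e2, ← e3, pow_two, pow_two]
    nth_rewrite 2 [← e4]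
    nth_rewrite 2 [← e1]
    ring
  · intro h h0
    apply h
    rw [← e3, h0, zero_mul]

theorem herbrand_three {M : Type*} [AddCommGroup M] [Module.Finite ℤ M] (σ : M →+ M)
    (hσ : ∀ x, σ (σ (σ x)) = x) :
    ((NN σ).range.relIndex (DD σ).ker) ^ 2 * 3 ^ (finrank ℤ (NN σ).ker) =
      ((DD σ).range.relIndex (NN σ).ker) ^ 2 * 3 ^ (2 * finrank ℤ (DD σ).ker) ∧
    (NN σ).range.relIndex (DD σ).ker ≠ 0 ∧ (DD σ).range.relIndex (NN σ).ker ≠ 0 := by
  have hD : ∀ x, DD σ x = σ x - x := fun x => rfl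
  have hN : ∀ x, NN σ x = x + σ x + σ (σ x) := fun x => rfl
  have hND : ∀ x, NN σ (DD σ x) = 0 := by
    intro x
    rw [hN, hD, map_sub, map_sub, hσ]
    abel
  have hDN : ∀ x, DD σ (NN σ x) = 0 := by
    intro x
    rw [hN, hD, map_add, map_add, hσ]
    abel
  have hDDN : ∀ x, NN σ x = 0 → NN σ (σ x) = 0 := by
    intro x hx
    have h1 : NN σ (σ x) = σ (NN σ x) := by
      rw [hN, hN, map_add, map_add]
    rw [h1, hx, map_zero]
  have hinj : ∀ x, σ x = 0 → x = 0 := by
    intro x hx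
    rw [← hσ x, hx, map_zero, map_zero]
  have hfin : ∀ A : AddSubgroup M, Module.Finite ℤ A := by
    intro A
    have : Module.Finite ℤ A.toIntSubmodule := inferInstance
    exact this
  -- the restriction of D to ker N
  set M0 := (NN σ).ker with hM0
  set KD := (DD σ).ker with hKD
  have hmem0 : ∀ x : M0, NN σ x = 0 := fun x => x.2
  let φ : M0 →+ M0 := ((DD σ).comp M0.subtype).codRestrict M0 (fun x => hND x)
  have hφ : ∀ x : M0, ((φ x : M0) : M) = σ x - x := fun x => rfl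
  have hφ2 : ∀ x : M0, ((φ (φ x) : M0) : M) = -(3 • σ x) := by
    intro x
    rw [hφ, hφ, map_sub]
    have h1 := hmem0 x
    rw [hN] at h1
    have h2 : σ (σ (x : M)) = -(x : M) - σ x := by
      rw [eq_sub_iff_add_eq, ← sub_eq_zero]
      rw [← h1]
      abel
    rw [h2]
    abel
  have hmem1 : ∀ x : M0, NN σ (-(σ x)) = 0 := by
    intro x
    rw [map_neg, hDDN _ (hmem0 x), neg_zero]
  have hmem2 : ∀ x : M0, NN σ (-(σ (σ x))) = 0 := by
    intro x
    rw [map_neg, hDDN _ (hDDN _ (hmem0 x)), neg_zero]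
  have hr : (φ.comp φ).range = (nsmulAddMonoidHom (α := M0) 3).range := by
    ext x
    simp only [AddMonoidHom.mem_range, AddMonoidHom.comp_apply, nsmulAddMonoidHom_apply]
    constructor
    · rintro ⟨y, rfl⟩
      refine ⟨⟨-(σ y), hmem1 y⟩, ?_⟩
      apply Subtype.ext
      rw [hφ2]
      change 3 • (-(σ (y : M))) = _
      rw [smul_neg]
    · rintro ⟨y, rfl⟩
      refine ⟨⟨-(σ (σ y)), hmem2 y⟩, ?_⟩
      apply Subtype.ext
      rw [hφ2]
      change -(3 • σ (-(σ (σ (y : M))))) = 3 • (y : M)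
      rw [map_neg, hσ, smul_neg, neg_neg]
  have hk : (φ.comp φ).ker = (nsmulAddMonoidHom (α := M0) 3).ker := by
    ext x
    rw [AddMonoidHom.mem_ker, AddMonoidHom.mem_ker, AddMonoidHom.comp_apply,
      nsmulAddMonoidHom_apply, ← Subtype.coe_inj, hφ2, ← Subtype.coe_inj]
    change -(3 • σ (x : M)) = 0 ↔ 3 • (x : M) = 0
    rw [neg_eq_zero, ← map_nsmul]
    constructor
    · exact hinj _
    · intro h
      rw [h, map_zero]
  have hP0 : r1_P M0 := by
    have := hfin M0
    exact r1_P_of_fg M0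
  have hPD : r1_P KD := by
    have := hfin KD
    exact r1_P_of_fg KD
  obtain ⟨sq1, sq2⟩ := r1_sq φ
  rw [hr, hk, hP0.1] at sq1
  rw [hk] at sq2
  have hkne := sq2 hP0.2
  have hsq : 3 ^ finrank ℤ M0 * (Nat.card φ.ker) ^ 2 = φ.range.index ^ 2 := by
    apply Nat.eq_of_mul_eq_mul_left (Nat.pos_of_ne_zero hP0.2)
    rw [← sq1]
    ring
  -- t
  have ht : Nat.card φ.ker = Nat.card (nsmulAddMonoidHom (α := KD) 3).ker := by
    have h3 : ∀ x : M, DD σ x = 0 → NN σ x = 3 • x := by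
      intro x hx
      rw [hD, sub_eq_zero] at hx
      rw [hN, hx, hx]
      abel
    refine Nat.card_congr ⟨fun x => ⟨⟨(x.1 : M), ?_⟩, ?_⟩, fun x => ⟨⟨(x.1 : M), ?_⟩, ?_⟩, ?_, ?_⟩
    · have := x.2
      rw [AddMonoidHom.mem_ker, ← Subtype.coe_inj] at this
      exact this
    · have h1 := x.2
      rw [AddMonoidHom.mem_ker, ← Subtype.coe_inj] at h1
      have h2 : NN σ (x.1 : M) = 0 := hmem0 x.1
      rw [AddMonoidHom.mem_ker, nsmulAddMonoidHom_apply, ← Subtype.coe_inj]
      change 3 • (x.1 : M) = 0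
      have h1' : DD σ (x.1 : M) = 0 := h1
      rw [← h3 _ h1', h2]
    · have h1 := x.2
      rw [AddMonoidHom.mem_ker, nsmulAddMonoidHom_apply, ← Subtype.coe_inj] at h1
      have h2 : DD σ (x.1 : M) = 0 := x.1.2
      change NN σ (x.1 : M) = 0
      rw [h3 _ h2]
      exact h1
    · rw [AddMonoidHom.mem_ker, ← Subtype.coe_inj]
      exact x.1.2
    · intro x
      rfl
    · intro x
      rfl
  -- y
  have hDM : (DD σ).range ≤ M0 := by
    rintro _ ⟨x, rfl⟩
    exact hND x
  have hNM : (NN σ).range ≤ KD := by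
    rintro _ ⟨x, rfl⟩
    exact hDN x
  have c1 : (M0.map (DD σ)).relIndex (DD σ).range = (M0 ⊔ KD).index := by
    have h2 := AddSubgroup.relIndex_map_map (DD σ) M0 ⊤
    rw [top_sup_eq, AddSubgroup.relIndex_top_right, ← AddMonoidHom.range_eq_map] at h2
    exact h2
  have c2 : (KD.map (NN σ)).relIndex (NN σ).range = (M0 ⊔ KD).index := by
    have h2 := AddSubgroup.relIndex_map_map (NN σ) KD ⊤
    rw [top_sup_eq, AddSubgroup.relIndex_top_right, ← AddMonoidHom.range_eq_map] at h2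
    rw [h2, sup_comm]
  have y1 : (M0.map (DD σ)).relIndex M0 = φ.range.index := by
    unfold AddSubgroup.relIndex
    congr 1
    ext x
    rw [AddSubgroup.mem_addSubgroupOf, AddSubgroup.mem_map, AddMonoidHom.mem_range]
    constructor
    · rintro ⟨y, hy, hyx⟩
      exact ⟨⟨y, hy⟩, Subtype.ext hyx⟩
    · rintro ⟨y, hy⟩
      exact ⟨y, y.2, congrArg Subtype.val hy⟩
  have y2 := AddSubgroup.relIndex_mul_relIndex (M0.map (DD σ)) (DD σ).range M0
    (by rintro _ ⟨x, -, rfl⟩; exact ⟨x, rfl⟩) hDM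
  rw [c1, y1] at y2
  have z1 : KD.map (NN σ) = KD.map (nsmulAddMonoidHom 3) := by
    ext x
    rw [AddSubgroup.mem_map, AddSubgroup.mem_map]
    have h3 : ∀ x ∈ KD, NN σ x = nsmulAddMonoidHom 3 x := by
      intro x hx
      have hx' : DD σ x = 0 := hx
      rw [hD, sub_eq_zero] at hx'
      rw [hN, hx', hx', nsmulAddMonoidHom_apply]
      abel
    constructor
    · rintro ⟨y, hy, rfl⟩
      exact ⟨y, hy, (h3 y hy).symm⟩
    · rintro ⟨y, hy, rfl⟩
      exact ⟨y, hy, h3 y hy⟩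
  have z2 := AddSubgroup.relIndex_mul_relIndex (KD.map (NN σ)) (NN σ).range KD
    (by rintro _ ⟨x, -, rfl⟩; exact ⟨x, rfl⟩) hNM
  rw [c2] at z2
  have z3 : (KD.map (NN σ)).relIndex KD =
      3 ^ finrank ℤ KD * Nat.card (nsmulAddMonoidHom (α := KD) 3).ker := by
    rw [z1, ← hPD.1]
    unfold AddSubgroup.relIndex
    rw [AddSubgroup.addSubgroupOf_map_nsmulAddMonoidHom_eq_range]
  rw [z3, ← ht] at z2
  have hcne : (M0 ⊔ KD).index ≠ 0 := by
    intro h
    rw [h, zero_mul] at z2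
    have : 0 < 3 ^ finrank ℤ KD * Nat.card φ.ker := by positivity
    omega
  refine ⟨?_, ?_, ?_⟩
  · apply Nat.eq_of_mul_eq_mul_left (Nat.pos_of_ne_zero (pow_ne_zero 2 hcne))
    calc (M0 ⊔ KD).index ^ 2 * ((NN σ).range.relIndex KD ^ 2 * 3 ^ finrank ℤ M0)
        = ((M0 ⊔ KD).index * (NN σ).range.relIndex KD) ^ 2 * 3 ^ finrank ℤ M0 := by ring
      _ = (3 ^ finrank ℤ KD) ^ 2 * (3 ^ finrank ℤ M0 * (Nat.card φ.ker) ^ 2) := by
          rw [z2]; ring
      _ = (3 ^ finrank ℤ KD) ^ 2 * ((M0 ⊔ KD).index * (DD σ).range.relIndex M0) ^ 2 := by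
          rw [hsq, y2]
      _ = (M0 ⊔ KD).index ^ 2 *
          ((DD σ).range.relIndex M0 ^ 2 * 3 ^ (2 * finrank ℤ KD)) := by ring
  · intro h
    rw [h, mul_zero] at z2
    have : 0 < 3 ^ finrank ℤ KD * Nat.card φ.ker := by positivity
    omega
  · intro h
    rw [h, mul_zero] at y2
    rw [← y2] at hsq
    have : 0 < 3 ^ finrank ℤ M0 * (Nat.card φ.ker) ^ 2 := by positivity
    rw [hsq] at this
    norm_num at this

end Pool.Agent.Lib.MP_695920_nt.Refl
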