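import Mathlib
import Pool.Agent.Lib.MP_695920_nt.Refl.Herb

/-!
The Herbrand quotient of the units for a cyclic cubic extension of a totally complex field.
-/

set_option autoImplicit false

open Finset NumberField Module

namespace Pool.Agent.Lib.MP_695920_nt.Refl

theorem r1b_rank {M : Type*} [AddCommGroup M] [Module.Finite ℤ M] {A B : AddSubgroup M}
    (h : A ≤ B) (hidx : A.relIndex B ≠ 0) : finrank ℤ A = finrank ℤ B := by
  have hfin : Module.Finite ℤ B := by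
    have : Module.Finite ℤ B.toIntSubmodule := inferInstance
    exact this
  have h1 := Submodule.finrank_quotient_add_finrank (R := ℤ) (M := B)
    (AddSubgroup.toIntSubmodule (A.addSubgroupOf B))
  have h2 : Finite (B ⧸ AddSubgroup.toIntSubmodule (A.addSubgroupOf B)) :=
    AddSubgroup.index_ne_zero_iff_finite.1 hidx
  have h3 : finrank ℤ (B ⧸ AddSubgroup.toIntSubmodule (A.addSubgroupOf B)) = 0 := by
    rw [Module.finrank_eq_zero_iff_isTorsion]
    intro x
    have hc : ((Nat.card (B ⧸ AddSubgroup.toIntSubmodule (A.addSubgroupOf B)) : ℕ) : ℤ) ≠ 0 := by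
      exact_mod_cast Nat.card_pos.ne'
    refine ⟨⟨_, mem_nonZeroDivisors_of_ne_zero hc⟩, ?_⟩
    change ((Nat.card (B ⧸ AddSubgroup.toIntSubmodule (A.addSubgroupOf B)) : ℕ) : ℤ) • x = 0
    rw [natCast_zsmul]
    exact card_nsmul_eq_zero'
  have h4 : finrank ℤ (AddSubgroup.toIntSubmodule (A.addSubgroupOf B)) = finrank ℤ A :=
    (AddSubgroup.addSubgroupOfEquivOfLe h).toIntLinearEquiv.finrank_eq
  rw [h3, h4, zero_add] at h1
  exact h1

theorem r1b_ker {M : Type*} [AddCommGroup M] [Module.Finite ℤ M] (f : M →+ M) :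
    finrank ℤ f.range + finrank ℤ f.ker = finrank ℤ M := by
  have h1 := Submodule.finrank_quotient_add_finrank (R := ℤ) (M := M) f.toIntLinearMap.ker
  rw [f.toIntLinearMap.quotKerEquivRange.finrank_eq] at h1
  exact h1

section

variable {E L : Type} [Field E] [NumberField E] [Field L] [NumberField L] [Algebra E L]
  [IsGalois E L]

theorem r1b_card (h3 : finrank E L = 3) : Nat.card Gal(L/E) = 3 := by
  rw [IsGalois.card_aut_eq_finrank, h3]

theorem r1b_cube (h3 : finrank E L = 3) (σ : Gal(L/E)) : σ ^ 3 = 1 := by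
  rw [← r1b_card h3]
  exact pow_card_eq_one'

theorem r1b_gen (h3 : finrank E L = 3) {σ : Gal(L/E)} (hσ : σ ≠ 1) (τ : Gal(L/E)) :
    τ = 1 ∨ τ = σ ∨ τ = σ ^ 2 := by
  have : Fact (Nat.Prime 3) := ⟨Nat.prime_three⟩
  obtain ⟨k, hk⟩ := mem_powers_of_prime_card (r1b_card h3) hσ (g' := τ)
  have h1 : σ ^ (k % 3) = τ := by
    have h2 : σ ^ k = σ ^ (k % 3) := by
      conv_lhs => rw [← Nat.mod_add_div k 3, pow_add, pow_mul, r1b_cube h3, one_pow, mul_one]
    rw [← h2]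
    exact hk
  have h2 : k % 3 < 3 := Nat.mod_lt _ (by norm_num)
  interval_cases h : k % 3
  · left; rw [← h1, pow_zero]
  · right; left; rw [← h1, pow_one]
  · right; right; exact h1.symm

theorem r1b_prod (h3 : finrank E L = 3) {σ : Gal(L/E)} (hσ : σ ≠ 1) (x : L) :
    ∏ τ : Gal(L/E), τ x = x * σ x * σ (σ x) := by
  classical
  have h1 : (Finset.univ : Finset Gal(L/E)) = {1, σ, σ ^ 2} := by
    ext τ
    simp only [Finset.mem_univ, Finset.mem_insert, Finset.mem_singleton, true_iff]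
    exact r1b_gen h3 hσ τ
  have h2 : σ ^ 2 ≠ 1 := by
    intro h
    apply hσ
    have := r1b_cube h3 σ
    rw [pow_succ, h, one_mul] at this
    exact this
  have h4 : σ ≠ σ ^ 2 := by
    intro h
    apply hσ
    rw [pow_two] at h
    exact (mul_eq_left.1 h.symm)
  rw [h1, Finset.prod_insert, Finset.prod_insert, Finset.prod_singleton, mul_assoc]
  · rfl
  · simpa using h4
  · simp only [Finset.mem_insert, Finset.mem_singleton, not_or]
    exact ⟨hσ.symm, h2.symm⟩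

omit [NumberField E] [NumberField L] [IsGalois E L] in
theorem r1b_smul (σ : Gal(L/E)) (u : 𝓞 L) : ((σ • u : 𝓞 L) : L) = σ (u : L) := rfl

theorem r1b_norm (h3 : finrank E L = 3) {σ : Gal(L/E)} (hσ : σ ≠ 1) (u : 𝓞 L) :
    algebraMap (𝓞 E) (𝓞 L) (Algebra.intNorm (𝓞 E) (𝓞 L) u) = u * (σ • u) * (σ • σ • u) := by
  apply FaithfulSMul.algebraMap_injective (𝓞 L) L
  rw [← IsScalarTower.algebraMap_apply, IsScalarTower.algebraMap_apply (𝓞 E) E L,
    Algebra.algebraMap_intNorm (K := E) (L := L), Algebra.norm_eq_prod_automorphisms,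
    r1b_prod h3 hσ, map_mul, map_mul]
  rfl

theorem r1b_fixed (h3 : finrank E L = 3) {σ : Gal(L/E)} (hσ : σ ≠ 1) {u : 𝓞 L}
    (hu : σ • u = u) : ∃ w : 𝓞 E, algebraMap (𝓞 E) (𝓞 L) w = u := by
  have h1 : σ (u : L) = u := by
    rw [← r1b_smul, hu]
  have h2 : (u : L) ∈ Set.range (algebraMap E L) := by
    rw [IsGalois.mem_range_algebraMap_iff_fixed]
    intro τ
    rcases r1b_gen h3 hσ τ with rfl | rfl | rfl
    · rfl
    · exact h1
    · rw [pow_two, AlgEquiv.mul_apply, h1, h1]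
  obtain ⟨e, he⟩ := h2
  have h4 : IsIntegral ℤ e := by
    rw [← isIntegral_algebraMap_iff (FaithfulSMul.algebraMap_injective E L), he]
    exact u.isIntegral_coe
  refine ⟨⟨e, h4⟩, ?_⟩
  apply FaithfulSMul.algebraMap_injective (𝓞 L) L
  rw [← IsScalarTower.algebraMap_apply, IsScalarTower.algebraMap_apply (𝓞 E) E L]
  exact he

theorem r1b_fixed_unit (h3 : finrank E L = 3) {σ : Gal(L/E)} (hσ : σ ≠ 1) {u : (𝓞 L)ˣ}
    (hu : σ • (u : 𝓞 L) = u) :
    u ∈ (Units.map (algebraMap (𝓞 E) (𝓞 L) : 𝓞 E →* 𝓞 L)).range := by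
  have hu' : σ • ((u⁻¹ : (𝓞 L)ˣ) : 𝓞 L) = (u⁻¹ : (𝓞 L)ˣ) := by
    have h1 : (u : 𝓞 L) * (σ • ((u⁻¹ : (𝓞 L)ˣ) : 𝓞 L)) = 1 := by
      calc (u : 𝓞 L) * (σ • ((u⁻¹ : (𝓞 L)ˣ) : 𝓞 L))
          = (σ • (u : 𝓞 L)) * (σ • ((u⁻¹ : (𝓞 L)ˣ) : 𝓞 L)) := by rw [hu]
        _ = σ • ((u : 𝓞 L) * ((u⁻¹ : (𝓞 L)ˣ) : 𝓞 L)) := (smul_mul' _ _ _).symm
        _ = 1 := by rw [Units.mul_inv, smul_one]
    exact (Units.eq_inv_of_mul_eq_one_left h1)
  obtain ⟨w, hw⟩ := r1b_fixed h3 hσ hu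
  obtain ⟨w', hw'⟩ := r1b_fixed h3 hσ hu'
  have hinj : Function.Injective (algebraMap (𝓞 E) (𝓞 L)) :=
    FaithfulSMul.algebraMap_injective _ _
  have h1 : w * w' = 1 := by
    apply hinj
    rw [map_mul, hw, hw', map_one, Units.mul_inv]
  refine ⟨⟨w, w', h1, by rw [mul_comm]; exact h1⟩, ?_⟩
  ext
  rw [Units.coe_map]
  exact congrArg _ hw

end

/-- `H¹` of the units is at least three times as large as `Ĥ⁰`. -/
theorem unit_index {E L : Type} [Field E] [NumberField E] [Field L] [NumberField L] [Algebra E L]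
    [IsGalois E L] (h3 : finrank E L = 3) (hE : IsTotallyComplex E) (σ : Gal(L/E)) (hσ : σ ≠ 1) :
    3 * Nat.card ((𝓞 E)ˣ ⧸ (Units.map (Algebra.intNorm (𝓞 E) (𝓞 L) : 𝓞 L →* 𝓞 E)).range) ≤
      Nat.card ((Units.map (Algebra.intNorm (𝓞 E) (𝓞 L) : 𝓞 L →* 𝓞 E)).ker ⧸
        ((MonoidHom.range (Units.map (MulSemiringAction.toRingHom Gal(L/E) (𝓞 L) σ : 𝓞 L →* 𝓞 L) /
          MonoidHom.id (𝓞 L)ˣ)).subgroupOf
          (Units.map (Algebra.intNorm (𝓞 E) (𝓞 L) : 𝓞 L →* 𝓞 E)).ker)) ∧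
    0 < Nat.card ((𝓞 E)ˣ ⧸ (Units.map (Algebra.intNorm (𝓞 E) (𝓞 L) : 𝓞 L →* 𝓞 E)).range) := by
  set ι : (𝓞 E)ˣ →* (𝓞 L)ˣ := Units.map (algebraMap (𝓞 E) (𝓞 L) : 𝓞 E →* 𝓞 L) with hι
  set Nm : (𝓞 L)ˣ →* (𝓞 E)ˣ := Units.map (Algebra.intNorm (𝓞 E) (𝓞 L) : 𝓞 L →* 𝓞 E) with hNm
  set sg : (𝓞 L)ˣ →* (𝓞 L)ˣ :=
    Units.map (MulSemiringAction.toRingHom Gal(L/E) (𝓞 L) σ : 𝓞 L →* 𝓞 L) with hsg
  have hιinj : Function.Injective ι := by
    apply Units.map_injective
    exact FaithfulSMul.algebraMap_injective (𝓞 E) (𝓞 L)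
  have hsgc : ∀ u : (𝓞 L)ˣ, ((sg u : (𝓞 L)ˣ) : 𝓞 L) = σ • (u : 𝓞 L) := fun u => rfl
  let s : Additive (𝓞 L)ˣ →+ Additive (𝓞 L)ˣ := MonoidHom.toAdditive sg
  have hs3 : ∀ x, s (s (s x)) = x := by
    intro x
    change Additive.ofMul (sg (sg (sg x.toMul))) = x
    have h1 : sg (sg (sg x.toMul)) = x.toMul := by
      ext
      rw [hsgc, hsgc, hsgc, smul_smul, smul_smul]
      have : σ * σ * σ = 1 := by
        have := r1b_cube h3 σ
        rw [← this, pow_succ, pow_two]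
      rw [this, one_smul]
    rw [h1]
    rfl
  have hNN : NN s = MonoidHom.toAdditive (ι.comp Nm) := by
    refine AddMonoidHom.ext fun x => ?_
    have h1 : x.toMul * sg x.toMul * sg (sg x.toMul) = ι (Nm x.toMul) := by
      apply Units.ext
      rw [Units.val_mul, Units.val_mul, hsgc, hsgc]
      exact (r1b_norm h3 hσ _).symm
    change Additive.ofMul (x.toMul * sg x.toMul * sg (sg x.toMul)) = Additive.ofMul (ι (Nm x.toMul))
    rw [h1]
  have hDD : DD s = MonoidHom.toAdditive (sg / MonoidHom.id (𝓞 L)ˣ) := rfl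
  have hDker : (sg / MonoidHom.id (𝓞 L)ˣ).ker = ι.range := by
    ext u
    rw [MonoidHom.mem_ker, MonoidHom.div_apply, MonoidHom.id_apply, div_eq_one]
    constructor
    · intro h
      apply r1b_fixed_unit h3 hσ
      rw [← hsgc, h]
    · rintro ⟨w, rfl⟩
      apply Units.ext
      rw [hsgc]
      change σ • (algebraMap (𝓞 E) (𝓞 L) (w : 𝓞 E)) = algebraMap (𝓞 E) (𝓞 L) (w : 𝓞 E)
      apply FaithfulSMul.algebraMap_injective (𝓞 L) L
      rw [← IsScalarTower.algebraMap_apply (𝓞 E) (𝓞 L) L,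
        IsScalarTower.algebraMap_apply (𝓞 E) E L]
      change σ (algebraMap (𝓞 L) L (algebraMap (𝓞 E) (𝓞 L) (w : 𝓞 E))) = _
      rw [← IsScalarTower.algebraMap_apply (𝓞 E) (𝓞 L) L,
        IsScalarTower.algebraMap_apply (𝓞 E) E L, AlgEquiv.commutes]
  have hNker : (ι.comp Nm).ker = Nm.ker := by
    ext u
    rw [MonoidHom.mem_ker, MonoidHom.mem_ker, MonoidHom.comp_apply, ← map_one ι]
    exact hιinj.eq_iff
  obtain ⟨H1, H2, H3⟩ := herbrand_three s hs3
  have k0 : (NN s).range.relIndex (DD s).ker = Nat.card ((𝓞 E)ˣ ⧸ Nm.range) := by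
    rw [hNN, hDD]
    change (Subgroup.toAddSubgroup (ι.comp Nm).range).relIndex
      (Subgroup.toAddSubgroup (sg / MonoidHom.id (𝓞 L)ˣ).ker) = _
    rw [Subgroup.relIndex_toAddSubgroup, hDker, MonoidHom.range_comp, MonoidHom.range_eq_map ι,
      Subgroup.relIndex_map_map_of_injective _ _ hιinj, Subgroup.relIndex_top_right]
    rfl
  have k1 : (DD s).range.relIndex (NN s).ker =
      Nat.card (Nm.ker ⧸ ((sg / MonoidHom.id (𝓞 L)ˣ).range.subgroupOf Nm.ker)) := by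
    rw [hNN, hDD]
    change (Subgroup.toAddSubgroup (sg / MonoidHom.id (𝓞 L)ˣ).range).relIndex
      (Subgroup.toAddSubgroup (ι.comp Nm).ker) = _
    rw [Subgroup.relIndex_toAddSubgroup, hNker]
    rfl
  rw [← k0, ← k1]
  refine ⟨?_, Nat.pos_of_ne_zero H2⟩
  -- ranks
  have r1 : finrank ℤ (DD s).ker = Units.rank E := by
    rw [← Units.finrank_eq, hDD]
    have e1 : (MonoidHom.toAdditive (sg / MonoidHom.id (𝓞 L)ˣ)).ker =
        (MonoidHom.toAdditive ι).range := by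
      change Subgroup.toAddSubgroup (sg / MonoidHom.id (𝓞 L)ˣ).ker =
        Subgroup.toAddSubgroup ι.range
      rw [hDker]
    rw [e1]
    exact (AddMonoidHom.ofInjective
      (f := MonoidHom.toAdditive ι) hιinj).symm.toIntLinearEquiv.finrank_eq
  have r2 : finrank ℤ (NN s).range = finrank ℤ (DD s).ker := by
    apply r1b_rank _ H2
    rintro _ ⟨x, rfl⟩
    rw [AddMonoidHom.mem_ker]
    change s (x + s x + s (s x)) - (x + s x + s (s x)) = 0
    rw [map_add, map_add, hs3]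
    abel
  have r3 := r1b_ker (NN s)
  rw [r2, r1, Units.finrank_eq] at r3
  have t2 := isTotallyComplex_of_algebra E L
  have q1 := IsTotallyComplex.finrank E
  have q2 := IsTotallyComplex.finrank L
  have q3 := Module.finrank_mul_finrank ℚ E L
  rw [h3] at q3
  have p1 : Units.rank E = InfinitePlace.nrComplexPlaces E - 1 := by
    unfold Units.rank
    rw [InfinitePlace.card_eq_nrRealPlaces_add_nrComplexPlaces,
      IsTotallyComplex.nrRealPlaces_eq_zero, zero_add]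
  have p2 : Units.rank L = InfinitePlace.nrComplexPlaces L - 1 := by
    unfold Units.rank
    rw [InfinitePlace.card_eq_nrRealPlaces_add_nrComplexPlaces,
      IsTotallyComplex.nrRealPlaces_eq_zero, zero_add]
  have p3 : 0 < InfinitePlace.nrComplexPlaces E := by
    have : 0 < finrank ℚ E := finrank_pos
    omega
  have p4 : finrank ℤ (NN s).ker = 2 * finrank ℤ (DD s).ker + 2 := by
    rw [r1]
    omega
  rw [p4, pow_add, ← mul_assoc] at H1
  have H4 : (3 * (NN s).range.relIndex (DD s).ker) ^ 2 = (DD s).range.relIndex (NN s).ker ^ 2 := by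
    apply Nat.eq_of_mul_eq_mul_right (pow_pos (by norm_num : 0 < 3) (2 * finrank ℤ (DD s).ker))
    rw [← H1]
    ring
  exact (Nat.pow_left_injective (n := 2) (by norm_num) H4).le

end Pool.Agent.Lib.MP_695920_nt.Refl
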