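import Mathlib
import Pool.Agent.Lib.MP_695920_nt.Refl.Kummer

set_option autoImplicit false

open Finset NumberField Module IsDedekindDomain
open scoped nonZeroDivisors Pointwise

namespace Pool.Agent.Lib.MP_695920_nt.Refl

open Pool.Agent.Lib.MP_695920_nt.Solv Pool.Agent.Lib.MP_695920_nt.Tow

open Polynomial in
/-- the Kummer extension of a non-cube -/
theorem kummer_exists (E : Type) [Field E] [NumberField E] {ω γ : 𝓞 E} (hω : ω ^ 2 + ω + 1 = 0)
    (hγ : ∀ b : E, b ^ 3 ≠ (γ : E)) :
    ∃ (L : Type) (_ : Field L) (_ : NumberField L) (_ : Algebra E L) (_ : IsGalois E L)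
      (σ : Gal(L/E)) (θ : 𝓞 L), finrank E L = 3 ∧ θ ^ 3 = algebraMap (𝓞 E) (𝓞 L) γ ∧
      σ • θ = algebraMap (𝓞 E) (𝓞 L) ω * θ ∧ σ ≠ 1 := by
  classical
  have hωE : ((ω : E)) ^ 2 + (ω : E) + 1 = 0 := by
    have := congrArg (fun z : 𝓞 E => (z : E)) hω
    simpa using this
  have hω1 : (ω : E) ≠ 1 := by
    intro h
    rw [h] at hωE
    norm_num at hωE
  have hprim : IsPrimitiveRoot (ω : E) 3 := by
    refine IsPrimitiveRoot.mk_of_lt _ (by norm_num) ?_ ?_
    · linear_combination ((ω : E) - 1) * hωE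
    · intro l hl0 hl3 hl
      interval_cases l
      · rw [pow_one] at hl
        exact hω1 hl
      · apply hω1
        have h1 : (ω : E) = -2 := by linear_combination hωE - hl
        rw [h1] at hωE
        norm_num at hωE
  have hne : (primitiveRoots 3 E).Nonempty :=
    ⟨(ω : E), (mem_primitiveRoots (by norm_num)).mpr hprim⟩
  have hirr : Irreducible (X ^ 3 - C (γ : E)) := by
    apply X_pow_sub_C_irreducible_of_odd (by decide)
    intro p hp hp3 b
    have : p = 3 := (Nat.prime_dvd_prime_iff_eq hp Nat.prime_three).mp hp3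
    rw [this]
    exact hγ b
  let L := (X ^ 3 - C (γ : E)).SplittingField
  have hgal : IsGalois E L := isGalois_of_isSplittingField_X_pow_sub_C hne hirr L
  have hfr : finrank E L = 3 := finrank_of_isSplittingField_X_pow_sub_C hne hirr L
  have hchar : CharZero L := charZero_of_injective_algebraMap (algebraMap E L).injective
  have hfd : FiniteDimensional E L := Module.finite_of_finrank_pos (by rw [hfr]; norm_num)
  have hnf : NumberField L := by
    refine { to_charZero := hchar, to_finiteDimensional := ?_ }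
    exact Module.Finite.trans E L
  have hθ0 := rootOfSplitsXPowSubC_pow (n := 3) (γ : E) L
  set θ0 : L := rootOfSplitsXPowSubC (NeZero.pos 3) (γ : E) L with hθ0def
  set σ : Gal(L/E) := (autEquivZmod hirr L hprim).symm (Multiplicative.ofAdd ((1 : ℕ) : ZMod 3)) with hσdef
  have hσθ : σ θ0 = (ω : E) ^ 1 • θ0 := autEquivZmod_symm_apply_natCast hirr L hθ0 hprim 1
  rw [pow_one, Algebra.smul_def] at hσθ
  have hint : IsIntegral (𝓞 E) θ0 := by
    refine ⟨X ^ 3 - C γ, monic_X_pow_sub_C γ (by norm_num), ?_⟩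
    simp only [eval₂_sub, eval₂_pow, eval₂_X, eval₂_C]
    rw [hθ0, IsScalarTower.algebraMap_apply (𝓞 E) E L]
    simp
  have hint2 : IsIntegral ℤ θ0 := isIntegral_trans (R := ℤ) (A := 𝓞 E) θ0 hint
  let θ : 𝓞 L := ⟨θ0, hint2⟩
  have hθc : ((θ : 𝓞 L) : L) = θ0 := rfl
  refine ⟨L, inferInstance, hnf, inferInstance, hgal, σ, θ, hfr, ?_, ?_, ?_⟩
  · apply FaithfulSMul.algebraMap_injective (𝓞 L) L
    rw [map_pow]
    change θ0 ^ 3 = _
    rw [hθ0]
    rfl
  · apply FaithfulSMul.algebraMap_injective (𝓞 L) L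
    rw [map_mul]
    change σ θ0 = algebraMap E L (ω : E) * θ0
    exact hσθ
  · intro h1
    rw [h1] at hσθ
    have hθne : θ0 ≠ 0 := by
      intro h0
      rw [h0, zero_pow (by norm_num)] at hθ0
      have : (γ : E) = 0 := (algebraMap E L).injective (by rw [← hθ0, map_zero])
      exact hγ 0 (by rw [this, zero_pow (by norm_num)])
    have h2 : algebraMap E L (ω : E) = 1 := by
      have h3 : (1 : L) * θ0 = algebraMap E L (ω : E) * θ0 := by
        rw [one_mul]; exact hσθ
      exact (mul_right_cancel₀ hθne h3).symm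
    exact hω1 ((algebraMap E L).injective (by rw [h2, map_one]))

end Pool.Agent.Lib.MP_695920_nt.Refl
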