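import Mathlib
import Pool.Agent.Lib.MP_695920_nt.Refl.KummerEx
import Pool.Agent.Lib.MP_695920_nt.Refl.UnitIdx
import Pool.Agent.Lib.MP_695920_nt.Solv.Key

set_option autoImplicit false

open Finset NumberField Module IsDedekindDomain
open scoped nonZeroDivisors Pointwise

namespace Pool.Agent.Lib.MP_695920_nt.Refl

open Pool.Agent.Lib.MP_695920_nt.Solv Pool.Agent.Lib.MP_695920_nt.Tow

lemma totallyComplex_of_omega {E : Type} [Field E] [NumberField E] {ω : 𝓞 E}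
    (hω : ω ^ 2 + ω + 1 = 0) : IsTotallyComplex E := by
  refine ⟨fun v => ?_⟩
  rw [← InfinitePlace.not_isReal_iff_isComplex]
  intro hv
  have hωE : ((ω : E)) ^ 2 + (ω : E) + 1 = 0 := by
    have := congrArg (fun z : 𝓞 E => (z : E)) hω
    simpa using this
  let φ := InfinitePlace.embedding_of_isReal hv
  have h1 := congrArg φ hωE
  rw [map_add, map_add, map_pow, map_one, map_zero] at h1
  nlinarith [sq_nonneg (2 * φ (ω : E) + 1)]

/-- Kummer extensions of non-cubes which are unramified give subgroups of the class group. -/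
theorem star {E : Type} [Field E] [NumberField E] {ω γ c0 : 𝓞 E} (hω : ω ^ 2 + ω + 1 = 0)
    (hγ : ∀ b : E, b ^ 3 ≠ (γ : E)) {b : Ideal (𝓞 E)} (hb : Ideal.span {γ} = b ^ 3)
    (hγ3 : ∀ Q : Ideal (𝓞 E), Q.IsPrime → (3 : 𝓞 E) ∈ Q → γ ∉ Q)
    (hc : γ - c0 ^ 3 ∈ Ideal.span {(9 : 𝓞 E)}) :
    ∃ H : Subgroup (ClassGroup (𝓞 E)), H ≠ ⊤ ∧ (∀ x, x ^ 3 ∈ H) ∧
      ∀ q : Ideal (𝓞 E), q.IsPrime → q ≠ ⊥ → (3 : 𝓞 E) ∉ q → γ ∉ q →
        (∃ y, γ - y ^ 3 ∈ q) → cls q ∈ H := by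
  classical
  obtain ⟨L, _, _, _, _, σ, θ, h3, hθ, hσθ, hσ1⟩ := kummer_exists E hω hγ
  have hγ0 : γ ≠ 0 := by
    rintro rfl
    exact hγ 0 (by simp)
  have hun := kummer_unram h3 hω hγ0 hθ hσθ hb hγ3 hc
  have hcard : Nat.card Gal(L/E) = 3 := by rw [IsGalois.card_aut_eq_finrank, h3]
  have hord : orderOf σ = 3 := by
    have h1 : orderOf σ ∣ 3 := by rw [← hcard]; exact orderOf_dvd_natCard σ
    rcases (Nat.dvd_prime Nat.prime_three).mp h1 with h2 | h2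
    · exact absurd (orderOf_eq_one_iff.mp h2) hσ1
    · exact h2
  have htop : Subgroup.zpowers σ = ⊤ := by
    apply Subgroup.eq_top_of_card_eq
    rw [Nat.card_zpowers, hord, hcard]
  have hG : IsGaloisGroup (Subgroup.zpowers σ) E L := by
    rw [htop]
    exact IsGaloisGroup.of_mulEquiv (G := Gal(L/E)) Subgroup.topEquiv (fun h x => rfl)
  obtain ⟨hU1, hU2⟩ := unit_index h3 (totallyComplex_of_omega hω) σ hσ1
  obtain ⟨H, hH, hHn⟩ := first_ineq (E := E) (L := L) σ (by rw [hord]; exact Nat.prime_three) hun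
    hU2 hU1
  refine ⟨H, hH, ?_, ?_⟩
  · intro x
    obtain ⟨I, hI, rfl⟩ := cls_surj x
    have h1 := hHn (I.map (algebraMap (𝓞 E) (𝓞 L))) (map_ne_bot' hI)
    rw [Ideal.relNorm_algebraMap, finrank_int, h3, cls_pow hI] at h1
    exact h1
  · rintro q hq hq0 h3q hγq ⟨y, hy⟩
    obtain ⟨P, hP0, hP⟩ := kummer_split h3 hω hθ hσθ hq hq0 h3q hγq hy
    rw [← hP]
    exact hHn P hP0

end Pool.Agent.Lib.MP_695920_nt.Refl
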