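import Mathlib

/-!
# Submultiplicativity of root discriminants in a compositum
-/

set_option autoImplicit false

open Finset NumberField Module

namespace Pool.Agent.Lib.MP_695920_nt.Refl

section expand

variable {K : Type*} [Field K] [NumberField K] {E : Type*} [Field E] [Algebra ℚ E]
  [IsAlgClosed E] {ι : Type*} [Fintype ι] [DecidableEq ι]

open Classical in
theorem compDisc_ortho (b : Basis ι ℚ K) (φ ψ : K →ₐ[ℚ] E) :
    ∑ i, φ (b.traceDual i) * ψ (b i) = if φ = ψ then 1 else 0 := by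
  let M : Matrix ι (K →ₐ[ℚ] E) E := fun i σ => σ (b i)
  let N : Matrix (K →ₐ[ℚ] E) ι E := fun σ i => σ (b.traceDual i)
  have hcard : Fintype.card ι = Fintype.card (K →ₐ[ℚ] E) := by
    rw [AlgHom.card, Module.finrank_eq_card_basis b]
  have h1 : M * N = 1 := by
    ext i j
    rw [Matrix.mul_apply, Matrix.one_apply]
    have h := trace_eq_sum_embeddings (K := ℚ) (L := K) E (x := b i * b.traceDual j)
    rw [Module.Basis.trace_mul_traceDual] at h
    simp only [M, N]
    simp only [map_mul] at h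
    rw [← h]
    split_ifs <;> simp
  have h2 : N * M = 1 := (Matrix.mul_eq_one_comm_of_card_eq ι (K →ₐ[ℚ] E) E hcard).1 h1
  have h3 := congrFun (congrFun h2 φ) ψ
  rw [Matrix.mul_apply, Matrix.one_apply] at h3
  exact h3

end expand

section main

variable {L : Type} [Field L] [NumberField L]

/-- every element is expanded in the trace-dual basis of one of the two fields -/
theorem compDisc_expand (F₁ F₂ : IntermediateField ℚ L) (h : F₁ ⊔ F₂ = ⊤)
    {ι : Type*} [Fintype ι] [DecidableEq ι] (b : Basis ι ℚ F₂) (x : L) :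
    x = ∑ i, algebraMap F₁ L (Algebra.trace F₁ L (x * algebraMap F₂ L (b i))) *
      algebraMap F₂ L (b.traceDual i) := by
  classical
  apply FaithfulSMul.algebraMap_injective L (AlgebraicClosure L)
  have hsub : F₁.toSubalgebra ⊔ F₂.toSubalgebra = ⊤ := by
    have := congrArg IntermediateField.toSubalgebra h
    rwa [IntermediateField.sup_toSubalgebra_of_isAlgebraic_right,
      IntermediateField.top_toSubalgebra] at this
  rw [map_sum]
  simp only [map_mul]
  have htr : ∀ y : L, algebraMap L (AlgebraicClosure L) (algebraMap F₁ L (Algebra.trace F₁ L y)) =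
      ∑ σ : L →ₐ[F₁] AlgebraicClosure L, σ y := by
    intro y
    rw [← IsScalarTower.algebraMap_apply F₁ L (AlgebraicClosure L)]
    exact trace_eq_sum_embeddings (AlgebraicClosure L)
  simp only [htr, Finset.sum_mul]
  rw [Finset.sum_comm]
  let e : (L →ₐ[F₁] AlgebraicClosure L) → (F₂ →ₐ[ℚ] AlgebraicClosure L) :=
    fun σ => (σ.restrictScalars ℚ).comp F₂.val
  let i₀ : L →ₐ[F₁] AlgebraicClosure L := IsScalarTower.toAlgHom F₁ L (AlgebraicClosure L)
  have hinj : ∀ σ, e i₀ = e σ ↔ σ = i₀ := by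
    intro σ
    constructor
    · intro hσ
      have hle : F₁.toSubalgebra ⊔ F₂.toSubalgebra ≤
          AlgHom.equalizer (σ.restrictScalars ℚ) (i₀.restrictScalars ℚ) := by
        refine sup_le ?_ ?_
        · intro y hy
          rw [AlgHom.mem_equalizer]
          have e1 := σ.commutes (⟨y, hy⟩ : F₁)
          have e2 := i₀.commutes (⟨y, hy⟩ : F₁)
          exact e1.trans e2.symm
        · intro y hy
          rw [AlgHom.mem_equalizer]
          have e1 := congrArg (fun f : F₂ →ₐ[ℚ] AlgebraicClosure L => f ⟨y, hy⟩) hσ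
          exact e1.symm
      rw [hsub] at hle
      ext y
      have := hle (x := y) trivial
      rwa [AlgHom.mem_equalizer] at this
    · rintro rfl
      rfl
  have hinner : ∀ σ : L →ₐ[F₁] AlgebraicClosure L,
      ∑ i, σ (x * algebraMap F₂ L (b i)) *
        algebraMap L (AlgebraicClosure L) (algebraMap F₂ L (b.traceDual i)) =
      σ x * if σ = i₀ then 1 else 0 := by
    intro σ
    have h1 := compDisc_ortho b (e i₀) (e σ)
    have h2 : (if e i₀ = e σ then (1 : AlgebraicClosure L) else 0) =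
        if σ = i₀ then 1 else 0 := if_congr (hinj σ) rfl rfl
    rw [← h2, ← h1, Finset.mul_sum]
    refine Finset.sum_congr rfl fun i _ => ?_
    rw [map_mul]
    have e1 : e σ (b i) = σ (algebraMap F₂ L (b i)) := rfl
    have e2 : e i₀ (b.traceDual i) =
      algebraMap L (AlgebraicClosure L) (algebraMap F₂ L (b.traceDual i)) := rfl
    rw [e1, e2]
    ring
  rw [Finset.sum_congr rfl fun σ _ => hinner σ]
  simp only [mul_ite, mul_one, mul_zero]
  rw [Finset.sum_ite_eq' Finset.univ i₀, if_pos (Finset.mem_univ _)]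
  rfl

open FractionalIdeal nonZeroDivisors IntermediateField Algebra Submodule

theorem compDisc_traceDual_le (F₁ F₂ : IntermediateField ℚ L) (h : F₁ ⊔ F₂ = ⊤) :
    (traceDual (𝓞 F₁) F₁ (1 : Submodule (𝓞 L) L)).restrictScalars (𝓞 F₁) ≤
      span (𝓞 F₁) (algebraMap F₂ L '' (traceDual ℤ ℚ (1 : Submodule (𝓞 F₂) F₂))) := by
  classical
  intro x hx
  let b₂ := (Free.chooseBasis ℤ (𝓞 F₂)).localizationLocalization ℚ ℤ⁰ F₂
  have hb : ∀ i, b₂.traceDual i ∈ traceDual ℤ ℚ (1 : Submodule (𝓞 F₂) F₂) := by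
    intro i
    have h1 := traceDual_span_of_basis ℤ (1 : Submodule (𝓞 F₂) F₂) b₂
      (by rw [Basis.localizationLocalization_span ℚ ℤ⁰ F₂]; ext; simp)
    have h2 : b₂.traceDual i ∈ span ℤ (Set.range b₂.traceDual) := subset_span ⟨i, rfl⟩
    rw [← h1] at h2
    exact h2
  rw [compDisc_expand F₁ F₂ h b₂ x]
  refine Submodule.sum_mem _ fun i _ => ?_
  have h3 : Algebra.trace F₁ L (x * algebraMap F₂ L (b₂ i)) ∈ (algebraMap (𝓞 F₁) F₁).range := by
    refine mem_traceDual.mp hx _ ?_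
    rw [Basis.localizationLocalization_apply, Submodule.mem_one]
    exact ⟨algebraMap (𝓞 F₂) (𝓞 L) _, by
      rw [← IsScalarTower.algebraMap_apply, IsScalarTower.algebraMap_apply (𝓞 F₂) F₂ L]⟩
  obtain ⟨c, hc⟩ := h3
  rw [← hc, ← IsScalarTower.algebraMap_apply (𝓞 F₁) F₁ L, ← Algebra.smul_def]
  exact Submodule.smul_mem _ _ (subset_span ⟨_, hb i, rfl⟩)

theorem compDisc_dvd (F₁ F₂ : IntermediateField ℚ L) (h : F₁ ⊔ F₂ = ⊤) :
    differentIdeal (𝓞 F₁) (𝓞 L) ∣
      Ideal.map (algebraMap (𝓞 F₂) (𝓞 L)) (differentIdeal ℤ (𝓞 F₂)) := by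
  rw [Ideal.dvd_iff_le, ← coeIdeal_le_coeIdeal L, coeIdeal_differentIdeal (𝓞 F₁) F₁ L (𝓞 L),
    ← extendedHom_coeIdeal_eq_map L (𝓞 L) (K := F₂), le_inv_comm _ (by simp), ← map_inv₀,
    coeIdeal_differentIdeal ℤ ℚ, inv_inv, ← coe_le_coe, coe_dual_one, coe_extendedHom_eq_span,
    ← coeToSet_coeToSubmodule, coe_dual_one]
  · have := Submodule.span_mono (R := 𝓞 L) <| compDisc_traceDual_le F₁ F₂ h
    rwa [← span_coe_eq_restrictScalars, span_span_of_tower, span_span_of_tower, span_eq] at this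
  · exact (_root_.map_ne_zero _).mpr <| coeIdeal_eq_zero.not.mpr differentIdeal_ne_bot

/-- the discriminant of a compositum -/
theorem compDisc_le (F₁ F₂ : IntermediateField ℚ L) (h : F₁ ⊔ F₂ = ⊤) :
    (discr L).natAbs ≤ (discr F₁).natAbs ^ finrank F₁ L * (discr F₂).natAbs ^ finrank F₂ L := by
  have h_main := natAbs_discr_eq_absNorm_differentIdeal_mul_natAbs_discr_pow F₁ (𝓞 F₁) L (𝓞 L)
  have h1 : Ideal.absNorm (differentIdeal (𝓞 F₁) (𝓞 L)) ∣ (discr F₂).natAbs ^ finrank F₂ L := by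
    have h2 := Ideal.absNorm_dvd_absNorm_of_le (Ideal.dvd_iff_le.mp (compDisc_dvd F₁ F₂ h))
    rwa [Ideal.absNorm_algebraMap, NumberField.absNorm_differentIdeal F₂,
      ← IsFractionRing.finrank_eq (𝓞 F₂) F₂ (𝓞 L) L] at h2
  have h3 : Ideal.absNorm (differentIdeal (𝓞 F₁) (𝓞 L)) ≤ (discr F₂).natAbs ^ finrank F₂ L :=
    Nat.le_of_dvd (Nat.pos_of_ne_zero (pow_ne_zero _ (Int.natAbs_ne_zero.2 (discr_ne_zero F₂)))) h1
  rw [h_main, mul_comm]
  exact Nat.mul_le_mul_left _ h3

theorem compDisc_log (F₁ F₂ : IntermediateField ℚ L) (h : F₁ ⊔ F₂ = ⊤) :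
    Real.log |(discr L : ℝ)| / finrank ℚ L ≤
      Real.log |(discr F₁ : ℝ)| / finrank ℚ F₁ + Real.log |(discr F₂ : ℝ)| / finrank ℚ F₂ := by
  have h1 := compDisc_le F₁ F₂ h
  have hpos : ∀ (F : Type) [Field F] [NumberField F], 0 < ((discr F).natAbs : ℝ) := by
    intro F _ _
    exact_mod_cast Nat.pos_of_ne_zero (Int.natAbs_ne_zero.2 (discr_ne_zero F))
  have habs : ∀ (F : Type) [Field F] [NumberField F], |(discr F : ℝ)| = ((discr F).natAbs : ℝ) := by
    intro F _ _
    rw [Nat.cast_natAbs, Int.cast_abs]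
  have h2 : Real.log |(discr L : ℝ)| ≤ finrank F₁ L * Real.log |(discr F₁ : ℝ)| +
      finrank F₂ L * Real.log |(discr F₂ : ℝ)| := by
    rw [habs, habs, habs, ← Real.log_pow, ← Real.log_pow, ← Real.log_mul
      (pow_ne_zero _ (hpos F₁).ne') (pow_ne_zero _ (hpos F₂).ne')]
    exact Real.log_le_log (hpos L) (by exact_mod_cast h1)
  have e1 : (finrank ℚ L : ℝ) = finrank ℚ F₁ * finrank F₁ L := by
    rw [← Module.finrank_mul_finrank ℚ F₁ L]; push_cast; ring
  have e2 : (finrank ℚ L : ℝ) = finrank ℚ F₂ * finrank F₂ L := by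
    rw [← Module.finrank_mul_finrank ℚ F₂ L]; push_cast; ring
  have p0 : (0 : ℝ) < finrank ℚ L := by exact_mod_cast Module.finrank_pos
  have p1 : (0 : ℝ) < finrank ℚ F₁ := by exact_mod_cast Module.finrank_pos
  have p2 : (0 : ℝ) < finrank ℚ F₂ := by exact_mod_cast Module.finrank_pos
  have q1 : (0 : ℝ) < finrank F₁ L := by exact_mod_cast Module.finrank_pos
  have q2 : (0 : ℝ) < finrank F₂ L := by exact_mod_cast Module.finrank_pos
  rw [div_le_iff₀ p0]
  refine h2.trans (le_of_eq ?_)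
  rw [add_mul]
  congr 1
  · rw [e1]; field_simp
  · rw [e2]; field_simp

end main

theorem comp_disc {K : Type} [Field K] [NumberField K] (A B : IntermediateField ℚ K) :
    Real.log |(discr (A ⊔ B : IntermediateField ℚ K) : ℝ)| /
        finrank ℚ (A ⊔ B : IntermediateField ℚ K) ≤
      Real.log |(discr A : ℝ)| / finrank ℚ A + Real.log |(discr B : ℝ)| / finrank ℚ B := by
  have hA : A ≤ A ⊔ B := le_sup_left
  have hB : B ≤ A ⊔ B := le_sup_right
  let F₁ : IntermediateField ℚ ↥(A ⊔ B) := IntermediateField.restrict hA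
  let F₂ : IntermediateField ℚ ↥(A ⊔ B) := IntermediateField.restrict hB
  have hsup : F₁ ⊔ F₂ = ⊤ := by
    have h1 : A ⊔ B ≤ IntermediateField.lift (F₁ ⊔ F₂) := by
      refine sup_le ?_ ?_
      · intro x hx
        have : (⟨x, hA hx⟩ : ↥(A ⊔ B)) ∈ F₁ := (IntermediateField.mem_restrict hA _).2 hx
        exact (IntermediateField.mem_lift (⟨x, hA hx⟩ : ↥(A ⊔ B))).2 ((le_sup_left : F₁ ≤ _) this)
      · intro x hx
        have : (⟨x, hB hx⟩ : ↥(A ⊔ B)) ∈ F₂ := (IntermediateField.mem_restrict hB _).2 hx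
        exact (IntermediateField.mem_lift (⟨x, hB hx⟩ : ↥(A ⊔ B))).2 ((le_sup_right : F₂ ≤ _) this)
    rw [eq_top_iff]
    intro x _
    exact (IntermediateField.mem_lift x).1 (h1 x.2)
  have e1 : A ≃ₐ[ℚ] F₁ := IntermediateField.restrictAlgEquiv hA
  have e2 : B ≃ₐ[ℚ] F₂ := IntermediateField.restrictAlgEquiv hB
  have h := compDisc_log F₁ F₂ hsup
  rw [← discr_eq_discr_of_algEquiv A e1, ← discr_eq_discr_of_algEquiv B e2,
    ← e1.toLinearEquiv.finrank_eq, ← e2.toLinearEquiv.finrank_eq] at h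
  exact h

end Pool.Agent.Lib.MP_695920_nt.Refl
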