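import Mathlib
import Pool.Agent.Lib.MP_695920_nt.Refl.GenB

set_option autoImplicit false

open Finset NumberField Module IsDedekindDomain Filter Topology
open scoped nonZeroDivisors Pointwise

namespace Pool.Agent.Lib.MP_695920_nt.Refl

open Pool.Agent.Lib.MP_695920_nt.Solv Pool.Agent.Lib.MP_695920_nt.Tow

/-- the class group is generated, modulo cubes, by the primes of norm `2` modulo `3` -/
theorem gen_two (K K' : Type) [Field K] [NumberField K] [Field K'] [NumberField K'] [Algebra K K']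
    (h2 : finrank K K' = 2) {ω : 𝓞 K'} (hω : ω ^ 2 + ω + 1 = 0) (hK : ∀ z : K, z ^ 2 + z + 1 ≠ 0)
    {m : 𝓞 K} (hm : m ≠ 0)
    (H : Subgroup (ClassGroup (𝓞 K))) (hH3 : ∀ x, x ^ 3 ∈ H)
    (hH : ∀ P : Ideal (𝓞 K), P.IsPrime → P ≠ ⊥ → Ideal.absNorm P % 3 = 2 → m ∉ P → cls P ∈ H) :
    H = ⊤ := by
  classical
  by_contra hne
  -- a character
  obtain ⟨a, ha⟩ : ∃ a, a ∉ H := by
    by_contra hcon
    push Not at hcon
    exact hne (eq_top_iff.mpr (fun x _ => hcon x))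
  have ha' : (QuotientGroup.mk a : ClassGroup (𝓞 K) ⧸ H) ≠ 1 := by
    rw [Ne, QuotientGroup.eq_one_iff]
    exact ha
  obtain ⟨φ, hφ⟩ := CommGroup.exists_apply_ne_one_of_hasEnoughRootsOfUnity
    (ClassGroup (𝓞 K) ⧸ H) ℂ ha'
  set ψ : ClassGroup (𝓞 K) →* ℂˣ := φ.comp (QuotientGroup.mk' H) with hψ
  have hψH : ∀ x ∈ H, ψ x = 1 := by
    intro x hx
    rw [hψ, MonoidHom.comp_apply, QuotientGroup.mk'_apply, (QuotientGroup.eq_one_iff x).mpr hx,
      map_one]
  have hψ1 : ψ ≠ 1 := by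
    intro h
    apply hφ
    have := congrArg (fun f : ClassGroup (𝓞 K) →* ℂˣ => f a) h
    exact this
  have hψ3 : ∀ x, ((ψ x : ℂ)) ^ 3 = 1 := by
    intro x
    rw [← Units.val_pow_eq_pow_val, ← map_pow, hψH _ (hH3 x), Units.val_one]
  -- the exceptional primes
  have h3m : (3 * m : 𝓞 K) ≠ 0 := mul_ne_zero (by norm_num) hm
  have h3m' : Ideal.span {(3 * m : 𝓞 K)} ≠ 0 := by
    rw [Ne, Ideal.zero_eq_bot, Ideal.span_singleton_eq_bot]
    exact h3m
  have hfin : {v : HeightOneSpectrum (𝓞 K) | v.asIdeal ∣ Ideal.span {(3 * m : 𝓞 K)}}.Finite :=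
    Ideal.finite_factors h3m'
  set D := hfin.toFinset with hD
  have hDmem : ∀ v : HeightOneSpectrum (𝓞 K), v ∉ D → (3 : 𝓞 K) ∉ v.asIdeal ∧ m ∉ v.asIdeal := by
    intro v hv
    rw [hD, Set.Finite.mem_toFinset] at hv
    constructor
    · intro h
      apply hv
      change v.asIdeal ∣ _
      rw [Ideal.dvd_span_singleton]
      exact Ideal.mul_mem_right _ _ h
    · intro h
      apply hv
      change v.asIdeal ∣ _
      rw [Ideal.dvd_span_singleton]
      exact Ideal.mul_mem_left _ _ h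
  -- the main inequality
  have hmain : ∀ (s : ℝ) (hs : 1 < s), Summable (fun I => nz K s hs I) →
      Summable (fun I => nz K' s hs I) →
      (∑' I, nz K s hs I) ^ 4 ≤ ‖∑' I, tw ψ s hs I‖ ^ 4 *
        (4 ^ D.card * ∑' I, nz K' s hs I) ^ 3 := by
    intro s hs hsum hsum'
    have hZ' : 0 ≤ ∑' I, nz K' s hs I := tsum_nonneg (fun I => nz_nonneg K' s hs I)
    -- local factors
    let b : HeightOneSpectrum (𝓞 K) → ℝ := fun v =>
      if v ∈ D then 2 else if Ideal.absNorm v.asIdeal % 3 = 1 then (1 - nz K s hs v.asIdeal)⁻¹ else 1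
    have hx0 : ∀ v : HeightOneSpectrum (𝓞 K), 0 ≤ nz K s hs v.asIdeal := fun v => nz_nonneg K s hs _
    have hx1 : ∀ v : HeightOneSpectrum (𝓞 K), nz K s hs v.asIdeal ≤ 1 / 2 := fun v => nz_lt_one hs v
    have hb0 : ∀ v, 0 ≤ b v := by
      intro v
      have := hx1 v
      simp only [b]
      split_ifs
      · norm_num
      · apply inv_nonneg.mpr; linarith
      · norm_num
    have hloc : ∀ v : HeightOneSpectrum (𝓞 K), ((1 - nz K s hs v.asIdeal)⁻¹) ^ 2 ≤
        ‖(1 - tw ψ s hs v.asIdeal)⁻¹‖ ^ 2 * b v ^ 3 := by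
      intro v
      have h1 := local_ineq (hψ3 (cls v.asIdeal)) (hx0 v) (by linarith [hx1 v])
      rw [← tw_apply] at h1
      by_cases hvD : v ∈ D
      · refine h1.trans (mul_le_mul_of_nonneg_left ?_ (by positivity))
        apply pow_le_pow_left₀ (inv_nonneg.mpr (by linarith [hx1 v]))
        simp only [b, if_pos hvD]
        rw [inv_le_comm₀ (by linarith [hx1 v]) (by norm_num)]
        linarith [hx1 v]
      · obtain ⟨h3v, hmv⟩ := hDmem v hvD
        by_cases hv1 : Ideal.absNorm v.asIdeal % 3 = 1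
        · refine h1.trans (mul_le_mul_of_nonneg_left ?_ (by positivity))
          simp only [b, if_neg hvD, if_pos hv1]
          exact le_rfl
        · have hv2 : Ideal.absNorm v.asIdeal % 3 = 2 := by
            have := absNorm_mod_three_ne v.isPrime v.ne_bot h3v
            omega
          have h5 : ψ (cls v.asIdeal) = 1 := hψH _ (hH v.asIdeal v.isPrime v.ne_bot hv2 hmv)
          have h6 : b v = 1 := by
            simp only [b, if_neg hvD, if_neg hv1]
          rw [h6, one_pow, mul_one, tw_apply, h5, Units.val_one, one_mul, ← Complex.ofReal_one,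
            ← Complex.ofReal_sub, ← Complex.ofReal_inv, Complex.norm_real, Real.norm_eq_abs, sq_abs]
    have hfinS : ∀ S : Finset (HeightOneSpectrum (𝓞 K)),
        (∏ v ∈ S, (1 - nz K s hs v.asIdeal)⁻¹) ^ 4 ≤
          ‖∏ v ∈ S, (1 - tw ψ s hs v.asIdeal)⁻¹‖ ^ 4 * (4 ^ D.card * ∑' I, nz K' s hs I) ^ 3 := by
      intro S
      have h1 : (∏ v ∈ S, (1 - nz K s hs v.asIdeal)⁻¹) ^ 2 ≤
          ‖∏ v ∈ S, (1 - tw ψ s hs v.asIdeal)⁻¹‖ ^ 2 * (∏ v ∈ S, b v) ^ 3 := by
        rw [norm_prod, ← Finset.prod_pow, ← Finset.prod_pow, ← Finset.prod_pow,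
          ← Finset.prod_mul_distrib]
        exact Finset.prod_le_prod (fun v _ => by positivity) (fun v _ => hloc v)
      set S' := S.filter (fun v => v ∉ D ∧ Ideal.absNorm v.asIdeal % 3 = 1) with hS'
      have h2' : ∏ v ∈ S, b v ≤ 2 ^ D.card * ∏ v ∈ S', (1 - nz K s hs v.asIdeal)⁻¹ := by
        have h5 : ∏ v ∈ S, b v = (∏ v ∈ S, if v ∈ D then (2 : ℝ) else 1) *
            ∏ v ∈ S, if v ∉ D ∧ Ideal.absNorm v.asIdeal % 3 = 1 then
              (1 - nz K s hs v.asIdeal)⁻¹ else 1 := by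
          rw [← Finset.prod_mul_distrib]
          apply Finset.prod_congr rfl
          intro v _
          simp only [b]
          by_cases hvD : v ∈ D
          · simp [hvD]
          · simp [hvD]
        rw [h5, ← Finset.prod_filter, ← Finset.prod_filter, ← hS', Finset.prod_const]
        apply mul_le_mul_of_nonneg_right
        · apply pow_le_pow_right₀ (by norm_num)
          apply Finset.card_le_card
          intro v hv
          exact (Finset.mem_filter.mp hv).2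
        · exact Finset.prod_nonneg (fun v _ => inv_nonneg.mpr (by linarith [hx1 v]))
      have h3' : (∏ v ∈ S', (1 - nz K s hs v.asIdeal)⁻¹) ^ 2 ≤ ∑' I, nz K' s hs I := by
        apply w_bound h2 hω hK hs hsum'
        intro v hv
        have h5 := (Finset.mem_filter.mp hv).2
        exact ⟨(hDmem v h5.1).1, h5.2⟩
      have h4' : (∏ v ∈ S, b v) ^ 2 ≤ 4 ^ D.card * ∑' I, nz K' s hs I := by
        calc (∏ v ∈ S, b v) ^ 2 ≤ (2 ^ D.card * ∏ v ∈ S', (1 - nz K s hs v.asIdeal)⁻¹) ^ 2 :=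
              pow_le_pow_left₀ (Finset.prod_nonneg (fun v _ => hb0 v)) h2' 2
          _ = 4 ^ D.card * (∏ v ∈ S', (1 - nz K s hs v.asIdeal)⁻¹) ^ 2 := by
              rw [mul_pow, ← pow_mul, mul_comm D.card 2, pow_mul]; norm_num
          _ ≤ _ := mul_le_mul_of_nonneg_left h3' (by positivity)
      calc (∏ v ∈ S, (1 - nz K s hs v.asIdeal)⁻¹) ^ 4
          = ((∏ v ∈ S, (1 - nz K s hs v.asIdeal)⁻¹) ^ 2) ^ 2 := by ring
        _ ≤ (‖∏ v ∈ S, (1 - tw ψ s hs v.asIdeal)⁻¹‖ ^ 2 * (∏ v ∈ S, b v) ^ 3) ^ 2 :=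
            pow_le_pow_left₀ (by positivity) h1 2
        _ = ‖∏ v ∈ S, (1 - tw ψ s hs v.asIdeal)⁻¹‖ ^ 4 * ((∏ v ∈ S, b v) ^ 2) ^ 3 := by ring
        _ ≤ _ := by
            apply mul_le_mul_of_nonneg_left _ (by positivity)
            exact pow_le_pow_left₀ (by positivity) h4' 3
    have hlim1 := (euler_tendsto (nz K s hs) (nz_norm_summable hs hsum)).pow 4
    have hlim2 : Tendsto (fun S : Finset (HeightOneSpectrum (𝓞 K)) =>
        ‖∏ v ∈ S, (1 - tw ψ s hs v.asIdeal)⁻¹‖ ^ 4 * (4 ^ D.card * ∑' I, nz K' s hs I) ^ 3) atTop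
        (𝓝 (‖∑' I, tw ψ s hs I‖ ^ 4 * (4 ^ D.card * ∑' I, nz K' s hs I) ^ 3)) := by
      have hsumt : Summable (fun I => ‖tw ψ s hs I‖) := by
        simp only [tw_norm]; exact hsum
      exact ((euler_tendsto (tw ψ s hs) hsumt).norm.pow 4).mul_const _
    exact le_of_tendsto_of_tendsto' hlim1 hlim2 hfinS
  -- conclusion
  obtain ⟨C, hC⟩ := l_bound K
  obtain ⟨κ, κa, hκ, -, hzK⟩ := zeta_asymp K
  obtain ⟨κb, κ', -, hκ', hzK'⟩ := zeta_asymp K'
  have hCpos : 0 ≤ C := by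
    have h2mem : ∀ᶠ s in 𝓝[>] (1 : ℝ), s ≤ 2 := by
      filter_upwards [Ioo_mem_nhdsGT (show (1 : ℝ) < 2 by norm_num)] with s hs
      exact hs.2.le
    obtain ⟨s, ⟨hs1, hs2⟩, hs3⟩ := ((hzK.and h2mem).and self_mem_nhdsWithin).exists
    exact (norm_nonneg _).trans (hC s hs3 hs2 (hs1 hs3).1 ψ hψ1)
  set C2 : ℝ := C ^ 4 * (4 ^ D.card * κ') ^ 3 with hC2
  have hC20 : 0 ≤ C2 := by positivity
  have hlast : ∀ᶠ s in 𝓝[>] (1 : ℝ), s ∈ Set.Ioo (1 : ℝ) (min 2 (1 + κ ^ 4 / (C2 + 1))) :=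
    Ioo_mem_nhdsGT (by
      rw [lt_min_iff]
      constructor
      · norm_num
      · have : 0 < κ ^ 4 / (C2 + 1) := by positivity
        linarith)
  obtain ⟨s, ⟨hs1, hs2⟩, hs3⟩ := ((hzK.and hzK').and hlast).exists
  have hs : 1 < s := hs3.1
  have hs2' : s ≤ 2 := hs3.2.le.trans (min_le_left _ _)
  have hsκ : s < 1 + κ ^ 4 / (C2 + 1) := hs3.2.trans_le (min_le_right _ _)
  obtain ⟨hsum, hlow, -⟩ := hs1 hs
  obtain ⟨hsum', -, hup⟩ := hs2 hs
  have h1 := hmain s hs hsum hsum'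
  have h5 := hC s hs hs2' hsum ψ hψ1
  have hd : 0 < s - 1 := by linarith
  have h6 : (κ / (s - 1)) ^ 4 ≤ C ^ 4 * (4 ^ D.card * (κ' / (s - 1))) ^ 3 := by
    calc (κ / (s - 1)) ^ 4 ≤ (∑' I, nz K s hs I) ^ 4 := pow_le_pow_left₀ (by positivity) hlow 4
      _ ≤ _ := h1
      _ ≤ C ^ 4 * (4 ^ D.card * (κ' / (s - 1))) ^ 3 := by
          apply mul_le_mul (pow_le_pow_left₀ (norm_nonneg _) h5 4) _ _ (by positivity)
          · apply pow_le_pow_left₀
            · have : 0 ≤ ∑' I, nz K' s hs I := tsum_nonneg (fun I => nz_nonneg K' s hs I)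
              positivity
            · exact mul_le_mul_of_nonneg_left hup (by positivity)
          · have : 0 ≤ ∑' I, nz K' s hs I := tsum_nonneg (fun I => nz_nonneg K' s hs I)
            positivity
  have h7 : C ^ 4 * (4 ^ D.card * (κ' / (s - 1))) ^ 3 = C2 / (s - 1) ^ 3 := by
    rw [hC2]; field_simp
  rw [h7, div_pow, div_le_div_iff₀ (by positivity) (by positivity)] at h6
  have h8 : κ ^ 4 ≤ C2 * (s - 1) := by
    have h9 : κ ^ 4 * (s - 1) ^ 3 ≤ (C2 * (s - 1)) * (s - 1) ^ 3 := by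
      calc κ ^ 4 * (s - 1) ^ 3 ≤ C2 * (s - 1) ^ 4 := h6
        _ = _ := by ring
    exact le_of_mul_le_mul_right h9 (by positivity)
  have h10 : s - 1 < κ ^ 4 / (C2 + 1) := by linarith
  rw [lt_div_iff₀ (by positivity)] at h10
  nlinarith

end Pool.Agent.Lib.MP_695920_nt.Refl
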