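import Mathlib
import Pool.Agent.Lib.MP_695920_nt.Refl.ClsTools
import Pool.Agent.Lib.MP_695920_nt.Refl.Star
import Pool.Agent.Lib.MP_695920_nt.Refl.Gen
import Pool.Agent.Lib.MP_695920_nt.Tow.KeyR

set_option autoImplicit false

open Finset NumberField Module IsDedekindDomain
open scoped nonZeroDivisors Pointwise

namespace Pool.Agent.Lib.MP_695920_nt.Refl

open Pool.Agent.Lib.MP_695920_nt.Solv Pool.Agent.Lib.MP_695920_nt.Tow

lemma cube_mod_of_norm {K : Type} [Field K] [NumberField K] {P : Ideal (𝓞 K)} (hP : P.IsPrime)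
    (hP0 : P ≠ ⊥) (hN : Ideal.absNorm P % 3 = 2) (γ : 𝓞 K) : ∃ y : 𝓞 K, γ - y ^ 3 ∈ P := by
  classical
  have hmax := hP.isMaximal hP0
  let _ : Field (𝓞 K ⧸ P) := Ideal.Quotient.field P
  have hfin : Finite (𝓞 K ⧸ P) := Ring.HasFiniteQuotients.finiteQuotient hP0
  have hcard : Nat.card (𝓞 K ⧸ P) = Ideal.absNorm P := rfl
  by_cases hγ : γ ∈ P
  · exact ⟨0, by simpa using hγ⟩
  have hγ' : Ideal.Quotient.mk P γ ≠ 0 := by rwa [Ne, Ideal.Quotient.eq_zero_iff_mem]
  cases nonempty_fintype (𝓞 K ⧸ P)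
  have hcop : (Nat.card (𝓞 K ⧸ P)ˣ).Coprime 3 := by
    rw [Nat.card_units, hcard]
    rw [Nat.coprime_comm, Nat.Prime.coprime_iff_not_dvd Nat.prime_three]
    have h1 : 0 < Ideal.absNorm P := absNorm_pos_of_ne_bot hP0
    omega
  have hbij := (powCoprime hcop).surjective (Units.mk0 _ hγ')
  obtain ⟨v, hv⟩ := hbij
  obtain ⟨y, hy⟩ := Ideal.Quotient.mk_surjective (v : 𝓞 K ⧸ P)
  refine ⟨y, ?_⟩
  rw [← Ideal.Quotient.eq_zero_iff_mem, map_sub, map_pow, hy, sub_eq_zero]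
  have h2 := congrArg (fun z : (𝓞 K ⧸ P)ˣ => (z : 𝓞 K ⧸ P)) hv
  simp only [powCoprime_apply, Units.val_pow_eq_pow_val, Units.val_mk0] at h2
  exact h2.symm

variable {K K' : Type} [Field K] [NumberField K] [Field K'] [NumberField K'] [Algebra K K']

/-- the main counting step of the reflection theorem -/
lemma card_le_index (h2 : finrank K K' = 2) {ω : 𝓞 K'} (hω : ω ^ 2 + ω + 1 = 0)
    (hK : ∀ z : K, z ^ 2 + z + 1 ≠ 0) :
    Nat.card {x : ClassGroup (𝓞 K) // x ^ 3 = 1} ≤ 9 ^ (finrank ℚ K) *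
      ((ClassGroup.extendedHom (𝓞 K) (𝓞 K')).range ⊔
        (powMonoidHom 3 : ClassGroup (𝓞 K') →* ClassGroup (𝓞 K')).range).index := by
  classical
  set j := ClassGroup.extendedHom (𝓞 K) (𝓞 K') with hj
  set S := j.range ⊔ (powMonoidHom 3 : ClassGroup (𝓞 K') →* ClassGroup (𝓞 K')).range with hS
  set ι := algebraMap (𝓞 K) (𝓞 K') with hι
  have hιinj : Function.Injective ι := FaithfulSMul.algebraMap_injective (𝓞 K) (𝓞 K')
  have h3ne : (3 : 𝓞 K) ≠ 0 := by norm_num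
  -- representatives
  have hex : ∀ c : {x : ClassGroup (𝓞 K) // x ^ 3 = 1}, ∃ (I : Ideal (𝓞 K)) (α : 𝓞 K), I ≠ ⊥ ∧
      cls I = c.1 ∧ I ⊔ Ideal.span {(3 : 𝓞 K)} = ⊤ ∧ α ≠ 0 ∧ Ideal.span {α} = I ^ 3 := by
    intro c
    obtain ⟨I, hI0, hIc, hI3⟩ := cls_surj_coprime c.1 h3ne
    have h1 : cls (I ^ 3) = cls (⊤ : Ideal (𝓞 K)) := by
      rw [cls_pow hI0, hIc, c.2, cls_top]
    rw [cls_eq_iff (pow_ne_zero 3 hI0) top_ne_bot] at h1
    obtain ⟨a, b, ha, hb, hab⟩ := h1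
    rw [Ideal.mul_top] at hab
    have h4 : a ∣ b := by
      rw [← Ideal.mem_span_singleton]
      have : b ∈ Ideal.span {b} := Ideal.mem_span_singleton_self b
      rw [← hab] at this
      exact (Ideal.mul_le_left : Ideal.span {a} * I ^ 3 ≤ Ideal.span {a}) this
    obtain ⟨α, rfl⟩ := h4
    refine ⟨I, α, hI0, hIc, hI3, right_ne_zero_of_mul hb, ?_⟩
    rw [← Ideal.span_singleton_mul_span_singleton] at hab
    exact (mul_left_cancel₀ (by simpa using ha) hab).symm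
  choose I α hI0 hIc hI3 hα0 hα using hex
  have hαq : ∀ c (Q : Ideal (𝓞 K)), Q.IsPrime → (3 : 𝓞 K) ∈ Q → α c ∉ Q := by
    intro c Q hQ h3Q hαQ
    have h1 : I c ^ 3 ≤ Q := by
      rw [← hα, Ideal.span_singleton_le_iff_mem]
      exact hαQ
    have h4 : I c ≤ Q := (Ideal.IsPrime.pow_le_iff (by norm_num)).mp h1
    exact not_mem_of_coprime (hI3 c) hQ h4 h3Q
  cases nonempty_fintype {x : ClassGroup (𝓞 K) // x ^ 3 = 1}
  set m : 𝓞 K := 3 * ∏ c, α c with hm
  have hm0 : m ≠ 0 := mul_ne_zero h3ne (Finset.prod_ne_zero_iff.mpr (fun c _ => hα0 c))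
  have hιm0 : ι m ≠ 0 := by
    intro h
    exact hm0 (hιinj (by rw [h, map_zero]))
  have h3m : ∀ q : Ideal (𝓞 K'), ι m ∉ q → (3 : 𝓞 K') ∉ q := by
    intro q hq h3
    apply hq
    rw [hm, map_mul, map_ofNat]
    exact Ideal.mul_mem_right _ _ h3
  have hαm : ∀ c (q : Ideal (𝓞 K')), ι m ∉ q → ι (α c) ∉ q := by
    intro c q hq h3
    apply hq
    rw [hm, map_mul]
    apply Ideal.mul_mem_left
    rw [← Finset.mul_prod_erase Finset.univ α (Finset.mem_univ c), map_mul]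
    exact Ideal.mul_mem_right _ _ h3
  -- the primes
  have hS3 : ∀ x, x ^ 3 ∈ S := fun x => (le_sup_right : _ ≤ S) ⟨x, rfl⟩
  obtain ⟨F, hF1, hF2, hF3⟩ := select_primes hιm0 _ S rfl hS3
  have hcub : ∀ q : F, ∃ (Q : Type) (_ : Finite Q) (χ : 𝓞 K' → Q), Nat.card Q ≤ 3 ∧
      ∀ a b : 𝓞 K', a ∉ q.1 → b ∉ q.1 → χ a = χ b → ∃ u : 𝓞 K', a - b * u ^ 3 ∈ q.1 := by
    intro q
    obtain ⟨h1, h4, h5⟩ := hF1 q.1 q.2
    have hfin : Finite (𝓞 K' ⧸ q.1) := Ring.HasFiniteQuotients.finiteQuotient h4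
    exact cubic_classes (h1.isMaximal h4)
  choose Q hQfin χ hQ hχ using hcub
  -- the residues modulo 9
  have h9 : (Ideal.span {(9 : 𝓞 K)}) ≠ ⊥ := by
    rw [Ne, Ideal.span_singleton_eq_bot]
    norm_num
  have hfin9 : Finite (𝓞 K ⧸ Ideal.span {(9 : 𝓞 K)}) := Ring.HasFiniteQuotients.finiteQuotient h9
  have hcard9 : Nat.card (𝓞 K ⧸ Ideal.span {(9 : 𝓞 K)}) = 9 ^ finrank ℚ K := by
    change Ideal.absNorm (Ideal.span {(9 : 𝓞 K)}) = _
    rw [Ideal.absNorm_span_singleton]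
    have h1 : (9 : 𝓞 K) = algebraMap ℤ (𝓞 K) 9 := by simp
    rw [h1, Algebra.norm_algebraMap, Int.natAbs_pow, RingOfIntegers.rank]
    rfl
  let f : {x : ClassGroup (𝓞 K) // x ^ 3 = 1} →
      (𝓞 K ⧸ Ideal.span {(9 : 𝓞 K)}) × (∀ q : F, Q q) := fun c =>
    (Ideal.Quotient.mk _ (α c), fun q => χ q (ι (α c)))
  have hf : Function.Injective f := by
    intro c d hcd
    have hcd1 : Ideal.Quotient.mk (Ideal.span {(9 : 𝓞 K)}) (α c) = Ideal.Quotient.mk _ (α d) :=
      congrArg Prod.fst hcd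
    have hcd2 : ∀ q : F, χ q (ι (α c)) = χ q (ι (α d)) := fun q =>
      congrFun (congrArg Prod.snd hcd) q
    by_contra hne
    rw [Ideal.Quotient.eq] at hcd1
    set γ : 𝓞 K := α c * α d ^ 2 with hγ
    set b : Ideal (𝓞 K) := I c * I d ^ 2 with hb
    have hb0 : b ≠ ⊥ := mul_ne_zero (hI0 c) (pow_ne_zero 2 (hI0 d))
    have hγb : Ideal.span {γ} = b ^ 3 := by
      rw [hγ, hb, ← Ideal.span_singleton_mul_span_singleton, ← Ideal.span_singleton_pow, hα, hα]
      ring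
    have hγb' : Ideal.span {ι γ} = (b.map ι) ^ 3 := by
      rw [← Ideal.map_pow, ← hγb, Ideal.map_span, Set.image_singleton]
    -- `γ` is not a cube in `K'`
    have hncube : ∀ z : K', z ^ 3 ≠ ((ι γ : 𝓞 K') : K') := by
      intro z hz
      have hzint : IsIntegral (𝓞 K') z := by
        refine ⟨Polynomial.X ^ 3 - Polynomial.C (ι γ), Polynomial.monic_X_pow_sub_C _ (by norm_num), ?_⟩
        simp only [Polynomial.eval₂_sub, Polynomial.eval₂_pow, Polynomial.eval₂_X,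
          Polynomial.eval₂_C]
        rw [hz, sub_self]
      obtain ⟨z', rfl⟩ := IsIntegrallyClosed.isIntegral_iff.mp hzint
      have hz' : z' ^ 3 = ι γ := by
        apply FaithfulSMul.algebraMap_injective (𝓞 K') K'
        rw [map_pow]
        exact hz
      have hz0 : z' ≠ 0 := by
        rintro rfl
        rw [zero_pow (by norm_num), eq_comm, map_eq_zero_iff ι hιinj] at hz'
        exact mul_ne_zero (hα0 c) (pow_ne_zero 2 (hα0 d)) hz'
      have h5 : (Ideal.span {z'}) ^ 3 = (b.map ι) ^ 3 := by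
        rw [Ideal.span_singleton_pow, hz', hγb']
      have h6 : Ideal.span {z'} = b.map ι := pow_left_injective (by norm_num : (3 : ℕ) ≠ 0) h5
      have h7 : j (cls b) = 1 := by
        rw [hj, cls_map hb0, ← h6, cls_span hz0]
      have h8 := nrm_extR (M := K) (L := K') (cls b)
      rw [← hj, h7, map_one, h2] at h8
      have h9 : (cls b) ^ 3 = 1 := by
        rw [hb, cls_mul (hI0 c) (pow_ne_zero 2 (hI0 d)), cls_pow (hI0 d), hIc, hIc, mul_pow, c.2,
          ← pow_mul, mul_comm 2 3, pow_mul, d.2, one_pow, one_mul]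
      have h10 : cls b = 1 := by
        have : cls b = (cls b) ^ 3 * ((cls b) ^ 2)⁻¹ := by
          rw [pow_succ (cls b) 2, mul_comm ((cls b) ^ 2) (cls b), mul_inv_cancel_right]
        rw [this, h9, ← h8, one_mul, inv_one]
      rw [hb, cls_mul (hI0 c) (pow_ne_zero 2 (hI0 d)), cls_pow (hI0 d), hIc, hIc] at h10
      apply hne
      apply Subtype.ext
      have h11 : c.1 * d.1 ^ 2 * d.1 = d.1 := by rw [h10, one_mul]
      rw [mul_assoc, ← pow_succ, d.2, mul_one] at h11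
      exact h11
    -- prime to 3
    have hγ3 : ∀ q : Ideal (𝓞 K'), q.IsPrime → (3 : 𝓞 K') ∈ q → ι γ ∉ q := by
      intro q hq h3 hγq
      have h5 : (q.comap ι).IsPrime := Ideal.IsPrime.comap ι
      have h6 : (3 : 𝓞 K) ∈ q.comap ι := by rw [Ideal.mem_comap, map_ofNat]; exact h3
      have h7 : γ ∈ q.comap ι := hγq
      rcases h5.mem_or_mem h7 with h8 | h8
      · exact hαq c _ h5 h6 h8
      · exact hαq d _ h5 h6 (h5.mem_of_pow_mem 2 h8)
    have hc9 : ι γ - (ι (α d)) ^ 3 ∈ Ideal.span {(9 : 𝓞 K')} := by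
      obtain ⟨e, he⟩ := Ideal.mem_span_singleton.mp hcd1
      rw [Ideal.mem_span_singleton]
      refine ⟨ι (e * α d ^ 2), ?_⟩
      have h5 : γ - α d ^ 3 = 9 * (e * α d ^ 2) := by
        rw [hγ]
        linear_combination (α d ^ 2) * he
      rw [← map_pow, ← map_sub, h5, map_mul]
      have : ι 9 = 9 := map_ofNat ι 9
      rw [this]
    obtain ⟨H, hHtop, hH3, hHq⟩ := star hω hncube hγb' hγ3 hc9
    apply hHtop
    rw [eq_top_iff, ← hF2]
    -- the image of the class group of `K`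
    have hcomap : H.comap j = ⊤ := by
      apply gen_two K K' h2 hω hK hm0
      · intro x
        rw [Subgroup.mem_comap, map_pow]
        exact hH3 _
      · intro P hP hP0 hPN hmP
        rw [Subgroup.mem_comap, hj, cls_map hP0]
        apply cls_mem_of_primes H _ (map_ne_bot' hP0)
        intro q hq hq0 hPq
        have hPq' : P ≤ q.comap ι := Ideal.map_le_iff_le_comap.mp hPq
        have hPeq : P = q.comap ι := by
          have hmaxP := hP.isMaximal hP0
          exact hmaxP.eq_of_le (Ideal.IsPrime.comap ι).ne_top hPq'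
        have hιmq : ι m ∉ q := by
          intro h
          apply hmP
          rw [hPeq, Ideal.mem_comap]
          exact h
        obtain ⟨y, hy⟩ := cube_mod_of_norm hP hP0 hPN γ
        refine hHq q hq hq0 (h3m q hιmq) ?_ ⟨ι y, ?_⟩
        · rw [hγ, map_mul, map_pow]
          intro h
          rcases hq.mem_or_mem h with h5 | h5
          · exact hαm c q hιmq h5
          · exact hαm d q hιmq (hq.mem_of_pow_mem 2 h5)
        · have h5 := hPq' hy
          rw [Ideal.mem_comap, map_sub, map_pow] at h5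
          exact h5
    have hjH : j.range ≤ H := by
      rintro _ ⟨x, rfl⟩
      have : x ∈ H.comap j := by rw [hcomap]; trivial
      exact this
    refine sup_le (sup_le hjH ?_) ?_
    · rintro _ ⟨x, rfl⟩
      exact hH3 x
    · rw [Subgroup.closure_le]
      rintro _ ⟨q, hqF, rfl⟩
      obtain ⟨h5, h6, h7⟩ := hF1 q hqF
      have hc' := hαm c q h7
      have hd' := hαm d q h7
      obtain ⟨u, hu⟩ := hχ ⟨q, hqF⟩ _ _ hc' hd' (hcd2 ⟨q, hqF⟩)
      refine hHq q h5 h6 (h3m q h7) ?_ ⟨ι (α d) * u, ?_⟩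
      · rw [hγ, map_mul, map_pow]
        intro h
        rcases h5.mem_or_mem h with h8 | h8
        · exact hc' h8
        · exact hd' (h5.mem_of_pow_mem 2 h8)
      · have h8 : ι γ - (ι (α d) * u) ^ 3 = (ι (α c) - ι (α d) * u ^ 3) * (ι (α d)) ^ 2 := by
          rw [hγ, map_mul, map_pow]
          ring
        rw [h8]
        exact Ideal.mul_mem_right _ _ hu
  have h1 := Nat.card_le_card_of_injective f hf
  rw [Nat.card_prod, hcard9, Nat.card_pi] at h1
  refine h1.trans (Nat.mul_le_mul_left _ ?_)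
  calc ∏ q : F, Nat.card (Q q) ≤ ∏ _q : F, 3 := Finset.prod_le_prod' (fun q _ => hQ q)
    _ = 3 ^ F.card := by rw [Finset.prod_const, Finset.card_univ, Fintype.card_coe]
    _ ≤ S.index := hF3

/-- Reflection: the 3-torsion of the class group in a quadratic extension by cube roots of unity. -/
theorem reflection (h2 : finrank K K' = 2) {ω : 𝓞 K'} (hω : ω ^ 2 + ω + 1 = 0)
    (hK : ∀ z : K, z ^ 2 + z + 1 ≠ 0) :
    Nat.card {x : ClassGroup (𝓞 K) // x ^ 3 = 1} ^ 2 ≤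
      9 ^ (finrank ℚ K) * Nat.card {x : ClassGroup (𝓞 K') // x ^ 3 = 1} := by
  have h1 := card_le_index (K := K) (K' := K') h2 hω hK
  have h3 := card_tors_ge (ClassGroup.extendedHom (𝓞 K) (𝓞 K'))
    (idMap_relNorm (K := K) (L := K')).cl (fun x => by rw [nrm_extR, h2])
  calc Nat.card {x : ClassGroup (𝓞 K) // x ^ 3 = 1} ^ 2
      = Nat.card {x : ClassGroup (𝓞 K) // x ^ 3 = 1} *
        Nat.card {x : ClassGroup (𝓞 K) // x ^ 3 = 1} := sq _
    _ ≤ Nat.card {x : ClassGroup (𝓞 K) // x ^ 3 = 1} * _ := Nat.mul_le_mul_left _ h1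
    _ = 9 ^ (finrank ℚ K) * (Nat.card {x : ClassGroup (𝓞 K) // x ^ 3 = 1} * _) := by
        rw [mul_left_comm]
    _ ≤ _ := Nat.mul_le_mul_left _ h3

end Pool.Agent.Lib.MP_695920_nt.Refl
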