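import Mathlib
import Pool.Agent.Lib.MP_695920_nt.Mertens
import Pool.Agent.Lib.MP_695920_nt.RealChar

/-!
# Primes congruent to 2 modulo 3
-/

set_option autoImplicit false

open Finset ArithmeticFunction
open scoped ArithmeticFunction.zeta

namespace Pool.Agent.Lib.MP_695920_nt.Refl

/-- the nontrivial character modulo `3` -/
noncomputable def tmChi (n : ℕ) : ℝ := if n % 3 = 1 then 1 else if n % 3 = 2 then -1 else 0

lemma tmChi_of_one {n : ℕ} (h : n % 3 = 1) : tmChi n = 1 := by
  unfold tmChi; rw [if_pos h]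

lemma tmChi_of_two {n : ℕ} (h : n % 3 = 2) : tmChi n = -1 := by
  unfold tmChi; rw [if_neg (by omega), if_pos h]

lemma tmChi_of_zero {n : ℕ} (h : n % 3 = 0) : tmChi n = 0 := by
  unfold tmChi; rw [if_neg (by omega), if_neg (by omega)]

lemma tmChi_cases (n : ℕ) : n % 3 = 0 ∨ n % 3 = 1 ∨ n % 3 = 2 := by omega

lemma tmChi_mul (a b : ℕ) : tmChi (a * b) = tmChi a * tmChi b := by
  have hm : (a * b) % 3 = ((a % 3) * (b % 3)) % 3 := Nat.mul_mod a b 3
  rcases tmChi_cases a with ha | ha | ha <;> rcases tmChi_cases b with hb | hb | hb <;>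
    rw [ha, hb] at hm <;> norm_num at hm
  · rw [tmChi_of_zero ha, tmChi_of_zero hm]; ring
  · rw [tmChi_of_zero ha, tmChi_of_zero hm]; ring
  · rw [tmChi_of_zero ha, tmChi_of_zero hm]; ring
  · rw [tmChi_of_one ha, tmChi_of_zero hb, tmChi_of_zero hm]; ring
  · rw [tmChi_of_one ha, tmChi_of_one hb, tmChi_of_one hm]; ring
  · rw [tmChi_of_one ha, tmChi_of_two hb, tmChi_of_two hm]; ring
  · rw [tmChi_of_two ha, tmChi_of_zero hb, tmChi_of_zero hm]; ring
  · rw [tmChi_of_two ha, tmChi_of_one hb, tmChi_of_two hm]; ring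
  · rw [tmChi_of_two ha, tmChi_of_two hb, tmChi_of_one hm]; ring

lemma tmChi_sum (N : ℕ) : ∑ n ∈ Ioc 0 N, tmChi n = if N % 3 = 1 then 1 else 0 := by
  induction N with
  | zero => simp
  | succ N ih =>
    rw [Finset.sum_Ioc_succ_top (Nat.zero_le _), ih]
    rcases tmChi_cases N with h | h | h
    · rw [if_neg (by omega), if_pos (by omega), tmChi_of_one (by omega)]; norm_num
    · rw [if_pos h, if_neg (by omega), tmChi_of_two (by omega)]; norm_num
    · rw [if_neg (by omega), if_neg (by omega), tmChi_of_zero (by omega)]; norm_num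

lemma tmChi_isRC : IsRC tmChi 3 where
  zero := tmChi_of_zero (by norm_num)
  one := tmChi_of_one (by norm_num)
  mul := tmChi_mul
  val n := by
    rcases tmChi_cases n with h | h | h
    · left; exact tmChi_of_zero h
    · right; left; exact tmChi_of_one h
    · right; right; exact tmChi_of_two h
  ram p hp h := by
    rcases tmChi_cases p with h' | h' | h'
    · have := (Nat.prime_dvd_prime_iff_eq Nat.prime_three hp).mp (Nat.dvd_of_mod_eq_zero h')
      rw [this]
    · rw [tmChi_of_one h'] at h; norm_num at h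
    · rw [tmChi_of_two h'] at h; norm_num at h
  pos := by norm_num
  sum N := by
    rw [tmChi_sum]
    split_ifs <;> norm_num

lemma tmChi_abs_le (n : ℕ) : |tmChi n| ≤ 1 := by
  rcases tmChi_isRC.val n with h | h | h <;> rw [h] <;> norm_num

/-- partial sums of `L(1, χ)` -/
noncomputable def tmA (N : ℕ) : ℝ := ∑ n ∈ Ioc 0 N, tmChi n * (1 / (n : ℝ))

lemma tmA_succ (N : ℕ) : tmA (N + 1) = tmA N + tmChi (N + 1) * (1 / ((N + 1 : ℕ) : ℝ)) := by
  unfold tmA
  rw [Finset.sum_Ioc_succ_top (Nat.zero_le _)]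

lemma tmA_lower (N : ℕ) (hN : 2 ≤ N) :
    1 / 2 ≤ tmA N ∧ (N % 3 = 1 → 1 / 2 + 1 / (N : ℝ) ≤ tmA N) := by
  induction N, hN using Nat.le_induction with
  | base =>
    have h : tmA 2 = 1 / 2 := by
      rw [tmA_succ, tmA_succ]
      rw [tmChi_of_one (n := 0 + 1) (by norm_num), tmChi_of_two (n := 1 + 1) (by norm_num)]
      unfold tmA
      norm_num
    rw [h]
    refine ⟨le_rfl, fun h' => ?_⟩
    norm_num at h'
  | succ N hN ih =>
    rw [tmA_succ]
    have hN0 : (0 : ℝ) < N := by exact_mod_cast (by omega : 0 < N)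
    have hN1 : (0 : ℝ) < 1 / ((N + 1 : ℕ) : ℝ) := by positivity
    rcases tmChi_cases N with h | h | h
    · rw [tmChi_of_one (by omega)]
      constructor
      · linarith [ih.1]
      · intro _
        linarith [ih.1]
    · rw [tmChi_of_two (by omega)]
      have h1 := ih.2 h
      have h2 : 1 / ((N + 1 : ℕ) : ℝ) ≤ 1 / (N : ℝ) := by
        apply one_div_le_one_div_of_le hN0
        push_cast; linarith
      constructor
      · linarith
      · intro h'
        omega
    · rw [tmChi_of_zero (by omega)]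
      constructor
      · linarith [ih.1]
      · intro h'
        omega

lemma tmA_ge (N : ℕ) (hN : 1 ≤ N) : 1 / 2 ≤ tmA N := by
  rcases Nat.lt_or_ge N 2 with h | h
  · have h1 : N = 1 := by omega
    subst h1
    rw [tmA_succ, tmChi_of_one (n := 0 + 1) (by norm_num)]
    unfold tmA
    norm_num
  · exact (tmA_lower N h).1

lemma tmA_diff {M N : ℕ} (h : M ≤ N) : |tmA N - tmA M| ≤ 6 * (1 / ((M + 1 : ℕ) : ℝ)) := by
  have h1 : tmA M + ∑ a ∈ Ioc M N, tmChi a * (1 / (a : ℝ)) = tmA N :=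
    Finset.sum_Ioc_consecutive _ (Nat.zero_le _) h
  have h2 := tmChi_isRC.abel (fun a => 1 / (a : ℝ)) (by
      intro a b ha hab
      apply one_div_le_one_div_of_le (by exact_mod_cast ha)
      exact_mod_cast hab) (by intro a; positivity) M N h
  have h3 : tmA N - tmA M = ∑ a ∈ Ioc M N, tmChi a * (1 / (a : ℝ)) := by linarith
  rw [h3]
  refine h2.trans (le_of_eq ?_)
  norm_num

/-- the convolution factor `χ vonMangoldt / n` -/
noncomputable def tmF : ArithmeticFunction ℝ := ⟨fun n => tmChi n * (vonMangoldt n / n), by simp⟩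

/-- the convolution factor `χ / n` -/
noncomputable def tmG : ArithmeticFunction ℝ := ⟨fun n => tmChi n * (1 / n), by simp⟩

lemma tmF_mul_tmG (n : ℕ) : (tmF * tmG) n = tmChi n * (Real.log n / n) := by
  rcases Nat.eq_zero_or_pos n with h0 | hn
  · subst h0
    simp
  rw [mul_apply]
  have h1 : ∀ x ∈ n.divisorsAntidiagonal, tmF x.1 * tmG x.2 = (tmChi n / n) * vonMangoldt x.1 := by
    intro x hx
    obtain ⟨hx1, hx2⟩ := Nat.mem_divisorsAntidiagonal.mp hx
    have e1 : (x.1 : ℝ) ≠ 0 := by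
      have : x.1 ≠ 0 := fun h0 => hx2 (by rw [← hx1, h0, zero_mul])
      exact_mod_cast this
    have e2 : (x.2 : ℝ) ≠ 0 := by
      have : x.2 ≠ 0 := fun h0 => hx2 (by rw [← hx1, h0, mul_zero])
      exact_mod_cast this
    change tmChi x.1 * (vonMangoldt x.1 / x.1) * (tmChi x.2 * (1 / x.2)) = _
    rw [← hx1, tmChi_mul]
    push_cast
    field_simp
  rw [Finset.sum_congr rfl h1, ← Finset.mul_sum]
  have h2 : ∑ x ∈ n.divisorsAntidiagonal, vonMangoldt x.1 = Real.log n := by
    rw [Nat.sum_divisorsAntidiagonal (fun i _ => (vonMangoldt i : ℝ)), vonMangoldt_sum]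
  rw [h2]
  ring

lemma tm_logsum (N : ℕ) : |∑ n ∈ Ioc 0 N, tmChi n * (Real.log n / n)| ≤ 12 := by
  have h1 := tmChi_isRC.abel (fun a => (Real.log a + 1) / (a : ℝ)) (by
      intro a b ha hab
      have ha0 : (0 : ℝ) < a := by exact_mod_cast ha
      have hb0 : (0 : ℝ) < b := by exact_mod_cast (lt_of_lt_of_le ha hab)
      have hab' : (a : ℝ) ≤ b := by exact_mod_cast hab
      have hla : 0 ≤ Real.log a := Real.log_nonneg (by exact_mod_cast ha)
      rw [div_le_div_iff₀ hb0 ha0]
      have h2 : Real.log b - Real.log a ≤ b / a - 1 := by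
        rw [← Real.log_div hb0.ne' ha0.ne']
        exact Real.log_le_sub_one_of_pos (by positivity)
      have h3 : (a : ℝ) * (Real.log b - Real.log a) ≤ b - a := by
        calc (a : ℝ) * (Real.log b - Real.log a) ≤ a * (b / a - 1) :=
              mul_le_mul_of_nonneg_left h2 ha0.le
          _ = b - a := by field_simp
      nlinarith) (by
      intro a
      rcases Nat.eq_zero_or_pos a with h0 | h0
      · subst h0; simp
      · have := Real.log_nonneg (show (1 : ℝ) ≤ a by exact_mod_cast h0)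
        positivity) 0 N (Nat.zero_le _)
  have h2 := tmChi_isRC.abel (fun a => 1 / (a : ℝ)) (by
      intro a b ha hab
      apply one_div_le_one_div_of_le (by exact_mod_cast ha)
      exact_mod_cast hab) (by intro a; positivity) 0 N (Nat.zero_le _)
  have h3 : ∑ n ∈ Ioc 0 N, tmChi n * (Real.log n / n) =
      ∑ n ∈ Ioc 0 N, tmChi n * ((Real.log n + 1) / n) - ∑ n ∈ Ioc 0 N, tmChi n * (1 / (n : ℝ)) := by
    rw [← Finset.sum_sub_distrib]
    refine Finset.sum_congr rfl fun n _ => ?_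
    ring
  rw [h3]
  norm_num at h1 h2
  rw [abs_le] at *
  norm_num
  constructor <;> linarith

/-- the von Mangoldt sum with the character -/
noncomputable def tmX (N : ℕ) : ℝ := ∑ n ∈ Ioc 0 N, tmChi n * (vonMangoldt n / n)

lemma tm_psi_le (N : ℕ) : ∑ n ∈ Ioc 0 N, vonMangoldt n ≤ 6 * N := by
  have h1 := Chebyshev.psi_le_const_mul_self (x := (N : ℝ)) (Nat.cast_nonneg _)
  unfold Chebyshev.psi at h1
  rw [Nat.floor_natCast] at h1
  refine h1.trans ?_
  apply mul_le_mul_of_nonneg_right _ (Nat.cast_nonneg _)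
  have : Real.log 4 ≤ 2 := by
    have h2 : Real.log 4 = 2 * Real.log 2 := by
      rw [show (4 : ℝ) = 2 ^ 2 by norm_num, Real.log_pow]
      norm_num
    rw [h2]
    have := Real.log_two_lt_d9
    linarith
  linarith

lemma tmX_abs_le (N : ℕ) (hN : 1 ≤ N) : |tmX N| ≤ 96 := by
  have hN0 : (0 : ℝ) < N := by exact_mod_cast hN
  have h1 : ∑ n ∈ Ioc 0 N, tmChi n * (Real.log n / n) =
      ∑ d ∈ Ioc 0 N, tmF d * tmA (N / d) := by
    rw [← Finset.sum_congr rfl (fun n _ => tmF_mul_tmG n), sum_Ioc_mul_eq_sum_sum]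
    rfl
  have h2 : tmX N * tmA N - ∑ d ∈ Ioc 0 N, tmF d * tmA (N / d) =
      ∑ d ∈ Ioc 0 N, tmF d * (tmA N - tmA (N / d)) := by
    unfold tmX
    rw [Finset.sum_mul, ← Finset.sum_sub_distrib]
    refine Finset.sum_congr rfl fun d _ => ?_
    change tmF d * _ - _ = _
    ring
  have h3 : |∑ d ∈ Ioc 0 N, tmF d * (tmA N - tmA (N / d))| ≤ 36 := by
    refine (Finset.abs_sum_le_sum_abs _ _).trans ?_
    have h4 : ∀ d ∈ Ioc 0 N, |tmF d * (tmA N - tmA (N / d))| ≤ (6 / N) * vonMangoldt d := by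
      intro d hd
      rw [mem_Ioc] at hd
      have hd0 : (0 : ℝ) < d := by exact_mod_cast hd.1
      have h5 : |tmF d| ≤ vonMangoldt d / d := by
        change |tmChi d * (vonMangoldt d / d)| ≤ vonMangoldt d / d
        rw [abs_mul]
        have h6 : 0 ≤ vonMangoldt d / (d : ℝ) := div_nonneg vonMangoldt_nonneg hd0.le
        rw [abs_of_nonneg h6]
        exact mul_le_of_le_one_left h6 (tmChi_abs_le d)
      have h7 : |tmA N - tmA (N / d)| ≤ 6 * (d / N) := by
        refine (tmA_diff (Nat.div_le_self N d)).trans ?_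
        apply mul_le_mul_of_nonneg_left _ (by norm_num)
        rw [div_le_div_iff₀ (by positivity) hN0, one_mul]
        have h8 : N ≤ d * (N / d + 1) := by
          have := Nat.div_add_mod N d
          have := Nat.mod_lt N hd.1
          rw [mul_add, mul_one]
          omega
        exact_mod_cast h8
      rw [abs_mul]
      calc |tmF d| * |tmA N - tmA (N / d)| ≤ (vonMangoldt d / d) * (6 * (d / N)) :=
            mul_le_mul h5 h7 (abs_nonneg _) (div_nonneg vonMangoldt_nonneg hd0.le)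
        _ = (6 / N) * vonMangoldt d := by field_simp
    refine (Finset.sum_le_sum h4).trans ?_
    rw [← Finset.mul_sum]
    calc (6 / (N : ℝ)) * ∑ d ∈ Ioc 0 N, vonMangoldt d ≤ (6 / N) * (6 * N) :=
          mul_le_mul_of_nonneg_left (tm_psi_le N) (by positivity)
      _ = 36 := by field_simp; norm_num
  have h4 := tm_logsum N
  rw [h1] at h4
  have h5 := tmA_ge N hN
  have h6 : |tmX N * tmA N| ≤ 48 := by
    have h7 : tmX N * tmA N = ∑ d ∈ Ioc 0 N, tmF d * (tmA N - tmA (N / d)) +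
        ∑ d ∈ Ioc 0 N, tmF d * tmA (N / d) := by linarith
    rw [h7]
    refine (abs_add_le _ _).trans ?_
    linarith
  rw [abs_mul, abs_of_nonneg (by linarith : (0 : ℝ) ≤ tmA N)] at h6
  nlinarith [abs_nonneg (tmX N)]

/-- Mertens upper bound with prime powers -/
lemma tm_mertens (N : ℕ) (hN : 1 ≤ N) : ∑ n ∈ Ioc 0 N, vonMangoldt n / n ≤ Real.log N + 6 := by
  have hN0 : (0 : ℝ) < N := by exact_mod_cast hN
  have h1 : ∑ n ∈ Ioc 0 N, Real.log n = ∑ n ∈ Ioc 0 N, vonMangoldt n * ((N / n : ℕ) : ℝ) := by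
    rw [← sum_Ioc_mul_zeta_eq_sum]
    refine Finset.sum_congr rfl fun n _ => ?_
    rw [vonMangoldt_mul_zeta, log_apply]
  have h2 : ∑ n ∈ Ioc 0 N, Real.log n ≤ N * Real.log N := by
    refine (Finset.sum_le_card_nsmul _ _ (Real.log N) ?_).trans ?_
    · intro n hn
      rw [mem_Ioc] at hn
      exact Real.log_le_log (by exact_mod_cast hn.1) (by exact_mod_cast hn.2)
    · simp
  have h3 : N * ∑ n ∈ Ioc 0 N, vonMangoldt n / n - ∑ n ∈ Ioc 0 N, vonMangoldt n ≤
      ∑ n ∈ Ioc 0 N, vonMangoldt n * ((N / n : ℕ) : ℝ) := by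
    rw [Finset.mul_sum, ← Finset.sum_sub_distrib]
    refine Finset.sum_le_sum fun n hn => ?_
    rw [mem_Ioc] at hn
    have hn0 : (0 : ℝ) < n := by exact_mod_cast hn.1
    have h5 : (N : ℝ) / n ≤ ((N / n : ℕ) : ℝ) + 1 := by
      have := Nat.lt_div_mul_add (a := N) hn.1
      have h6 : (N : ℝ) < ((N / n : ℕ) : ℝ) * n + n := by exact_mod_cast this
      rw [div_le_iff₀ hn0]
      linarith
    have h6 : (0 : ℝ) ≤ vonMangoldt n := vonMangoldt_nonneg
    have h7 : (N : ℝ) * (vonMangoldt n / n) = vonMangoldt n * (N / n) := by ring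
    rw [h7]
    nlinarith
  have h4 := tm_psi_le N
  have h5 : (N : ℝ) * ∑ n ∈ Ioc 0 N, vonMangoldt n / n ≤ N * (Real.log N + 6) := by
    nlinarith
  exact le_of_mul_le_mul_left h5 hN0

lemma tm_mert_eq (N : ℕ) : mert N = ∑ p ∈ (Ioc 0 N).filter Nat.Prime, vonMangoldt p / p := by
  unfold mert
  have h1 : (Icc 0 N).filter Nat.Prime = (Ioc 0 N).filter Nat.Prime := by
    ext p
    simp only [mem_filter, mem_Icc, mem_Ioc]
    constructor
    · rintro ⟨h, hp⟩
      exact ⟨⟨hp.pos, h.2⟩, hp⟩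
    · rintro ⟨h, hp⟩
      exact ⟨⟨Nat.zero_le _, h.2⟩, hp⟩
  rw [h1]
  refine Finset.sum_congr rfl fun p hp => ?_
  rw [vonMangoldt_apply_prime (mem_filter.mp hp).2]

lemma tm_nonprime (N : ℕ) (hN : 1 ≤ N) :
    ∑ n ∈ (Ioc 0 N).filter (fun n => ¬ n.Prime), vonMangoldt n / (n : ℝ) ≤ 9 := by
  have h1 := Finset.sum_filter_add_sum_filter_not (Ioc 0 N) Nat.Prime (fun n => vonMangoldt n / (n : ℝ))
  have h2 := tm_mertens N hN
  have h3 := mert_ge N hN
  rw [tm_mert_eq] at h3
  linarith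

/-- the prime sum with the character -/
noncomputable def tmP (N : ℕ) : ℝ := ∑ p ∈ (Ioc 0 N).filter Nat.Prime, tmChi p * (Real.log p / p)

lemma tmP_abs_le (N : ℕ) (hN : 1 ≤ N) : |tmP N| ≤ 105 := by
  have h1 := Finset.sum_filter_add_sum_filter_not (Ioc 0 N) Nat.Prime
    (fun n => tmChi n * (vonMangoldt n / (n : ℝ)))
  have h2 : ∑ p ∈ (Ioc 0 N).filter Nat.Prime, tmChi p * (vonMangoldt p / (p : ℝ)) = tmP N := by
    unfold tmP
    refine Finset.sum_congr rfl fun p hp => ?_
    rw [vonMangoldt_apply_prime (mem_filter.mp hp).2]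
  have h3 : |∑ n ∈ (Ioc 0 N).filter (fun n => ¬ n.Prime), tmChi n * (vonMangoldt n / (n : ℝ))| ≤ 9 := by
    refine (Finset.abs_sum_le_sum_abs _ _).trans (le_trans (Finset.sum_le_sum fun n _ => ?_)
      (tm_nonprime N hN))
    rw [abs_mul]
    have h6 : 0 ≤ vonMangoldt n / (n : ℝ) := div_nonneg vonMangoldt_nonneg (Nat.cast_nonneg _)
    rw [abs_of_nonneg h6]
    exact mul_le_of_le_one_left h6 (tmChi_abs_le n)
  have h4 := tmX_abs_le N hN
  rw [h2] at h1
  have h5 : tmP N = tmX N -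
      ∑ n ∈ (Ioc 0 N).filter (fun n => ¬ n.Prime), tmChi n * (vonMangoldt n / (n : ℝ)) := by
    unfold tmX
    linarith
  rw [h5]
  refine (abs_sub _ _).trans ?_
  linarith

lemma tm_interval {y x : ℕ} (hy : 1 ≤ y) (hyx : y ≤ x) :
    Real.log x - Real.log y - 217 ≤
      2 * ∑ p ∈ (Ioc y x).filter (fun p : ℕ => p.Prime ∧ p % 3 = 2), Real.log p / p := by
  have hx : 1 ≤ x := hy.trans hyx
  have hm1 := mert_ge x hx
  have hm2 := mert_le y hy
  have hp1 := abs_le.mp (tmP_abs_le x hx)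
  have hp2 := abs_le.mp (tmP_abs_le y hy)
  -- differences
  have hsplit : ∀ f : ℕ → ℝ, ∑ p ∈ (Ioc 0 x).filter Nat.Prime, f p =
      ∑ p ∈ (Ioc 0 y).filter Nat.Prime, f p + ∑ p ∈ (Ioc y x).filter Nat.Prime, f p := by
    intro f
    rw [Finset.sum_filter, Finset.sum_filter, Finset.sum_filter]
    exact (Finset.sum_Ioc_consecutive _ (Nat.zero_le _) hyx).symm
  have e1 := hsplit (fun p => vonMangoldt p / (p : ℝ))
  rw [← tm_mert_eq, ← tm_mert_eq] at e1
  have e2 := hsplit (fun p => tmChi p * (Real.log p / p))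
  change tmP x = tmP y + _ at e2
  have e3 : ∑ p ∈ (Ioc y x).filter Nat.Prime, vonMangoldt p / (p : ℝ) =
      ∑ p ∈ (Ioc y x).filter Nat.Prime, Real.log p / p := by
    refine Finset.sum_congr rfl fun p hp => ?_
    rw [vonMangoldt_apply_prime (mem_filter.mp hp).2]
  rw [e3] at e1
  -- compare
  have key : ∑ p ∈ (Ioc y x).filter Nat.Prime, Real.log p / p -
      ∑ p ∈ (Ioc y x).filter Nat.Prime, tmChi p * (Real.log p / p) ≤
      2 * ∑ p ∈ (Ioc y x).filter (fun p : ℕ => p.Prime ∧ p % 3 = 2), Real.log p / p + 1 := by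
    rw [← Finset.sum_sub_distrib]
    have h1 : ∑ p ∈ (Ioc y x).filter (fun p : ℕ => p.Prime ∧ p % 3 = 2), Real.log p / (p : ℝ) =
        ∑ p ∈ (Ioc y x).filter Nat.Prime, (if p % 3 = 2 then Real.log p / (p : ℝ) else 0) := by
      rw [← Finset.filter_filter]
      exact Finset.sum_filter _ _
    rw [h1, Finset.mul_sum]
    have h2 : ∀ p ∈ (Ioc y x).filter Nat.Prime,
        Real.log p / (p : ℝ) - tmChi p * (Real.log p / p) ≤
          2 * (if p % 3 = 2 then Real.log p / (p : ℝ) else 0) + (if p = 3 then 1 else 0) := by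
      intro p hp
      have hpp := (mem_filter.mp hp).2
      rcases tmChi_cases p with h | h | h
      · have h3 : 3 = p := (Nat.prime_dvd_prime_iff_eq Nat.prime_three hpp).mp
          (Nat.dvd_of_mod_eq_zero h)
        rw [tmChi_of_zero h, if_neg (by omega), if_pos h3.symm, ← h3]
        have h4 : Real.log (3 : ℕ) ≤ 3 := by
          have := Real.log_le_sub_one_of_pos (x := ((3 : ℕ) : ℝ)) (by norm_num)
          push_cast at this ⊢
          linarith
        have h5 : Real.log (3 : ℕ) / ((3 : ℕ) : ℝ) ≤ 1 := by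
          rw [div_le_one (by norm_num)]
          push_cast at h4 ⊢
          linarith
        linarith
      · rw [tmChi_of_one h, if_neg (by omega), if_neg (by rintro rfl; norm_num at h)]
        linarith
      · rw [tmChi_of_two h, if_pos h, if_neg (by rintro rfl; norm_num at h)]
        linarith
    refine (Finset.sum_le_sum h2).trans ?_
    rw [Finset.sum_add_distrib]
    apply add_le_add le_rfl
    rw [Finset.sum_ite_eq']
    split_ifs <;> norm_num
  have hlog4 : Real.log 4 ≤ 2 := by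
    have h2 : Real.log 4 = 2 * Real.log 2 := by
      rw [show (4 : ℝ) = 2 ^ 2 by norm_num, Real.log_pow]
      norm_num
    rw [h2]
    have := Real.log_two_lt_d9
    linarith
  linarith

theorem many_two_mod_three (ε : ℝ) (hε : 0 < ε) (hε1 : ε < 1) : ∃ c : ℝ, 0 < c ∧ ∀ x : ℝ, 1 ≤ x →
    c * x ^ (1 - ε) ≤
      1 + (((Icc 1 ⌊x⌋₊).filter (fun p : ℕ => p.Prime ∧ p % 3 = 2)).card : ℝ) := by
  refine ⟨min (ε / 4) (Real.exp (-(436 / ε))), lt_min (by positivity) (Real.exp_pos _), ?_⟩
  intro x hx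
  have hx0 : 0 < x := by linarith
  have hpow : 0 < x ^ (1 - ε) := Real.rpow_pos_of_pos hx0 _
  have hpow1 : 1 ≤ x ^ (1 - ε) := Real.one_le_rpow hx (by linarith)
  have hlx : 0 ≤ Real.log x := Real.log_nonneg hx
  rcases le_or_gt (Real.log x) (436 / ε) with hsmall | hbig
  · have h1 : x ^ (1 - ε) ≤ x := by
      calc x ^ (1 - ε) ≤ x ^ (1 : ℝ) := Real.rpow_le_rpow_of_exponent_le hx (by linarith)
        _ = x := Real.rpow_one x
    have h2 : x ≤ Real.exp (436 / ε) := by
      rw [← Real.log_le_iff_le_exp hx0]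
      exact hsmall
    have h3 : min (ε / 4) (Real.exp (-(436 / ε))) * x ^ (1 - ε) ≤
        Real.exp (-(436 / ε)) * Real.exp (436 / ε) :=
      mul_le_mul (min_le_right _ _) (h1.trans h2) hpow.le (Real.exp_pos _).le
    rw [← Real.exp_add, neg_add_cancel, Real.exp_zero] at h3
    have h4 : (0 : ℝ) ≤ (((Icc 1 ⌊x⌋₊).filter (fun p : ℕ => p.Prime ∧ p % 3 = 2)).card : ℝ) :=
      Nat.cast_nonneg _
    linarith
  · set N := ⌊x⌋₊ with hN
    set Y := ⌊x ^ (1 - ε)⌋₊ with hY
    have hY1 : 1 ≤ Y := Nat.le_floor (by push_cast; exact hpow1)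
    have hYN : Y ≤ N := by
      apply Nat.floor_le_floor
      calc x ^ (1 - ε) ≤ x ^ (1 : ℝ) := Real.rpow_le_rpow_of_exponent_le hx (by linarith)
        _ = x := Real.rpow_one x
    have hN1 : 1 ≤ N := hY1.trans hYN
    have hNx : (N : ℝ) ≤ x := Nat.floor_le hx0.le
    have hxN : x < N + 1 := Nat.lt_floor_add_one x
    have hN1' : (1 : ℝ) ≤ N := by exact_mod_cast hN1
    have hlogN : Real.log x - 1 ≤ Real.log N := by
      have h1 : Real.log x ≤ Real.log (2 * N) := Real.log_le_log hx0 (by linarith)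
      rw [Real.log_mul (by norm_num) (by linarith)] at h1
      have := Real.log_two_lt_d9
      linarith
    have hlogY : Real.log Y ≤ (1 - ε) * Real.log x := by
      rw [← Real.log_rpow hx0]
      exact Real.log_le_log (by exact_mod_cast hY1) (Nat.floor_le hpow.le)
    have h1 := tm_interval hY1 hYN
    have h2 : ∑ p ∈ (Ioc Y N).filter (fun p : ℕ => p.Prime ∧ p % 3 = 2), Real.log p / p ≤
        (((Ioc Y N).filter (fun p : ℕ => p.Prime ∧ p % 3 = 2)).card : ℝ) *
          (Real.log x / x ^ (1 - ε)) := by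
      rw [← nsmul_eq_mul]
      apply Finset.sum_le_card_nsmul
      intro p hp
      rw [mem_filter, mem_Ioc] at hp
      obtain ⟨⟨hp1, hp2⟩, hp3, -⟩ := hp
      have hp0 : (0 : ℝ) < p := by exact_mod_cast hp3.pos
      have hp4 : Real.log p ≤ Real.log x := by
        apply Real.log_le_log hp0
        have : (p : ℝ) ≤ N := by exact_mod_cast hp2
        linarith
      have hp5 : x ^ (1 - ε) ≤ p := by
        have h6 : x ^ (1 - ε) < Y + 1 := Nat.lt_floor_add_one _
        have h7 : ((Y + 1 : ℕ) : ℝ) ≤ p := by exact_mod_cast hp1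
        push_cast at h7
        linarith
      exact div_le_div₀ hlx hp4 hpow hp5
    have h3 : (((Ioc Y N).filter (fun p : ℕ => p.Prime ∧ p % 3 = 2)).card : ℝ) ≤
        (((Icc 1 N).filter (fun p : ℕ => p.Prime ∧ p % 3 = 2)).card : ℝ) := by
      have : ((Ioc Y N).filter (fun p : ℕ => p.Prime ∧ p % 3 = 2)).card ≤
          ((Icc 1 N).filter (fun p : ℕ => p.Prime ∧ p % 3 = 2)).card := by
        apply Finset.card_le_card
        apply Finset.filter_subset_filter
        intro p hp
        rw [mem_Ioc] at hp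
        rw [mem_Icc]
        omega
      exact_mod_cast this
    set K : ℝ := (((Icc 1 N).filter (fun p : ℕ => p.Prime ∧ p % 3 = 2)).card : ℝ) with hK
    have hlx0 : 0 < Real.log x := lt_trans (by positivity) hbig
    have h4 : ε * Real.log x - 218 ≤ 2 * (K * (Real.log x / x ^ (1 - ε))) := by
      have h5 : (((Ioc Y N).filter (fun p : ℕ => p.Prime ∧ p % 3 = 2)).card : ℝ) *
          (Real.log x / x ^ (1 - ε)) ≤ K * (Real.log x / x ^ (1 - ε)) :=
        mul_le_mul_of_nonneg_right h3 (by positivity)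
      have h6 : ε * Real.log x = Real.log x - (1 - ε) * Real.log x := by ring
      linarith
    have h5 : 436 < ε * Real.log x := by
      rw [div_lt_iff₀ hε] at hbig
      linarith
    have h6 : ε / 2 * Real.log x ≤ 2 * (K * (Real.log x / x ^ (1 - ε))) := by linarith
    have h7 : ε / 4 * x ^ (1 - ε) ≤ K := by
      have h8 : ε / 2 * Real.log x = 2 * ((ε / 4 * x ^ (1 - ε)) * (Real.log x / x ^ (1 - ε))) := by
        field_simp
        ring
      rw [h8] at h6
      have h9 : 0 < Real.log x / x ^ (1 - ε) := by positivity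
      have h10 := le_of_mul_le_mul_left h6 (by norm_num : (0 : ℝ) < 2)
      exact le_of_mul_le_mul_right h10 h9
    have h8 : min (ε / 4) (Real.exp (-(436 / ε))) * x ^ (1 - ε) ≤ ε / 4 * x ^ (1 - ε) :=
      mul_le_mul_of_nonneg_right (min_le_left _ _) hpow.le
    linarith

end Pool.Agent.Lib.MP_695920_nt.Refl
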