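import Mathlib

/-!
Tent functions and the partition of unity on a lattice (task R4, part 1).
-/

set_option autoImplicit false

open Finset Module
open scoped ENNReal

namespace Pool.Agent.Lib.MP_695920_nt.Refl

/-- the tent function -/
noncomputable def czTent (x : ℝ) : ℝ := max 0 (1 - |x|)

theorem cz_tent_nonneg (x : ℝ) : 0 ≤ czTent x := le_max_left _ _

theorem cz_tent_le_one (x : ℝ) : czTent x ≤ 1 :=
  max_le zero_le_one (by linarith [abs_nonneg x])

theorem cz_tent_lip (x y : ℝ) : |czTent x - czTent y| ≤ |x - y| := by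
  unfold czTent
  have h1 := abs_max_sub_max_le_abs (1 - |x|) (1 - |y|) 0
  rw [max_comm 0, max_comm 0]
  refine h1.trans ?_
  have h2 := abs_abs_sub_abs_le x y
  have h3 : 1 - |x| - (1 - |y|) = -(|x| - |y|) := by ring
  rw [h3, abs_neg]
  exact h2

theorem cz_tent_ne_zero {x : ℝ} (h : czTent x ≠ 0) : |x| < 1 := by
  by_contra hcon
  push Not at hcon
  exact h (max_eq_left (by linarith))

theorem cz_tent_two (t : ℝ) : czTent (((-⌈t⌉ : ℤ) : ℝ) + t) + czTent (((-⌈t⌉ + 1 : ℤ) : ℝ) + t) = 1 := by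
  have h1 := Int.ceil_lt_add_one t
  have h2 := Int.le_ceil t
  push_cast
  unfold czTent
  rw [abs_of_nonpos (by linarith), abs_of_nonneg (by linarith), max_eq_right (by linarith),
    max_eq_right (by linarith)]
  ring

theorem cz_tent_other (t : ℝ) (k : ℤ) (h0 : k ≠ -⌈t⌉) (h1 : k ≠ -⌈t⌉ + 1) :
    czTent ((k : ℝ) + t) = 0 := by
  have hc1 := Int.ceil_lt_add_one t
  have hc2 := Int.le_ceil t
  apply max_eq_left
  rcases lt_or_gt_of_ne h0 with h | h
  · have h3 : k + ⌈t⌉ ≤ -1 := by omega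
    have h4 : (k : ℝ) + ⌈t⌉ ≤ -1 := by exact_mod_cast h3
    rw [abs_of_nonpos (by linarith)]
    linarith
  · have h3 : 2 ≤ k + ⌈t⌉ := by omega
    have h4 : (2 : ℝ) ≤ (k : ℝ) + ⌈t⌉ := by exact_mod_cast h3
    rw [abs_of_nonneg (by linarith)]
    linarith

theorem cz_pi_sum {ι : Type*} [Fintype ι] (t : ι → ℝ) :
    ∑' k : ι → ℤ, ENNReal.ofReal (∏ j, czTent ((k j : ℝ) + t j)) = 1 := by
  classical
  rw [tsum_eq_sum (s := Fintype.piFinset fun j => ({-⌈t j⌉, -⌈t j⌉ + 1} : Finset ℤ))]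
  · rw [← ENNReal.ofReal_sum_of_nonneg fun k _ => Finset.prod_nonneg fun j _ => cz_tent_nonneg _,
      ← Finset.prod_univ_sum (fun j => ({-⌈t j⌉, -⌈t j⌉ + 1} : Finset ℤ))
        (fun j k => czTent ((k : ℝ) + t j))]
    have h : ∀ j : ι, ∑ k ∈ ({-⌈t j⌉, -⌈t j⌉ + 1} : Finset ℤ), czTent ((k : ℝ) + t j) = 1 := by
      intro j
      rw [Finset.sum_pair (by simp)]
      exact cz_tent_two (t j)
    simp [h]
  · intro k hk
    rw [Fintype.mem_piFinset] at hk
    push Not at hk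
    obtain ⟨j, hj⟩ := hk
    rw [Finset.mem_insert, Finset.mem_singleton, not_or] at hj
    rw [Finset.prod_eq_zero (Finset.mem_univ j) (cz_tent_other (t j) (k j) hj.1 hj.2)]
    simp

/-- a product of factors in `[0,1]` is Lipschitz -/
theorem cz_prod_lip {ι : Type*} (s : Finset ι) (f g : ι → ℝ) (hf : ∀ i, 0 ≤ f i ∧ f i ≤ 1)
    (hg : ∀ i, 0 ≤ g i ∧ g i ≤ 1) {δ : ℝ} (hδ : ∀ i, |f i - g i| ≤ δ) :
    |∏ i ∈ s, f i - ∏ i ∈ s, g i| ≤ s.card * δ := by
  classical
  induction s using Finset.induction_on with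
  | empty => simp
  | insert a s ha ih =>
    rw [Finset.prod_insert ha, Finset.prod_insert ha, Finset.card_insert_of_notMem ha]
    have h1 : f a * ∏ i ∈ s, f i - g a * ∏ i ∈ s, g i =
        f a * (∏ i ∈ s, f i - ∏ i ∈ s, g i) + (f a - g a) * ∏ i ∈ s, g i := by ring
    rw [h1]
    refine (abs_add_le _ _).trans ?_
    rw [abs_mul, abs_mul]
    have h2 : |f a| ≤ 1 := by rw [abs_of_nonneg (hf a).1]; exact (hf a).2
    have h3 : |∏ i ∈ s, g i| ≤ 1 := by
      rw [abs_of_nonneg (Finset.prod_nonneg fun i _ => (hg i).1)]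
      exact Finset.prod_le_one (fun i _ => (hg i).1) fun i _ => (hg i).2
    have h4 := hδ a
    have h5 : |f a| * |∏ i ∈ s, f i - ∏ i ∈ s, g i| ≤ 1 * (s.card * δ) :=
      mul_le_mul h2 ih (abs_nonneg _) zero_le_one
    have h6 : |f a - g a| * |∏ i ∈ s, g i| ≤ δ * 1 :=
      mul_le_mul h4 h3 (abs_nonneg _) ((abs_nonneg _).trans h4)
    push_cast
    linarith

/-- a section of the quotient map gives a product decomposition -/
noncomputable def czQuotEquiv {G : Type*} [Group G] (H : Subgroup G) : (G ⧸ H) × H ≃ G where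
  toFun p := p.1.out * p.2
  invFun u := (QuotientGroup.mk u, ⟨(QuotientGroup.mk u : G ⧸ H).out⁻¹ * u,
    QuotientGroup.eq.1 (QuotientGroup.out_eq' _)⟩)
  left_inv p := by
    obtain ⟨q, h⟩ := p
    have h1 : (QuotientGroup.mk (q.out * (h : G)) : G ⧸ H) = q := by
      rw [QuotientGroup.mk_mul_of_mem _ h.2]
      exact QuotientGroup.out_eq' q
    refine Prod.ext h1 (Subtype.ext ?_)
    change (QuotientGroup.mk (q.out * (h : G)) : G ⧸ H).out⁻¹ * (q.out * h) = h
    rw [h1]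
    group
  right_inv u := by
    change (QuotientGroup.mk u : G ⧸ H).out * ((QuotientGroup.mk u : G ⧸ H).out⁻¹ * u) = u
    group

theorem czQuotEquiv_mk {G : Type*} [Group G] (H : Subgroup G) (q : G ⧸ H) (h : H) :
    (QuotientGroup.mk (czQuotEquiv H (q, h)) : G ⧸ H) = q := by
  change (QuotientGroup.mk (q.out * (h : G)) : G ⧸ H) = q
  rw [QuotientGroup.mk_mul_of_mem _ h.2]
  exact QuotientGroup.out_eq' q

/-- sums of functions which factor through a quotient by a finite subgroup -/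
theorem cz_tsum_quot {G : Type*} [Group G] (H : Subgroup G) [Finite H] (g : G ⧸ H → ℝ≥0∞) :
    ∑' u : G, g (QuotientGroup.mk u) = (Nat.card H : ℝ≥0∞) * ∑' q, g q := by
  classical
  rw [← (czQuotEquiv H).tsum_eq, ENNReal.tsum_prod', ← ENNReal.tsum_mul_left]
  refine tsum_congr fun q => ?_
  rw [tsum_congr fun h => by rw [czQuotEquiv_mk]]
  have := Fintype.ofFinite H
  rw [tsum_fintype, Finset.sum_const, Finset.card_univ, nsmul_eq_mul, Nat.card_eq_fintype_card]

end Pool.Agent.Lib.MP_695920_nt.Refl
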