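import Pool.Agent.Lib.MP_695920_nt.Refl.CZ1

/-!
The weight on the mixed space and its sum over the units (task R4, part 2).
-/

set_option autoImplicit false

open Finset Module NumberField
open scoped ENNReal

namespace Pool.Agent.Lib.MP_695920_nt.Refl

open NumberField.mixedEmbedding NumberField.Units NumberField.Units.dirichletUnitTheorem

variable (K : Type*) [Field K] [NumberField K]

open scoped Classical in
/-- the basis of the logarithmic space given by the fundamental units -/
noncomputable def czB : Basis (Fin (Units.rank K)) ℝ (logSpace K) :=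
  (basisUnitLattice K).ofZLatticeBasis ℝ _

/-- the weight -/
noncomputable def czW (x : mixedSpace K) : ℝ := ∏ j, czTent ((czB K).repr (logMap x) j)

variable {K}

theorem cz_W_nonneg (x : mixedSpace K) : 0 ≤ czW K x :=
  Finset.prod_nonneg fun _ _ => cz_tent_nonneg _

theorem cz_W_le_one (x : mixedSpace K) : czW K x ≤ 1 :=
  Finset.prod_le_one (fun _ _ => cz_tent_nonneg _) fun _ _ => cz_tent_le_one _

theorem cz_unit_sum (x : mixedSpace K) (hx : mixedEmbedding.norm x ≠ 0) :
    ∑' u : (𝓞 K)ˣ, ENNReal.ofReal (czW K (u • x)) = (torsionOrder K : ℝ≥0∞) := by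
  classical
  set g : (𝓞 K)ˣ ⧸ torsion K → ℝ≥0∞ := fun q => ENNReal.ofReal
    (∏ j, czTent ((((basisUnitLattice K).repr (logEmbeddingEquiv K (Additive.ofMul q)) j : ℤ) : ℝ) +
      (czB K).repr (logMap x) j)) with hg
  have h1 : ∀ u : (𝓞 K)ˣ, ENNReal.ofReal (czW K (u • x)) = g (QuotientGroup.mk u) := by
    intro u
    rw [hg]
    simp only
    rw [czW]
    congr 1
    refine Finset.prod_congr rfl fun j _ => ?_
    congr 1
    rw [logMap_unit_smul u hx, map_add, Finsupp.add_apply]
    congr 1
    rw [← logEmbeddingEquiv_apply, czB, Basis.ofZLatticeBasis_repr_apply]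
  rw [tsum_congr h1, cz_tsum_quot]
  have h2 : ∑' q, g q = 1 := by
    have e : (𝓞 K)ˣ ⧸ torsion K ≃ (Fin (Units.rank K) → ℤ) :=
      (Additive.ofMul.trans (logEmbeddingEquiv K).toEquiv).trans
        (basisUnitLattice K).equivFun.toEquiv
    have h3 := cz_pi_sum (fun j => (czB K).repr (logMap x) j)
    rw [← h3, ← ((Additive.ofMul.trans (logEmbeddingEquiv K).toEquiv).trans
        (basisUnitLattice K).equivFun.toEquiv).tsum_eq]
    refine tsum_congr fun q => ?_
    rw [hg]
    rfl
  rw [h2, mul_one]
  rfl

end Pool.Agent.Lib.MP_695920_nt.Refl
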