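import Pool.Agent.Lib.MP_695920_nt.Refl.CZ2

/-!
Pointwise comparison of the summands (task R4, part 3).
-/

set_option autoImplicit false

open Finset Module NumberField
open scoped ENNReal Classical

namespace Pool.Agent.Lib.MP_695920_nt.Refl

open NumberField.mixedEmbedding NumberField.Units NumberField.Units.dirichletUnitTheorem
open NumberField.InfinitePlace

variable {K : Type*} [Field K] [NumberField K]

theorem cz_repr_le : ∃ L : ℝ, 0 ≤ L ∧ ∀ (v : logSpace K) (δ : ℝ), (∀ w, |v w| ≤ δ) →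
    ∀ j, |(czB K).repr v j| ≤ L * δ := by
  refine ⟨∑ j, ∑ w : {w : InfinitePlace K // w ≠ w₀}, |(czB K).repr (Pi.single w 1) j|,
    Finset.sum_nonneg fun j _ => Finset.sum_nonneg fun w _ => abs_nonneg _, ?_⟩
  intro v δ hv j
  have h1 : v = ∑ w : {w : InfinitePlace K // w ≠ w₀}, v w • (Pi.single w 1 : logSpace K) := by
    funext w'
    simp [Finset.sum_apply, Pi.single_apply]
  have h2 : (czB K).repr v j = ∑ w : {w : InfinitePlace K // w ≠ w₀},
      v w * (czB K).repr (Pi.single w 1) j := by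
    conv_lhs => rw [h1]
    simp [map_sum, Finsupp.finsetSum_apply]
  rw [h2]
  refine (Finset.abs_sum_le_sum_abs _ _).trans ?_
  have h3 : ∑ w : {w : InfinitePlace K // w ≠ w₀}, |v w * (czB K).repr (Pi.single w 1) j| ≤
      ∑ w : {w : InfinitePlace K // w ≠ w₀}, δ * |(czB K).repr (Pi.single w 1) j| := by
    refine Finset.sum_le_sum fun w _ => ?_
    rw [abs_mul]
    exact mul_le_mul_of_nonneg_right (hv w) (abs_nonneg _)
  refine h3.trans ?_
  rcases isEmpty_or_nonempty {w : InfinitePlace K // w ≠ w₀} with he | ⟨⟨w1⟩⟩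
  · simp
  have hδ : 0 ≤ δ := (abs_nonneg _).trans (hv w1)
  rw [← Finset.mul_sum, mul_comm]
  refine mul_le_mul_of_nonneg_right ?_ hδ
  exact Finset.single_le_sum (f := fun j => ∑ w : {w : InfinitePlace K // w ≠ w₀},
    |(czB K).repr (Pi.single w 1) j|) (fun j _ => Finset.sum_nonneg fun w _ => abs_nonneg _)
    (Finset.mem_univ j)

theorem cz_repr_ge : ∃ M : ℝ, 0 ≤ M ∧ ∀ v : logSpace K, (∀ j, |(czB K).repr v j| ≤ 1) →
    ∀ w, |v w| ≤ M := by
  refine ⟨∑ w : {w : InfinitePlace K // w ≠ w₀}, ∑ j, |(czB K) j w|,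
    Finset.sum_nonneg fun j _ => Finset.sum_nonneg fun w _ => abs_nonneg _, ?_⟩
  intro v hv w
  have h1 := (czB K).sum_repr v
  have h2 : v w = ∑ j, (czB K).repr v j * (czB K) j w := by
    conv_lhs => rw [← h1]
    rw [Finset.sum_apply]
    rfl
  rw [h2]
  refine (Finset.abs_sum_le_sum_abs _ _).trans ?_
  have h3 : ∑ j, |(czB K).repr v j * (czB K) j w| ≤ ∑ j, |(czB K) j w| := by
    refine Finset.sum_le_sum fun j _ => ?_
    rw [abs_mul]
    exact mul_le_of_le_one_left (abs_nonneg _) (hv j)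
  refine h3.trans ?_
  exact Finset.single_le_sum (f := fun w : {w : InfinitePlace K // w ≠ w₀} =>
    ∑ j, |(czB K) j w|) (fun j _ => Finset.sum_nonneg fun w _ => abs_nonneg _)
    (Finset.mem_univ w)

theorem cz_log_norm (x : mixedSpace K) (hx : mixedEmbedding.norm x ≠ 0) :
    Real.log (mixedEmbedding.norm x) = ∑ w : InfinitePlace K,
      (mult w : ℝ) * Real.log (normAtPlace w x) := by
  rw [mixedEmbedding.norm_apply, Real.log_prod]
  · exact Finset.sum_congr rfl fun w _ => by rw [Real.log_pow]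
  · intro w _
    exact pow_ne_zero _ (mixedEmbedding.norm_ne_zero_iff.1 hx w)

omit [NumberField K] in
theorem cz_mult_ge (w : InfinitePlace K) : (1 : ℝ) ≤ mult w := by
  exact_mod_cast one_le_mult

omit [NumberField K] in
theorem cz_mult_le (w : InfinitePlace K) : (mult w : ℝ) ≤ 2 := by
  rw [mult]
  split_ifs <;> norm_num

/-- on the support of the weight all the absolute values are comparable -/
theorem cz_support : ∃ c : ℝ, 0 < c ∧ c ≤ 1 ∧ ∀ y : mixedSpace K, mixedEmbedding.norm y ≠ 0 →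
    czW K y ≠ 0 → ∀ w, c * ‖y‖ ≤ normAtPlace w y := by
  obtain ⟨M, hM0, hM⟩ := cz_repr_ge (K := K)
  set m : ℝ := ((Fintype.card {w : InfinitePlace K // w ≠ w₀} : ℕ) : ℝ) with hm
  have hm0 : 0 ≤ m := by rw [hm]; positivity
  refine ⟨Real.exp (-(2 * ((m + 1) * M))), Real.exp_pos _,
    Real.exp_le_one_iff.2 (by nlinarith), ?_⟩
  intro y hy hW w
  have hr : ∀ j, |(czB K).repr (logMap y) j| ≤ 1 := by
    intro j
    rw [czW, Finset.prod_ne_zero_iff] at hW
    exact (cz_tent_ne_zero (hW j (Finset.mem_univ j))).le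
  have hlog := hM _ hr
  set lam : ℝ := Real.log (mixedEmbedding.norm y) * (finrank ℚ K : ℝ)⁻¹ with hlam
  have h1 : ∀ w : {w : InfinitePlace K // w ≠ w₀},
      |(mult w.1 : ℝ) * (Real.log (normAtPlace w.1 y) - lam)| ≤ M := by
    intro w
    have := hlog w
    rwa [logMap_apply] at this
  have hn0 : (finrank ℚ K : ℝ) ≠ 0 := by
    exact_mod_cast (finrank_pos (R := ℚ) (M := K)).ne'
  have hsum : ∑ w : InfinitePlace K, (mult w : ℝ) * (Real.log (normAtPlace w y) - lam) = 0 := by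
    have h2 : ∑ w : InfinitePlace K, (mult w : ℝ) = finrank ℚ K := by
      exact_mod_cast sum_mult_eq (K := K)
    simp only [mul_sub, Finset.sum_sub_distrib, ← Finset.sum_mul, h2]
    rw [← cz_log_norm y hy, hlam]
    field_simp
    ring
  have h3 : ∀ w : InfinitePlace K, |Real.log (normAtPlace w y) - lam| ≤ (m + 1) * M := by
    intro w
    have hmw := cz_mult_ge w
    have key : |(mult w : ℝ) * (Real.log (normAtPlace w y) - lam)| ≤ (m + 1) * M := by
      by_cases hw : w = w₀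
      · subst hw
        rw [← Finset.add_sum_erase _ _ (Finset.mem_univ (w₀ : InfinitePlace K))] at hsum
        have h4 : (mult (w₀ : InfinitePlace K) : ℝ) * (Real.log (normAtPlace w₀ y) - lam) =
            -∑ w ∈ Finset.univ.erase (w₀ : InfinitePlace K),
              (mult w : ℝ) * (Real.log (normAtPlace w y) - lam) := by linarith
        rw [h4, abs_neg]
        refine (Finset.abs_sum_le_sum_abs _ _).trans ?_
        have h5 : ∑ w ∈ Finset.univ.erase (w₀ : InfinitePlace K),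
            |(mult w : ℝ) * (Real.log (normAtPlace w y) - lam)| ≤
            ∑ _w ∈ Finset.univ.erase (w₀ : InfinitePlace K), M :=
          Finset.sum_le_sum fun w hw => h1 ⟨w, (Finset.mem_erase.1 hw).1⟩
        refine h5.trans ?_
        rw [Finset.sum_const, nsmul_eq_mul]
        have h6 : (((Finset.univ.erase (w₀ : InfinitePlace K)).card : ℕ) : ℝ) = m := by
          rw [hm, Fintype.card_subtype_compl]
          simp
        rw [h6]
        nlinarith
      · refine (h1 ⟨w, hw⟩).trans ?_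
        nlinarith
    rw [abs_mul, abs_of_nonneg (by linarith : (0 : ℝ) ≤ mult w)] at key
    refine le_trans ?_ key
    exact le_mul_of_one_le_left (abs_nonneg _) hmw
  have hpos : ∀ w, 0 < normAtPlace w y := fun w =>
    lt_of_le_of_ne (normAtPlace_nonneg w y) (mixedEmbedding.norm_ne_zero_iff.1 hy w).symm
  rw [norm_eq_sup'_normAtPlace]
  obtain ⟨w', _, hw'⟩ := Finset.exists_mem_eq_sup' (Finset.univ_nonempty (α := InfinitePlace K))
    (fun w => normAtPlace w y)
  rw [hw']
  have h7 := (abs_le.1 (h3 w)).1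
  have h8 := (abs_le.1 (h3 w')).2
  rw [← Real.exp_log (hpos w'), ← Real.exp_log (hpos w), ← Real.exp_add]
  apply Real.exp_le_exp.2
  linarith

theorem cz_normAtPlace_le (w : InfinitePlace K) (x : mixedSpace K) : normAtPlace w x ≤ ‖x‖ := by
  rw [norm_eq_sup'_normAtPlace]
  exact Finset.le_sup' (fun w => normAtPlace w x) (Finset.mem_univ w)

theorem cz_log_one_add {u ε : ℝ} (h : |u| ≤ ε) (hε : ε ≤ 1 / 2) : |Real.log (1 + u)| ≤ 2 * ε := by
  have h1 := abs_le.1 h
  have hpos : 0 < 1 + u := by linarith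
  rw [abs_le]
  constructor
  · have h2 := Real.one_sub_inv_le_log_of_pos hpos
    have h3 : 1 - (1 + u)⁻¹ = u / (1 + u) := by field_simp; ring
    rw [h3] at h2
    refine le_trans ?_ h2
    rw [le_div_iff₀ hpos]
    nlinarith
  · have h2 := Real.log_le_sub_one_of_pos hpos
    linarith

theorem cz_alg {Wx Wy Ex Ey r L n ε : ℝ} (hWx0 : 0 ≤ Wx) (hWx1 : Wx ≤ 1) (hEy : 0 ≤ Ey)
    (hW : Wy - Wx ≤ r * (8 * L * ε)) (hexp : Ey * (1 - 4 * n * ε) ≤ Ex) (h6 : 0 ≤ 4 * n * ε) :
    Wy * Ey - Wx * Ex ≤ Ey * ((8 * r * L + 4 * n) * ε) := by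
  have h5 : Wx * (Ey * (1 - 4 * n * ε)) ≤ Wx * Ex := mul_le_mul_of_nonneg_left hexp hWx0
  have h7 : Ey * (Wy - Wx) ≤ Ey * (r * (8 * L * ε)) := mul_le_mul_of_nonneg_left hW hEy
  have h8 : Ey * (Wx * (4 * n * ε)) ≤ Ey * (1 * (4 * n * ε)) :=
    mul_le_mul_of_nonneg_left (mul_le_mul_of_nonneg_right hWx1 h6) hEy
  nlinarith

theorem cz_exp_alg {s a n ε : ℝ} (hs1 : 1 < s) (hs2 : s ≤ 2) (ha : a ≤ 2 * n * ε)
    (h4 : 0 ≤ 2 * n * ε) : 1 - 4 * n * ε ≤ Real.exp (-s * a) := by
  have h2 := Real.add_one_le_exp (-s * a)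
  refine le_trans ?_ h2
  have h3 : s * a ≤ s * (2 * n * ε) := mul_le_mul_of_nonneg_left ha (by linarith)
  have h5 : s * (2 * n * ε) ≤ 2 * (2 * n * ε) := mul_le_mul_of_nonneg_right hs2 h4
  linarith

theorem cz_fin_alg {c X D A : ℝ} (hc : c ≠ 0) (hX : X ≠ 0) (n : ℕ) :
    ((c * X / 2) ^ n)⁻¹ * (A * (D / (c * X / 2))) = A * D * ((c / 2) ^ (n + 1))⁻¹ *
      (X ^ (n + 1))⁻¹ := by
  have h1 : c * X / 2 = (c / 2) * X := by ring
  rw [h1, mul_pow, pow_succ, pow_succ]
  field_simp

set_option maxHeartbeats 2000000 in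
theorem cz_pointwise (D : ℝ) (hD : 0 ≤ D) : ∃ C R : ℝ, 0 ≤ C ∧ 1 ≤ R ∧ ∀ s : ℝ, 1 < s → s ≤ 2 →
    ∀ x y : mixedSpace K, ‖x - y‖ ≤ D → R ≤ ‖x‖ →
      czW K y * mixedEmbedding.norm y ^ (-s) ≤
        czW K x * mixedEmbedding.norm x ^ (-s) + C * (‖x‖ ^ (finrank ℚ K + 1))⁻¹ := by
  obtain ⟨c, hc, hc1, hcs⟩ := cz_support (K := K)
  obtain ⟨L, hL0, hL⟩ := cz_repr_le (K := K)
  set n := finrank ℚ K with hn
  set r := Units.rank K with hr
  refine ⟨(8 * r * L + 4 * n) * D * ((c / 2) ^ (n + 1))⁻¹, max 1 (max (4 * D / c) (2 / c)),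
    by positivity, le_max_left _ _, ?_⟩
  intro s hs1 hs2 x y hxy hx
  have hx1 : 1 ≤ ‖x‖ := (le_max_left _ _).trans hx
  have hx2 : 4 * D / c ≤ ‖x‖ := ((le_max_left _ _).trans (le_max_right _ _)).trans hx
  have hx3 : 2 / c ≤ ‖x‖ := ((le_max_right _ _).trans (le_max_right _ _)).trans hx
  have hRHS : 0 ≤ czW K x * mixedEmbedding.norm x ^ (-s) +
      (8 * r * L + 4 * n) * D * ((c / 2) ^ (n + 1))⁻¹ * (‖x‖ ^ (n + 1))⁻¹ := by
    have h1 := mul_nonneg (cz_W_nonneg x) (Real.rpow_nonneg (mixedEmbedding.norm_nonneg x) (-s))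
    positivity
  by_cases hy : mixedEmbedding.norm y = 0
  · rw [hy, Real.zero_rpow (by linarith), mul_zero]
    exact hRHS
  by_cases hWy : czW K y = 0
  · rw [hWy, zero_mul]
    exact hRHS
  -- main case
  set τ : ℝ := c * ‖x‖ / 2 with hτ
  have hτ1 : 1 ≤ τ := by
    rw [hτ]
    rw [div_le_iff₀ hc] at hx3
    linarith
  set ε : ℝ := D / τ with hε
  have hε0 : 0 ≤ ε := by positivity
  have hεh : ε ≤ 1 / 2 := by
    rw [hε, div_le_iff₀ (by linarith), hτ]
    rw [div_le_iff₀ hc] at hx2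
    linarith
  have hynorm : ‖x‖ / 2 ≤ ‖y‖ := by
    have h1 : ‖x‖ ≤ ‖x - y‖ + ‖y‖ := by
      have := norm_add_le (x - y) y
      rwa [sub_add_cancel] at this
    have h2 : 4 * D ≤ ‖x‖ := by
      rw [div_le_iff₀ hc] at hx2
      nlinarith
    linarith
  have hq : ∀ w, τ ≤ normAtPlace w y := by
    intro w
    refine le_trans ?_ (hcs y hy hWy w)
    rw [hτ]
    nlinarith
  have hqpos : ∀ w, 0 < normAtPlace w y := fun w => lt_of_lt_of_le (by linarith) (hq w)
  have hpq : ∀ w, |normAtPlace w x - normAtPlace w y| ≤ D := by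
    intro w
    have h1 := (cz_normAtPlace_le w (x - y)).trans hxy
    have h2 := normAtPlace_add_le w (x - y) y
    have h3 := normAtPlace_add_le w (y - x) x
    rw [sub_add_cancel] at h2 h3
    have h4 : normAtPlace w (y - x) = normAtPlace w (x - y) := by
      rw [← neg_sub, normAtPlace_neg]
    rw [abs_le]
    constructor <;> linarith
  have hratio : ∀ w, |normAtPlace w x / normAtPlace w y - 1| ≤ ε := by
    intro w
    have h1 : normAtPlace w x / normAtPlace w y - 1 =
        (normAtPlace w x - normAtPlace w y) / normAtPlace w y := by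
      have := (hqpos w).ne'
      field_simp
    rw [h1, abs_div, abs_of_pos (hqpos w), hε]
    exact div_le_div₀ hD (hpq w) (by linarith) (hq w)
  have hppos : ∀ w, 0 < normAtPlace w x := by
    intro w
    have h1 := (abs_le.1 (hratio w)).1
    have h2 : 0 < normAtPlace w x / normAtPlace w y := by linarith
    exact (div_pos_iff_of_pos_right (hqpos w)).1 h2
  have hlog : ∀ w, |Real.log (normAtPlace w x) - Real.log (normAtPlace w y)| ≤ 2 * ε := by
    intro w
    have h1 := cz_log_one_add (hratio w) hεh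
    rw [add_sub_cancel, Real.log_div (hppos w).ne' (hqpos w).ne'] at h1
    exact h1
  have hx0 : mixedEmbedding.norm x ≠ 0 :=
    mixedEmbedding.norm_ne_zero_iff.2 fun w => (hppos w).ne'
  have hn1 : (1 : ℝ) ≤ n := by
    exact_mod_cast (finrank_pos (R := ℚ) (M := K))
  have hsummult : ∑ w : InfinitePlace K, (mult w : ℝ) = n := by
    exact_mod_cast sum_mult_eq (K := K)
  have hlogn : |Real.log (mixedEmbedding.norm x) - Real.log (mixedEmbedding.norm y)| ≤
      2 * n * ε := by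
    rw [cz_log_norm x hx0, cz_log_norm y hy, ← Finset.sum_sub_distrib]
    refine (Finset.abs_sum_le_sum_abs _ _).trans ?_
    calc ∑ w : InfinitePlace K, |(mult w : ℝ) * Real.log (normAtPlace w x) -
          (mult w : ℝ) * Real.log (normAtPlace w y)|
        ≤ ∑ w : InfinitePlace K, (mult w : ℝ) * (2 * ε) := by
          refine Finset.sum_le_sum fun w _ => ?_
          rw [← mul_sub, abs_mul, abs_of_nonneg (by positivity)]
          exact mul_le_mul_of_nonneg_left (hlog w) (by positivity)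
      _ = 2 * n * ε := by rw [← Finset.sum_mul, hsummult]; ring
  have hlogMap : ∀ w, |(logMap x - logMap y) w| ≤ 8 * ε := by
    intro w
    rw [Pi.sub_apply, logMap_apply, logMap_apply]
    have h1 : (mult w.1 : ℝ) * (Real.log (normAtPlace w.1 x) -
        Real.log (mixedEmbedding.norm x) * (n : ℝ)⁻¹) -
        (mult w.1 : ℝ) * (Real.log (normAtPlace w.1 y) -
        Real.log (mixedEmbedding.norm y) * (n : ℝ)⁻¹) =
        (mult w.1 : ℝ) * ((Real.log (normAtPlace w.1 x) - Real.log (normAtPlace w.1 y)) -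
        (Real.log (mixedEmbedding.norm x) - Real.log (mixedEmbedding.norm y)) * (n : ℝ)⁻¹) := by
      ring
    rw [h1, abs_mul, abs_of_nonneg (by positivity)]
    have h2 : |(Real.log (normAtPlace w.1 x) - Real.log (normAtPlace w.1 y)) -
        (Real.log (mixedEmbedding.norm x) - Real.log (mixedEmbedding.norm y)) * (n : ℝ)⁻¹| ≤
        4 * ε := by
      refine (abs_sub _ _).trans ?_
      have h3 : |(Real.log (mixedEmbedding.norm x) - Real.log (mixedEmbedding.norm y)) *
          (n : ℝ)⁻¹| ≤ 2 * ε := by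
        rw [abs_mul, abs_of_nonneg (by positivity : (0 : ℝ) ≤ (n : ℝ)⁻¹),
          ← div_eq_mul_inv, div_le_iff₀ (by linarith)]
        linarith
      have h4 := hlog w.1
      linarith
    have h5 := cz_mult_le w.1
    calc (mult w.1 : ℝ) * _ ≤ 2 * (4 * ε) :=
          mul_le_mul h5 h2 (abs_nonneg _) (by norm_num)
      _ = 8 * ε := by ring
  have hW : czW K y - czW K x ≤ r * (8 * L * ε) := by
    have h1 := cz_prod_lip (Finset.univ : Finset (Fin r))
      (fun j => czTent ((czB K).repr (logMap y) j)) (fun j => czTent ((czB K).repr (logMap x) j))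
      (fun j => ⟨cz_tent_nonneg _, cz_tent_le_one _⟩)
      (fun j => ⟨cz_tent_nonneg _, cz_tent_le_one _⟩) (δ := 8 * L * ε) (fun j => by
        refine (cz_tent_lip _ _).trans ?_
        have h2 := hL _ _ hlogMap j
        rw [map_sub, Finsupp.sub_apply, abs_sub_comm] at h2
        linarith)
    rw [Finset.card_univ, Fintype.card_fin] at h1
    exact (le_abs_self _).trans h1
  set NX := mixedEmbedding.norm x with hNX
  set NY := mixedEmbedding.norm y with hNY
  have hNXpos : 0 < NX := lt_of_le_of_ne (mixedEmbedding.norm_nonneg x) (Ne.symm hx0)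
  have hNYpos : 0 < NY := lt_of_le_of_ne (mixedEmbedding.norm_nonneg y) (Ne.symm hy)
  have hNYge : τ ^ n ≤ NY := by
    rw [hNY, mixedEmbedding.norm_apply]
    have h1 : τ ^ n = ∏ w : InfinitePlace K, τ ^ (mult w) := by
      rw [Finset.prod_pow_eq_pow_sum, sum_mult_eq]
    rw [h1]
    exact Finset.prod_le_prod (fun w _ => by positivity) fun w _ =>
      pow_le_pow_left₀ (by linarith) (hq w) _
  have hNY1 : 1 ≤ NY := (one_le_pow₀ hτ1).trans hNYge
  have hrp : NY ^ (-s) ≤ (τ ^ n)⁻¹ := by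
    calc NY ^ (-s) ≤ NY ^ (-1 : ℝ) := Real.rpow_le_rpow_of_exponent_le hNY1 (by linarith)
      _ = NY⁻¹ := Real.rpow_neg_one _
      _ ≤ (τ ^ n)⁻¹ := inv_anti₀ (by positivity) hNYge
  have hrp0 : 0 ≤ NY ^ (-s) := Real.rpow_nonneg hNYpos.le _
  have hexp : NY ^ (-s) * (1 - 4 * n * ε) ≤ NX ^ (-s) := by
    have h1 : NX ^ (-s) = NY ^ (-s) * Real.exp (-s * (Real.log NX - Real.log NY)) := by
      rw [Real.rpow_def_of_pos hNXpos, Real.rpow_def_of_pos hNYpos, ← Real.exp_add]
      congr 1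
      ring
    rw [h1]
    exact mul_le_mul_of_nonneg_left
      (cz_exp_alg hs1 hs2 (abs_le.1 hlogn).2 (by positivity)) hrp0
  have h7 := cz_alg (cz_W_nonneg x) (cz_W_le_one x) hrp0 hW hexp (by positivity)
  have h9 : NY ^ (-s) * ((8 * r * L + 4 * n) * ε) ≤
      (τ ^ n)⁻¹ * ((8 * r * L + 4 * n) * ε) :=
    mul_le_mul_of_nonneg_right hrp (by positivity)
  have h10 : (τ ^ n)⁻¹ * ((8 * r * L + 4 * n) * ε) =
      (8 * r * L + 4 * n) * D * ((c / 2) ^ (n + 1))⁻¹ * (‖x‖ ^ (n + 1))⁻¹ :=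
    cz_fin_alg hc.ne' (by linarith) n
  linarith

end Pool.Agent.Lib.MP_695920_nt.Refl
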