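import Pool.Agent.Lib.MP_695920_nt.Refl.CZ3

/-!
Sums over ideals and over lattices (task R4, part 4).
-/

set_option autoImplicit false

open Finset Module NumberField
open scoped ENNReal Classical nonZeroDivisors

namespace Pool.Agent.Lib.MP_695920_nt.Refl

open NumberField.mixedEmbedding NumberField.Units NumberField.Units.dirichletUnitTheorem
open NumberField.InfinitePlace

variable {K : Type*} [Field K] [NumberField K]

/-- the summand -/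
noncomputable def czF (K : Type*) [Field K] [NumberField K] (s : ℝ) (a : 𝓞 K) : ℝ :=
  czW K (mixedEmbedding K (a : K)) * mixedEmbedding.norm (mixedEmbedding K (a : K)) ^ (-s)

theorem cz_norm_int (a : 𝓞 K) : mixedEmbedding.norm (mixedEmbedding K (a : K)) =
    ((Ideal.absNorm (Ideal.span {a}) : ℕ) : ℝ) := by
  rw [norm_eq_norm, Ideal.absNorm_span_singleton]
  have h1 : Algebra.norm ℚ (a : K) = ((Algebra.norm ℤ a : ℤ) : ℚ) :=
    (Algebra.coe_norm_int a).symm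
  rw [h1]
  simp [Nat.cast_natAbs]

theorem czF_nonneg (s : ℝ) (a : 𝓞 K) : 0 ≤ czF K s a :=
  mul_nonneg (cz_W_nonneg _) (Real.rpow_nonneg (mixedEmbedding.norm_nonneg _) _)

theorem czF_zero {s : ℝ} (hs : 1 < s) : czF K s 0 = 0 := by
  unfold czF
  rw [cz_norm_int]
  simp only [Ideal.span_zero, Set.singleton_zero, Ideal.absNorm_bot]
  rw [Nat.cast_zero, Real.zero_rpow (by linarith), mul_zero]

theorem czF_le_one {s : ℝ} (hs : 1 < s) (a : 𝓞 K) : czF K s a ≤ 1 := by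
  by_cases ha : a = 0
  · rw [ha, czF_zero hs]; exact zero_le_one
  unfold czF
  rw [cz_norm_int]
  have h1 : (1 : ℝ) ≤ ((Ideal.absNorm (Ideal.span {a}) : ℕ) : ℝ) := by
    have h2 : Ideal.absNorm (Ideal.span {a}) ≠ 0 := by
      rw [Ne, Ideal.absNorm_eq_zero_iff, Ideal.span_singleton_eq_bot]
      exact ha
    exact_mod_cast Nat.one_le_iff_ne_zero.2 h2
  have h3 : ((Ideal.absNorm (Ideal.span {a}) : ℕ) : ℝ) ^ (-s) ≤ 1 :=
    Real.rpow_le_one_of_one_le_of_nonpos h1 (by linarith)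
  have h4 : 0 ≤ ((Ideal.absNorm (Ideal.span {a}) : ℕ) : ℝ) ^ (-s) :=
    Real.rpow_nonneg (by linarith) _
  have h5 := cz_W_nonneg (mixedEmbedding K (a : K))
  have h6 := cz_W_le_one (mixedEmbedding K (a : K))
  nlinarith

/-- the sum over the ideal `b` -/
noncomputable def czS (K : Type*) [Field K] [NumberField K] (b : Ideal (𝓞 K)) (s : ℝ) : ℝ≥0∞ :=
  ∑' a : b, ENNReal.ofReal (czF K s a)

/-- the partial zeta function with values in `ℝ≥0∞` -/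
noncomputable def czZ (K : Type*) [Field K] [NumberField K] (c : ClassGroup (𝓞 K)) (s : ℝ) :
    ℝ≥0∞ :=
  ∑' I : {I : (Ideal (𝓞 K))⁰ // ClassGroup.mk0 I = c},
    ENNReal.ofReal (((Ideal.absNorm (I.1 : Ideal (𝓞 K)) : ℕ) : ℝ) ^ (-s))

/-- generators of the ideals `I b` -/
theorem cz_gen {c : ClassGroup (𝓞 K)} {b : (Ideal (𝓞 K))⁰} (hb : ClassGroup.mk0 b = c⁻¹)
    (I : {I : (Ideal (𝓞 K))⁰ // ClassGroup.mk0 I = c}) : ∃ g : 𝓞 K,
      (I.1 : Ideal (𝓞 K)) * (b : Ideal (𝓞 K)) = Ideal.span {g} ∧ g ≠ 0 := by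
  have h1 : ClassGroup.mk0 (I.1 * b) = 1 := by
    rw [map_mul, I.2, hb, mul_inv_cancel]
  obtain ⟨g, hg⟩ := (ClassGroup.mk0_eq_one_iff (I.1 * b).2).1 h1
  refine ⟨g, hg, ?_⟩
  rintro rfl
  have h2 : (I.1 : Ideal (𝓞 K)) * (b : Ideal (𝓞 K)) = ⊥ := by
    have h3 : (I.1 : Ideal (𝓞 K)) * (b : Ideal (𝓞 K)) = Ideal.span {0} := hg
    rw [h3]
    exact Ideal.span_singleton_eq_bot.2 rfl
  rcases Ideal.mul_eq_bot.1 h2 with h | h
  · exact nonZeroDivisors.coe_ne_zero I.1 h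
  · exact nonZeroDivisors.coe_ne_zero b h

theorem cz_gen_surj {c : ClassGroup (𝓞 K)} {b : (Ideal (𝓞 K))⁰} (hb : ClassGroup.mk0 b = c⁻¹)
    (g : {I : (Ideal (𝓞 K))⁰ // ClassGroup.mk0 I = c} → 𝓞 K)
    (hg : ∀ I, (I.1 : Ideal (𝓞 K)) * (b : Ideal (𝓞 K)) = Ideal.span {g I})
    {a : 𝓞 K} (hab : a ∈ (b : Ideal (𝓞 K))) (ha0 : a ≠ 0) :
    ∃ (I : {I : (Ideal (𝓞 K))⁰ // ClassGroup.mk0 I = c}) (u : (𝓞 K)ˣ), (u : 𝓞 K) * g I = a := by
  have h1 : (b : Ideal (𝓞 K)) ∣ Ideal.span {a} := by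
    rw [Ideal.dvd_span_singleton]
    exact hab
  obtain ⟨J, hJ⟩ := h1
  have hJ0 : J ≠ ⊥ := by
    rintro rfl
    rw [Ideal.mul_bot, Ideal.span_singleton_eq_bot] at hJ
    exact ha0 hJ
  have hJm : J ∈ (Ideal (𝓞 K))⁰ := mem_nonZeroDivisors_of_ne_zero hJ0
  have hJc : ClassGroup.mk0 (⟨J, hJm⟩ : (Ideal (𝓞 K))⁰) = c := by
    have hbJ : (b : Ideal (𝓞 K)) * J ∈ (Ideal (𝓞 K))⁰ := mul_mem b.2 hJm
    have hP : ((b : Ideal (𝓞 K)) * J).IsPrincipal := by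
      rw [← hJ]
      exact ⟨a, rfl⟩
    have h3 : ClassGroup.mk0 (⟨(b : Ideal (𝓞 K)) * J, hbJ⟩ : (Ideal (𝓞 K))⁰) = 1 :=
      (ClassGroup.mk0_eq_one_iff hbJ).2 hP
    have h4 : b * (⟨J, hJm⟩ : (Ideal (𝓞 K))⁰) = ⟨(b : Ideal (𝓞 K)) * J, hbJ⟩ := rfl
    rw [← h4, map_mul, hb, inv_mul_eq_one] at h3
    exact h3.symm
  have h4 : Ideal.span {g ⟨⟨J, hJm⟩, hJc⟩} = Ideal.span {a} := by
    rw [← hg, hJ, mul_comm]
  obtain ⟨u, hu⟩ := Ideal.span_singleton_eq_span_singleton.1 h4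
  exact ⟨⟨⟨J, hJm⟩, hJc⟩, u, by rw [← hu, mul_comm]⟩

theorem cz_gen_inj {c : ClassGroup (𝓞 K)} {b : (Ideal (𝓞 K))⁰}
    (g : {I : (Ideal (𝓞 K))⁰ // ClassGroup.mk0 I = c} → 𝓞 K)
    (hg : ∀ I, (I.1 : Ideal (𝓞 K)) * (b : Ideal (𝓞 K)) = Ideal.span {g I}) (hg0 : ∀ I, g I ≠ 0)
    {I I' : {I : (Ideal (𝓞 K))⁰ // ClassGroup.mk0 I = c}} {u u' : (𝓞 K)ˣ}
    (h : (u : 𝓞 K) * g I = (u' : 𝓞 K) * g I') : I = I' ∧ u = u' := by
  have h1 : Ideal.span {(u : 𝓞 K) * g I} = Ideal.span {(u' : 𝓞 K) * g I'} := by rw [h]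
  rw [Ideal.span_singleton_mul_left_unit u.isUnit, Ideal.span_singleton_mul_left_unit u'.isUnit,
    ← hg, ← hg] at h1
  have h2 : (I.1 : Ideal (𝓞 K)) = I'.1 :=
    mul_right_cancel₀ (nonZeroDivisors.coe_ne_zero b) h1
  have h3 : I = I' := Subtype.ext (Subtype.ext h2)
  subst h3
  exact ⟨rfl, Units.ext (mul_right_cancel₀ (hg0 I) h)⟩

theorem cz_term (s : ℝ) (g : 𝓞 K) (u : (𝓞 K)ˣ) : ENNReal.ofReal (czF K s ((u : 𝓞 K) * g)) =
    ENNReal.ofReal (czW K (u • mixedEmbedding K (g : K))) *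
      ENNReal.ofReal (mixedEmbedding.norm (mixedEmbedding K (g : K)) ^ (-s)) := by
  rw [← ENNReal.ofReal_mul (cz_W_nonneg _)]
  congr 1
  unfold czF
  have h1 : mixedEmbedding K (((u : 𝓞 K) * g : 𝓞 K) : K) = u • mixedEmbedding K (g : K) := by
    rw [unitSMul_smul, ← map_mul, ← map_mul]
  rw [h1, norm_unit_smul]

theorem cz_unit_term (s : ℝ) {g : 𝓞 K} (hg : g ≠ 0) {I b : Ideal (𝓞 K)}
    (h : I * b = Ideal.span {g}) : ∑' u : (𝓞 K)ˣ, ENNReal.ofReal (czF K s ((u : 𝓞 K) * g)) =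
      (torsionOrder K : ℝ≥0∞) * (ENNReal.ofReal (((Ideal.absNorm b : ℕ) : ℝ) ^ (-s)) *
        ENNReal.ofReal (((Ideal.absNorm I : ℕ) : ℝ) ^ (-s))) := by
  have hx0 : mixedEmbedding.norm (mixedEmbedding K (g : K)) ≠ 0 := by
    rw [cz_norm_int, Nat.cast_ne_zero, Ne, Ideal.absNorm_eq_zero_iff,
      Ideal.span_singleton_eq_bot]
    exact hg
  have hN : mixedEmbedding.norm (mixedEmbedding K (g : K)) =
      ((Ideal.absNorm I : ℕ) : ℝ) * ((Ideal.absNorm b : ℕ) : ℝ) := by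
    rw [cz_norm_int, ← h, map_mul, Nat.cast_mul]
  rw [tsum_congr (cz_term s g), ENNReal.tsum_mul_right, cz_unit_sum _ hx0, hN,
    Real.mul_rpow (by positivity) (by positivity), ENNReal.ofReal_mul (by positivity)]
  ring

theorem cz_S_eq {c : ClassGroup (𝓞 K)} {b : (Ideal (𝓞 K))⁰} (hb : ClassGroup.mk0 b = c⁻¹)
    {s : ℝ} (hs : 1 < s) : czS K b s = (torsionOrder K : ℝ≥0∞) *
      (ENNReal.ofReal (((Ideal.absNorm (b : Ideal (𝓞 K)) : ℕ) : ℝ) ^ (-s)) * czZ K c s) := by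
  choose g hg hg0 using cz_gen hb
  have hmem : ∀ p : {I : (Ideal (𝓞 K))⁰ // ClassGroup.mk0 I = c} × (𝓞 K)ˣ,
      (p.2 : 𝓞 K) * g p.1 ∈ (b : Ideal (𝓞 K)) := by
    intro p
    have h1 : g p.1 ∈ (p.1.1 : Ideal (𝓞 K)) * (b : Ideal (𝓞 K)) := by
      rw [hg]; exact Ideal.mem_span_singleton_self _
    have h2 : g p.1 ∈ (b : Ideal (𝓞 K)) :=
      (Ideal.mul_le_right (I := (p.1.1 : Ideal (𝓞 K))) (J := (b : Ideal (𝓞 K)))) h1
    exact Ideal.mul_mem_left (b : Ideal (𝓞 K)) (p.2 : 𝓞 K) h2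
  have hinj : Function.Injective
      (fun p : {I : (Ideal (𝓞 K))⁰ // ClassGroup.mk0 I = c} × (𝓞 K)ˣ =>
        (⟨(p.2 : 𝓞 K) * g p.1, hmem p⟩ : (b : Ideal (𝓞 K)))) := by
    rintro ⟨I, u⟩ ⟨I', u'⟩ h
    have h4 : (u : 𝓞 K) * g I = (u' : 𝓞 K) * g I' := congrArg Subtype.val h
    obtain ⟨h5, h6⟩ := cz_gen_inj g hg hg0 h4
    rw [h5, h6]
  have hsupp : Function.support (fun a : (b : Ideal (𝓞 K)) => ENNReal.ofReal (czF K s a)) ⊆
      Set.range (fun p : {I : (Ideal (𝓞 K))⁰ // ClassGroup.mk0 I = c} × (𝓞 K)ˣ =>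
        (⟨(p.2 : 𝓞 K) * g p.1, hmem p⟩ : (b : Ideal (𝓞 K)))) := by
    intro a ha
    have ha0 : (a : 𝓞 K) ≠ 0 := by
      intro h0
      apply ha
      simp only
      rw [h0, czF_zero hs, ENNReal.ofReal_zero]
    obtain ⟨I, u, hu⟩ := cz_gen_surj hb g hg a.2 ha0
    exact ⟨(I, u), Subtype.ext hu⟩
  unfold czS
  rw [← hinj.tsum_eq hsupp]
  rw [ENNReal.tsum_prod']
  rw [czZ, ← ENNReal.tsum_mul_left, ← ENNReal.tsum_mul_left]
  exact tsum_congr fun I => cz_unit_term s (hg0 I) (hg I)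

end Pool.Agent.Lib.MP_695920_nt.Refl
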