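import Pool.Agent.Lib.MP_695920_nt.Refl.CZ4

/-!
Comparison of a lattice with a sublattice (task R4, part 5).
-/

set_option autoImplicit false

open Finset Module NumberField
open scoped ENNReal Classical nonZeroDivisors

namespace Pool.Agent.Lib.MP_695920_nt.Refl

open NumberField.mixedEmbedding NumberField.Units NumberField.Units.dirichletUnitTheorem
open NumberField.InfinitePlace

/-- a section of the quotient map gives a decomposition -/
noncomputable def czAddQuotEquiv {G : Type*} [AddCommGroup G] (H : AddSubgroup G) :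
    (G ⧸ H) × H ≃ G where
  toFun p := p.1.out + p.2
  invFun u := (QuotientAddGroup.mk u, ⟨-(QuotientAddGroup.mk u : G ⧸ H).out + u,
    QuotientAddGroup.eq.1 (QuotientAddGroup.out_eq' _)⟩)
  left_inv p := by
    obtain ⟨q, h⟩ := p
    have h1 : (QuotientAddGroup.mk (q.out + (h : G)) : G ⧸ H) = q := by
      rw [QuotientAddGroup.mk_add_of_mem _ h.2]
      exact QuotientAddGroup.out_eq' q
    refine Prod.ext h1 (Subtype.ext ?_)
    change -(QuotientAddGroup.mk (q.out + (h : G)) : G ⧸ H).out + (q.out + h) = h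
    rw [h1]
    abel
  right_inv u := by
    change (QuotientAddGroup.mk u : G ⧸ H).out + (-(QuotientAddGroup.mk u : G ⧸ H).out + u) = u
    abel

/-- an upper bound for the sum over a group by the sum over a subgroup of finite index -/
theorem cz_split {G : Type*} [AddCommGroup G] (H : AddSubgroup G) [Finite (G ⧸ H)]
    (f : G → ℝ≥0∞) (k : H → ℝ≥0∞) (hfk : ∀ (q : G ⧸ H) (h : H), f (q.out + h) ≤ k h) :
    ∑' a : G, f a ≤ (H.index : ℝ≥0∞) * ∑' h : H, k h := by
  rw [← (czAddQuotEquiv H).tsum_eq, ENNReal.tsum_prod']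
  have h1 : ∀ q : G ⧸ H, ∑' h : H, f (czAddQuotEquiv H (q, h)) ≤ ∑' h : H, k h :=
    fun q => ENNReal.tsum_le_tsum fun h => hfk q h
  refine (ENNReal.tsum_le_tsum h1).trans ?_
  have := Fintype.ofFinite (G ⧸ H)
  rw [tsum_fintype, Finset.sum_const, Finset.card_univ, nsmul_eq_mul, AddSubgroup.index,
    Nat.card_eq_fintype_card]

variable {K : Type*} [Field K] [NumberField K]

theorem cz_summable : Summable fun a : 𝓞 K =>
    (‖mixedEmbedding K (a : K)‖ ^ (finrank ℚ K + 1))⁻¹ := by
  have h0 : Module.finrank ℤ (mixedEmbedding.integerLattice K) = finrank ℚ K := by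
    rw [ZLattice.rank ℝ, mixedEmbedding.finrank]
  have h1 := ZLattice.summable_norm_rpow (mixedEmbedding.integerLattice K)
    (-((finrank ℚ K : ℝ) + 1)) (by rw [h0]; linarith)
  have hmem : ∀ a : 𝓞 K, mixedEmbedding K (a : K) ∈ mixedEmbedding.integerLattice K :=
    fun a => ⟨a, rfl⟩
  have hinj : Function.Injective (fun a : 𝓞 K =>
      (⟨mixedEmbedding K (a : K), hmem a⟩ : mixedEmbedding.integerLattice K)) := by
    intro a b hab
    have h2 := congrArg Subtype.val hab
    exact RingOfIntegers.coe_injective (mixedEmbedding_injective K h2)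
  have h3 := h1.comp_injective hinj
  refine h3.congr fun a => ?_
  simp only [Function.comp_apply]
  rw [Real.rpow_neg (norm_nonneg _)]
  congr 1
  have h4 : ((finrank ℚ K : ℝ) + 1) = ((finrank ℚ K + 1 : ℕ) : ℝ) := by push_cast; ring
  rw [h4, Real.rpow_natCast]
  rfl

/-- the comparison of the sums over two ideals -/
theorem cz_S_le {b b' : Ideal (𝓞 K)} (hle : b' ≤ b) (hb' : b' ≠ ⊥) :
    ∃ Γ : ℝ≥0∞, Γ ≠ ∞ ∧ ∀ s : ℝ, 1 < s → s ≤ 2 →
      czS K b s ≤ ((b'.toAddSubgroup.relIndex b.toAddSubgroup : ℕ) : ℝ≥0∞) * (czS K b' s + Γ) := by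
  set A : AddSubgroup (𝓞 K) := b.toAddSubgroup with hA
  set H : AddSubgroup A := b'.toAddSubgroup.addSubgroupOf A with hH
  have hidx : H.index ≠ 0 := by
    have h1 : b'.toAddSubgroup.relIndex A ≠ 0 := by
      have h2 : b'.toAddSubgroup.index ≠ 0 := by
        have h3 : Ideal.absNorm b' ≠ 0 := by
          rw [Ne, Ideal.absNorm_eq_zero_iff]; exact hb'
        exact h3
      intro h0
      have h4 := AddSubgroup.relIndex_mul_index (H := b'.toAddSubgroup) (K := A) hle
      rw [h0, zero_mul] at h4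
      exact h2 h4.symm
    exact h1
  have hFI : H.FiniteIndex := ⟨hidx⟩
  have hfin : Finite (A ⧸ H) := AddSubgroup.finite_quotient_of_finiteIndex
  have := Fintype.ofFinite (A ⧸ H)
  set D : ℝ := ∑ q : A ⧸ H, ‖mixedEmbedding K (((q.out : A) : 𝓞 K) : K)‖ with hD
  have hD0 : 0 ≤ D := Finset.sum_nonneg fun _ _ => norm_nonneg _
  obtain ⟨C, R, hC, hR, hCR⟩ := cz_pointwise (K := K) D hD0
  set n := finrank ℚ K with hn
  set G : 𝓞 K → ℝ≥0∞ := fun a =>
    ENNReal.ofReal ((C + R ^ (n + 1)) * (‖mixedEmbedding K (a : K)‖ ^ (n + 1))⁻¹) +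
      (if a = 0 then 1 else 0) with hG
  have hGfin : ∑' a : 𝓞 K, G a ≠ ∞ := by
    rw [hG, ENNReal.tsum_add]
    refine ENNReal.add_ne_top.2 ⟨?_, ?_⟩
    · have h1 := (cz_summable (K := K)).mul_left (C + R ^ (n + 1))
      exact h1.tsum_ofReal_ne_top
    · rw [tsum_ite_eq]
      exact ENNReal.one_ne_top
  -- the equivalence between the subgroup and the ideal
  set e : H ≃ b' := ⟨fun h => ⟨((h : A) : 𝓞 K), h.2⟩, fun x => ⟨⟨x, hle x.2⟩, x.2⟩,
    fun _ => rfl, fun _ => rfl⟩ with he
  refine ⟨∑' a : b', G a, ?_, ?_⟩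
  · exact ne_top_of_le_ne_top hGfin
      (ENNReal.tsum_comp_le_tsum_of_injective Subtype.val_injective _)
  intro s hs1 hs2
  have hmain : ∑' a : A, ENNReal.ofReal (czF K s a) ≤ (H.index : ℝ≥0∞) *
      ∑' h : H, (ENNReal.ofReal (czF K s ((h : A) : 𝓞 K)) + G ((h : A) : 𝓞 K)) := by
    refine cz_split H (fun a : A => ENNReal.ofReal (czF K s a)) _ fun q h => ?_
    set x : mixedSpace K := mixedEmbedding K (((h : A) : 𝓞 K) : K) with hx
    set y : mixedSpace K := mixedEmbedding K (((q.out + (h : A) : A) : 𝓞 K) : K) with hy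
    have hxy : y = mixedEmbedding K (((q.out : A) : 𝓞 K) : K) + x := by
      rw [hy, hx, ← map_add]
      rfl
    have hD1 : ‖x - y‖ ≤ D := by
      have h1 : x - y = -mixedEmbedding K (((q.out : A) : 𝓞 K) : K) := by
        rw [hxy]; abel
      rw [h1, norm_neg, hD]
      exact Finset.single_le_sum (f := fun q : A ⧸ H =>
        ‖mixedEmbedding K (((q.out : A) : 𝓞 K) : K)‖) (fun _ _ => norm_nonneg _)
        (Finset.mem_univ q)
    rcases le_or_gt R ‖x‖ with hRx | hRx
    · have h2 := hCR s hs1 hs2 x y hD1 hRx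
      have h3 : czF K s ((q.out + (h : A) : A) : 𝓞 K) ≤ czF K s ((h : A) : 𝓞 K) +
          (C + R ^ (n + 1)) * (‖x‖ ^ (n + 1))⁻¹ := by
        refine h2.trans ?_
        have h4 : C * (‖x‖ ^ (n + 1))⁻¹ ≤ (C + R ^ (n + 1)) * (‖x‖ ^ (n + 1))⁻¹ :=
          mul_le_mul_of_nonneg_right (by
            have : 0 ≤ R ^ (n + 1) := by positivity
            linarith) (by positivity)
        exact add_le_add le_rfl h4
      refine (ENNReal.ofReal_le_ofReal h3).trans ?_
      rw [ENNReal.ofReal_add (czF_nonneg _ _) (by positivity), hG]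
      simp only
      rw [← hx, ← add_assoc]
      exact le_self_add
    · have h2 : ENNReal.ofReal (czF K s ((q.out + (h : A) : A) : 𝓞 K)) ≤ 1 := by
        rw [← ENNReal.ofReal_one]
        exact ENNReal.ofReal_le_ofReal (czF_le_one hs1 _)
      refine h2.trans ?_
      refine le_trans ?_ le_add_self
      rw [hG]
      simp only
      by_cases h0 : ((h : A) : 𝓞 K) = 0
      · rw [if_pos h0]
        exact le_add_self
      · refine le_trans ?_ le_self_add
        rw [← hx, ← ENNReal.ofReal_one]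
        apply ENNReal.ofReal_le_ofReal
        have hx0 : 0 < ‖x‖ := by
          rw [norm_pos_iff]
          intro h5
          apply h0
          rw [hx] at h5
          have h6 := (map_eq_zero (mixedEmbedding K)).1 h5
          exact RingOfIntegers.coe_eq_zero_iff.1 h6
        have h7 : ‖x‖ ^ (n + 1) ≤ R ^ (n + 1) := pow_le_pow_left₀ hx0.le hRx.le _
        have h8 : 0 < ‖x‖ ^ (n + 1) := by positivity
        rw [← div_eq_mul_inv, le_div_iff₀ h8]
        linarith
  have h5 : czS K b s = ∑' a : A, ENNReal.ofReal (czF K s a) := rfl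
  have h6 : ∑' h : H, (ENNReal.ofReal (czF K s ((h : A) : 𝓞 K)) + G ((h : A) : 𝓞 K)) =
      czS K b' s + ∑' a : b', G a := by
    rw [czS, ← ENNReal.tsum_add, ← e.tsum_eq]
    exact tsum_congr fun _ => rfl
  rw [h5]
  rw [h6] at hmain
  exact hmain

end Pool.Agent.Lib.MP_695920_nt.Refl
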