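import Mathlib
import Pool.Agent.Lib.MP_695920_nt.Refl.PSum

/-!
Splitting of primes in a cubic Kummer extension.
-/

set_option autoImplicit false

open Filter Topology NumberField IsDedekindDomain Module
open scoped nonZeroDivisors

namespace Pool.Agent.Lib.MP_695920_nt.Refl

/-- the automorphism `g ↦ ω g` of a cubic Kummer extension -/
private theorem cb_aut {k N : Type} [Field k] [Field N] [Algebra k N] [FiniteDimensional k N]
    {ω c : k} (hω : ω ^ 3 = 1) (hc : ∀ x : k, x ^ 3 ≠ c) (g : N)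
    (hg : g ^ 3 = algebraMap k N c) (h3 : finrank k N = 3) :
    ∃ σ : N ≃ₐ[k] N, σ g = algebraMap k N ω * g := by
  have hirr : Irreducible (Polynomial.X ^ 3 - Polynomial.C c : Polynomial k) :=
    X_pow_sub_C_irreducible_of_prime Nat.prime_three hc
  have : Fact (Irreducible (Polynomial.X ^ 3 - Polynomial.C c : Polynomial k)) := ⟨hirr⟩
  have hfin : finrank k (AdjoinRoot (Polynomial.X ^ 3 - Polynomial.C c : Polynomial k)) = 3 := by
    rw [(AdjoinRoot.powerBasis hirr.ne_zero).finrank, AdjoinRoot.powerBasis_dim,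
      Polynomial.natDegree_X_pow_sub_C]
  have hr1 : Polynomial.aeval g (Polynomial.X ^ 3 - Polynomial.C c : Polynomial k) = 0 := by
    rw [map_sub, map_pow, Polynomial.aeval_X, Polynomial.aeval_C, hg, sub_self]
  have hr2 : Polynomial.aeval (algebraMap k N ω * g)
      (Polynomial.X ^ 3 - Polynomial.C c : Polynomial k) = 0 := by
    rw [map_sub, map_pow, Polynomial.aeval_X, Polynomial.aeval_C, mul_pow, ← map_pow, hω,
      map_one, one_mul, hg, sub_self]
  let φ := AdjoinRoot.liftAlgHom (Polynomial.X ^ 3 - Polynomial.C c : Polynomial k)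
    (Algebra.ofId k N) g (by simpa using hr1)
  let ψ := AdjoinRoot.liftAlgHom (Polynomial.X ^ 3 - Polynomial.C c : Polynomial k)
    (Algebra.ofId k N) (algebraMap k N ω * g) (by simpa using hr2)
  have : FiniteDimensional k (AdjoinRoot (Polynomial.X ^ 3 - Polynomial.C c : Polynomial k)) :=
    FiniteDimensional.of_finrank_pos (by omega)
  have hφ : Function.Bijective φ := by
    have h1 : Function.Injective φ.toLinearMap := φ.toRingHom.injective
    exact ⟨h1, (LinearMap.injective_iff_surjective_of_finrank_eq_finrank (by omega)).1 h1⟩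
  let e := AlgEquiv.ofBijective φ hφ
  have he : e.symm g = AdjoinRoot.root _ := by
    rw [AlgEquiv.symm_apply_eq]
    simp [e, φ]
  refine ⟨AlgEquiv.ofBijective (ψ.comp e.symm.toAlgHom) (AlgHom.bijective _), ?_⟩
  have : ψ (e.symm g) = algebraMap k N ω * g := by
    rw [he]
    simp [ψ]
  exact this

section primes

variable {k N : Type} [Field k] [NumberField k] [Field N] [NumberField N] [Algebra k N]

/-- at most three primes above `P`, and all of them of degree one if there are three of them -/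
private theorem cb_sum (h3 : finrank k N = 3) (P : HeightOneSpectrum (𝓞 k)) :
    (P.asIdeal.primesOver (𝓞 N)).ncard ≤ 3 ∧
    (3 ≤ (P.asIdeal.primesOver (𝓞 N)).ncard → ∀ Q ∈ P.asIdeal.primesOver (𝓞 N),
      Ideal.inertiaDeg' P.asIdeal Q = 1) := by
  have hmax : P.asIdeal.IsMaximal := P.isMaximal
  have h0 := P.ne_bot
  have hsum := Ideal.sum_ramification_inertia (𝓞 N) k N (p := P.asIdeal) h0
  rw [h3] at hsum
  have hcard : (P.asIdeal.primesOver (𝓞 N)).ncard =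
      (IsDedekindDomain.primesOverFinset P.asIdeal (𝓞 N)).card := by
    rw [← IsDedekindDomain.coe_primesOverFinset h0, Set.ncard_coe_finset]
  have hpos : ∀ Q ∈ IsDedekindDomain.primesOverFinset P.asIdeal (𝓞 N),
      1 ≤ Ideal.ramificationIdx' P.asIdeal Q ∧ 1 ≤ Ideal.inertiaDeg' P.asIdeal Q := by
    intro Q hQ
    have h1 := (IsDedekindDomain.mem_primesOverFinset_iff h0 _).mp hQ
    have : Q.IsPrime := h1.1
    have : Q.LiesOver P.asIdeal := h1.2
    exact ⟨Nat.pos_iff_ne_zero.mpr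
      (Ideal.IsDedekindDomain.ramificationIdx'_ne_zero_of_liesOver _ h0),
      Nat.pos_iff_ne_zero.mpr (Ideal.inertiaDeg'_ne_zero P.asIdeal Q)⟩
  rw [hcard]
  constructor
  · rw [← hsum, Finset.card_eq_sum_ones]
    refine Finset.sum_le_sum fun Q hQ => ?_
    exact Nat.mul_le_mul (hpos Q hQ).1 (hpos Q hQ).2
  · intro h Q hQ
    rw [← IsDedekindDomain.mem_primesOverFinset_iff h0] at hQ
    by_contra hne
    have h2 : 2 ≤ Ideal.inertiaDeg' P.asIdeal Q := by
      have := (hpos Q hQ).2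
      omega
    have h4 : ∑ Q ∈ IsDedekindDomain.primesOverFinset P.asIdeal (𝓞 N), 1 <
        ∑ Q ∈ IsDedekindDomain.primesOverFinset P.asIdeal (𝓞 N),
          Ideal.ramificationIdx' P.asIdeal Q * Ideal.inertiaDeg' P.asIdeal Q := by
      refine Finset.sum_lt_sum (fun R hR => Nat.mul_le_mul (hpos R hR).1 (hpos R hR).2)
        ⟨Q, hQ, ?_⟩
      calc 1 < 1 * 2 := by norm_num
        _ ≤ _ := Nat.mul_le_mul (hpos Q hQ).1 h2
    rw [hsum, ← Finset.card_eq_sum_ones] at h4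
    omega

/-- the three primes above a prime at which `γ` is a cube -/
private theorem cb_three {ω γ : 𝓞 k} (hω : ω ^ 2 + ω + 1 = 0) (hγ : ∀ x : k, x ^ 3 ≠ γ)
    (g : N) (hg : g ^ 3 = algebraMap k N γ) (h3 : finrank k N = 3)
    (P : HeightOneSpectrum (𝓞 k)) (hP : ∃ x : 𝓞 k, x ^ 3 - γ ∈ P.asIdeal)
    (hP3 : (3 : 𝓞 k) ∉ P.asIdeal) (hPγ : γ ∉ P.asIdeal) :
    3 ≤ (P.asIdeal.primesOver (𝓞 N)).ncard := by
  have hmax : P.asIdeal.IsMaximal := P.isMaximal
  obtain ⟨x, hx⟩ := hP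
  have hω3 : ω ^ 3 = 1 := by linear_combination (ω - 1) * hω
  obtain ⟨σ, hσ⟩ := cb_aut (k := k) (N := N) (ω := (ω : k)) (c := (γ : k))
    (by exact_mod_cast congrArg (algebraMap (𝓞 k) k) hω3) hγ g hg h3
  -- the integral element
  have hgi : IsIntegral ℤ g := by
    have h1 : IsIntegral ℤ (g ^ 3) := by
      rw [hg]
      exact (RingOfIntegers.isIntegral_coe γ).map (IsScalarTower.toAlgHom ℤ k N)
    exact IsIntegral.of_pow (by norm_num) h1
  obtain ⟨G, hG⟩ : ∃ G : 𝓞 N, (G : N) = g := ⟨⟨g, hgi⟩, rfl⟩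
  let τ : 𝓞 N ≃ₐ[𝓞 k] 𝓞 N := RingOfIntegers.mapAlgEquiv σ
  have hτ : τ G = algebraMap (𝓞 k) (𝓞 N) ω * G := by
    apply RingOfIntegers.coe_injective
    change σ (G : N) = algebraMap k N ω * (G : N)
    rw [hG, hσ]
  have hG3 : G ^ 3 = algebraMap (𝓞 k) (𝓞 N) γ := by
    apply RingOfIntegers.coe_injective
    change (G : N) ^ 3 = algebraMap k N γ
    rw [hG, hg]
  set W : 𝓞 N := algebraMap (𝓞 k) (𝓞 N) ω with hW
  have hW1 : W ^ 2 + W + 1 = 0 := by
    have := congrArg (algebraMap (𝓞 k) (𝓞 N)) hω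
    simpa using this
  obtain ⟨⟨Q, hQp, hQo⟩⟩ : Nonempty (P.asIdeal.primesOver (𝓞 N)) := by
    obtain ⟨Q, h1, h2⟩ := Ideal.exists_maximal_ideal_liesOver_of_isIntegral (S := 𝓞 N) P.asIdeal
    exact ⟨⟨Q, h1.isPrime, h2⟩⟩
  have hmem : ∀ y : 𝓞 k, algebraMap (𝓞 k) (𝓞 N) y ∈ Q ↔ y ∈ P.asIdeal := fun y =>
    (Ideal.mem_of_liesOver Q P.asIdeal y).symm
  -- the key fact
  have key : ∀ (z : 𝓞 N), G - z ∈ Q → (W * G - z ∈ Q ∨ W ^ 2 * G - z ∈ Q) → False := by
    intro z h1 h2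
    have hG' : G ∉ Q := by
      intro h
      apply hPγ
      rw [← hmem, ← hG3]
      exact Ideal.pow_mem_of_mem Q h 3 (by norm_num)
    have h33 : (W - 1) * (W ^ 2 - 1) = 3 := by linear_combination (W - 2) * hW1
    have h3Q : (W - 1) * (W ^ 2 - 1) ∉ Q := by
      rw [h33]
      intro h
      apply hP3
      rw [← hmem, map_ofNat]
      exact h
    rcases h2 with h2 | h2
    · have h4 : (W - 1) * G ∈ Q := by
        have := Q.sub_mem h2 h1
        convert this using 1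
        ring
      rcases hQp.mem_or_mem h4 with h5 | h5
      · exact h3Q (Q.mul_mem_right _ h5)
      · exact hG' h5
    · have h4 : (W ^ 2 - 1) * G ∈ Q := by
        have := Q.sub_mem h2 h1
        convert this using 1
        ring
      rcases hQp.mem_or_mem h4 with h5 | h5
      · exact h3Q (Q.mul_mem_left _ h5)
      · exact hG' h5
  -- a root
  set X : 𝓞 N := algebraMap (𝓞 k) (𝓞 N) x with hX
  obtain ⟨z, hz, hzτ⟩ : ∃ z : 𝓞 N, G - z ∈ Q ∧ τ z = z := by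
    have h1 : (G - X) * ((G - W * X) * (G - W ^ 2 * X)) ∈ Q := by
      have h2 : (G - X) * ((G - W * X) * (G - W ^ 2 * X)) = G ^ 3 - X ^ 3 := by
        have hW3 : W ^ 3 = 1 := by linear_combination (W - 1) * hW1
        linear_combination (-G ^ 2 * X + W * G * X ^ 2) * hW1 +
          (- X ^ 3) * hW3
      rw [h2, hG3, hX, ← map_pow, ← map_sub, hmem]
      have := P.asIdeal.neg_mem hx
      rwa [neg_sub] at this
    have hτX : τ X = X := τ.commutes x
    have hτW : τ W = W := τ.commutes ω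
    rcases hQp.mem_or_mem h1 with h | h
    · exact ⟨X, h, hτX⟩
    rcases hQp.mem_or_mem h with h | h
    · exact ⟨W * X, h, by rw [map_mul, hτX, hτW]⟩
    · exact ⟨W ^ 2 * X, h, by rw [map_mul, map_pow, hτX, hτW]⟩
  -- the three primes
  have hover : ∀ φ : 𝓞 N ≃ₐ[𝓞 k] 𝓞 N, Q.comap φ ∈ P.asIdeal.primesOver (𝓞 N) := by
    intro φ
    refine ⟨Ideal.comap_isPrime _ _, ⟨?_⟩⟩
    ext y
    rw [Ideal.under_def, Ideal.mem_comap, Ideal.mem_comap, ← hmem]
    rw [AlgEquiv.commutes]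
  have hfin : (P.asIdeal.primesOver (𝓞 N)).Finite :=
    IsDedekindDomain.primesOver_finite P.asIdeal (𝓞 N)
  have hτ2 : τ (τ G) = W ^ 2 * G := by
    have hτW : τ W = W := τ.commutes ω
    rw [hτ, map_mul, hτ, hτW]
    ring
  have hne1 : Q.comap τ ≠ Q := by
    intro h
    have h1 : G - z ∈ Q.comap τ := by rw [h]; exact hz
    rw [Ideal.mem_comap, map_sub, hτ, hzτ] at h1
    exact key z hz (Or.inl h1)
  have hne2 : Q.comap (τ.trans τ) ≠ Q := by
    intro h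
    have h1 : G - z ∈ Q.comap (τ.trans τ) := by rw [h]; exact hz
    rw [Ideal.mem_comap, AlgEquiv.trans_apply, map_sub, map_sub, hτ2, hzτ, hzτ] at h1
    exact key z hz (Or.inr h1)
  have hne3 : Q.comap (τ.trans τ) ≠ Q.comap τ := by
    intro h
    apply hne1
    ext y
    obtain ⟨w, rfl⟩ := τ.surjective y
    have h1 : w ∈ Q.comap (τ.trans τ) ↔ w ∈ Q.comap τ := by rw [h]
    rw [Ideal.mem_comap, Ideal.mem_comap, AlgEquiv.trans_apply] at h1
    rw [Ideal.mem_comap]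
    exact h1
  have hsub : ({Q, Q.comap τ, Q.comap (τ.trans τ)} : Set (Ideal (𝓞 N))) ⊆
      P.asIdeal.primesOver (𝓞 N) := by
    intro I hI
    rcases hI with rfl | rfl | rfl
    · exact ⟨hQp, hQo⟩
    · exact hover τ
    · exact hover (τ.trans τ)
  have h5 := Set.ncard_le_ncard hsub hfin
  have h6 : ({Q, Q.comap τ, Q.comap (τ.trans τ)} : Set (Ideal (𝓞 N))).ncard = 3 := by
    rw [Set.ncard_eq_three]
    exact ⟨_, _, _, hne1.symm, hne2.symm, hne3.symm, rfl⟩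
  omega

/-- the residue degrees above a prime at which `γ` is not a cube -/
private theorem cb_deg {γ : 𝓞 k} (g : N) (hg : g ^ 3 = algebraMap k N γ)
    (P : HeightOneSpectrum (𝓞 k)) (hP : ¬ ∃ x : 𝓞 k, x ^ 3 - γ ∈ P.asIdeal)
    (Q : Ideal (𝓞 N)) (hQ : Q ∈ P.asIdeal.primesOver (𝓞 N)) :
    2 ≤ Ideal.inertiaDeg' P.asIdeal Q := by
  have hmax : P.asIdeal.IsMaximal := P.isMaximal
  have hQp : Q.IsPrime := hQ.1
  have hQo : Q.LiesOver P.asIdeal := hQ.2
  have hpos : 0 < Ideal.inertiaDeg' P.asIdeal Q := Ideal.inertiaDeg'_pos P.asIdeal Q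
  by_contra hlt
  have h1 : Ideal.inertiaDeg' P.asIdeal Q = 1 := by omega
  rw [Ideal.inertiaDeg'_algebraMap] at h1
  have hgi : IsIntegral ℤ g := by
    have h1 : IsIntegral ℤ (g ^ 3) := by
      rw [hg]
      exact (RingOfIntegers.isIntegral_coe γ).map (IsScalarTower.toAlgHom ℤ k N)
    exact IsIntegral.of_pow (by norm_num) h1
  obtain ⟨G, hG⟩ : ∃ G : 𝓞 N, (G : N) = g := ⟨⟨g, hgi⟩, rfl⟩
  have hG3 : G ^ 3 = algebraMap (𝓞 k) (𝓞 N) γ := by
    apply RingOfIntegers.coe_injective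
    change (G : N) ^ 3 = algebraMap k N γ
    rw [hG, hg]
  let _ := Ideal.Quotient.field P.asIdeal
  have h2 : ∃ x : 𝓞 k ⧸ P.asIdeal, x • (1 : 𝓞 N ⧸ Q) = Ideal.Quotient.mk Q G :=
    (finrank_eq_one_iff_of_nonzero' (1 : 𝓞 N ⧸ Q) one_ne_zero).1 h1 _
  obtain ⟨x', hx'⟩ := h2
  obtain ⟨x, rfl⟩ := Ideal.Quotient.mk_surjective x'
  have h4 : Ideal.Quotient.mk Q (algebraMap (𝓞 k) (𝓞 N) x) = Ideal.Quotient.mk Q G := by
    rw [← hx', Algebra.smul_def, mul_one]
    rfl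
  apply hP
  refine ⟨x, ?_⟩
  rw [Ideal.mem_of_liesOver Q P.asIdeal, ← Ideal.Quotient.eq_zero_iff_mem, map_sub, map_pow,
    map_sub, map_pow, h4, ← map_pow, hG3, sub_self]

private theorem cb_norm (P : HeightOneSpectrum (𝓞 k)) (Q : Ideal (𝓞 N))
    (hQ : Q ∈ P.asIdeal.primesOver (𝓞 N)) :
    Ideal.absNorm Q = Ideal.absNorm P.asIdeal ^ Ideal.inertiaDeg' P.asIdeal Q := by
  have hQo : Q.LiesOver P.asIdeal := hQ.2
  exact Ideal.absNorm_eq_pow_inertiaDeg'_of_liesOver Q P.asIdeal P.isPrime P.ne_bot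

/-- the primes above `P` -/
private noncomputable def cb_equiv (P : HeightOneSpectrum (𝓞 k)) :
    ((HeightOneSpectrum.under (𝓞 k) : HeightOneSpectrum (𝓞 N) → _) ⁻¹' {P}) ≃
      P.asIdeal.primesOver (𝓞 N) where
  toFun Q := ⟨Q.1.asIdeal, Q.1.isPrime, ⟨by
    have := Q.2
    rw [Set.mem_preimage, Set.mem_singleton_iff] at this
    exact (congrArg HeightOneSpectrum.asIdeal this).symm⟩⟩
  invFun Q := ⟨⟨Q.1, Q.2.1, Ideal.ne_bot_of_mem_primesOver P.ne_bot Q.2⟩, by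
    rw [Set.mem_preimage, Set.mem_singleton_iff]
    ext1
    exact Q.2.2.over.symm⟩
  left_inv Q := rfl
  right_inv Q := rfl

private theorem cb_fiber (P : HeightOneSpectrum (𝓞 k)) (f : Ideal (𝓞 N) → ℝ) :
    ∑' Q : ((HeightOneSpectrum.under (𝓞 k) : HeightOneSpectrum (𝓞 N) → _) ⁻¹' {P}),
      f Q.1.asIdeal = ∑ Q ∈ (IsDedekindDomain.primesOver_finite P.asIdeal (𝓞 N)).toFinset, f Q := by
  have h1 : ∀ Q : ((HeightOneSpectrum.under (𝓞 k) : HeightOneSpectrum (𝓞 N) → _) ⁻¹' {P}),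
      f Q.1.asIdeal = (fun R : P.asIdeal.primesOver (𝓞 N) => f R.1) (cb_equiv P Q) :=
    fun Q => rfl
  rw [tsum_congr h1, (cb_equiv P).tsum_eq (fun R : P.asIdeal.primesOver (𝓞 N) => f R.1)]
  have h2 := Finset.tsum_subtype' (IsDedekindDomain.primesOver_finite P.asIdeal (𝓞 N)).toFinset f
  rw [Set.Finite.coe_toFinset] at h2
  exact h2

/-- the local comparison -/
private theorem cb_local {ω γ : 𝓞 k} (hω : ω ^ 2 + ω + 1 = 0) (hγ : ∀ x : k, x ^ 3 ≠ γ)
    (g : N) (hg : g ^ 3 = algebraMap k N γ) (h3 : finrank k N = 3)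
    (P : HeightOneSpectrum (𝓞 k)) {s : ℝ} (hs : 1 < s) :
    |∑' Q : ((HeightOneSpectrum.under (𝓞 k) : HeightOneSpectrum (𝓞 N) → _) ⁻¹' {P}),
      (Ideal.absNorm Q.1.asIdeal : ℝ) ^ (-s) -
        3 * ({P | ∃ x : 𝓞 k, x ^ 3 - γ ∈ P.asIdeal} : Set (HeightOneSpectrum (𝓞 k))).indicator
          (fun P => (Ideal.absNorm P.asIdeal : ℝ) ^ (-s)) P| ≤
      3 * (Ideal.absNorm P.asIdeal : ℝ) ^ (-2 : ℝ) +
        ({P | 3 * γ ∈ P.asIdeal} : Set (HeightOneSpectrum (𝓞 k))).indicator (fun _ => 3) P := by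
  have hN1 : (1 : ℝ) ≤ (Ideal.absNorm P.asIdeal : ℝ) := by
    have : Ideal.absNorm P.asIdeal ≠ 0 := by
      rw [Ne, Ideal.absNorm_eq_zero_iff]
      exact P.ne_bot
    exact_mod_cast Nat.one_le_iff_ne_zero.2 this
  rw [cb_fiber P (fun Q => (Ideal.absNorm Q : ℝ) ^ (-s))]
  set F := (IsDedekindDomain.primesOver_finite P.asIdeal (𝓞 N)).toFinset with hF
  have hFm : ∀ Q ∈ F, Q ∈ P.asIdeal.primesOver (𝓞 N) := fun Q hQ => by simpa [hF] using hQ
  obtain ⟨hc1, hc2⟩ := cb_sum (k := k) (N := N) h3 P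
  have hFc : F.card = (P.asIdeal.primesOver (𝓞 N)).ncard := by
    rw [hF, Set.ncard_eq_toFinset_card _ (IsDedekindDomain.primesOver_finite P.asIdeal (𝓞 N))]
  have hF3 : (F.card : ℝ) ≤ 3 := by
    rw [hFc]
    exact_mod_cast hc1
  have hneg : (Ideal.absNorm P.asIdeal : ℝ) ^ (-s) ≤ 1 :=
    Real.rpow_le_one_of_one_le_of_nonpos hN1 (by linarith)
  have hneg0 : 0 ≤ (Ideal.absNorm P.asIdeal : ℝ) ^ (-s) := by positivity
  have h2pos : 0 ≤ (Ideal.absNorm P.asIdeal : ℝ) ^ (-2 : ℝ) := by positivity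
  by_cases hB : 3 * γ ∈ P.asIdeal
  · -- a bounded amount
    rw [Set.indicator_of_mem (show P ∈ {P : HeightOneSpectrum (𝓞 k) | 3 * γ ∈ P.asIdeal} from hB)]
    have h1 : 0 ≤ ∑ Q ∈ F, (Ideal.absNorm Q : ℝ) ^ (-s) :=
      Finset.sum_nonneg fun Q _ => by positivity
    have h2 : ∑ Q ∈ F, (Ideal.absNorm Q : ℝ) ^ (-s) ≤ 3 := by
      calc ∑ Q ∈ F, (Ideal.absNorm Q : ℝ) ^ (-s) ≤ ∑ Q ∈ F, (1 : ℝ) := by
            refine Finset.sum_le_sum fun Q hQ => ?_
            rw [cb_norm P Q (hFm Q hQ)]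
            push_cast
            exact Real.rpow_le_one_of_one_le_of_nonpos (one_le_pow₀ hN1) (by linarith)
        _ = F.card := by simp
        _ ≤ 3 := hF3
    have h3 : 0 ≤ ({P | ∃ x : 𝓞 k, x ^ 3 - γ ∈ P.asIdeal} :
        Set (HeightOneSpectrum (𝓞 k))).indicator
          (fun P => (Ideal.absNorm P.asIdeal : ℝ) ^ (-s)) P :=
      Set.indicator_nonneg (fun P _ => by positivity) P
    have h4 : ({P | ∃ x : 𝓞 k, x ^ 3 - γ ∈ P.asIdeal} :
        Set (HeightOneSpectrum (𝓞 k))).indicator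
          (fun P => (Ideal.absNorm P.asIdeal : ℝ) ^ (-s)) P ≤ 1 := by
      by_cases h : P ∈ {P : HeightOneSpectrum (𝓞 k) | ∃ x : 𝓞 k, x ^ 3 - γ ∈ P.asIdeal}
      · rw [Set.indicator_of_mem h]
        exact hneg
      · rw [Set.indicator_of_notMem h]
        exact zero_le_one
    rw [abs_le]
    constructor <;> linarith
  rw [Set.indicator_of_notMem
    (show P ∉ {P : HeightOneSpectrum (𝓞 k) | 3 * γ ∈ P.asIdeal} from hB), add_zero]
  have hB3 : (3 : 𝓞 k) ∉ P.asIdeal := fun h => hB (P.asIdeal.mul_mem_right _ h)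
  have hBγ : γ ∉ P.asIdeal := fun h => hB (P.asIdeal.mul_mem_left _ h)
  by_cases hA : ∃ x : 𝓞 k, x ^ 3 - γ ∈ P.asIdeal
  · rw [Set.indicator_of_mem
      (show P ∈ {P : HeightOneSpectrum (𝓞 k) | ∃ x : 𝓞 k, x ^ 3 - γ ∈ P.asIdeal} from hA)]
    have h5 := cb_three hω hγ g hg h3 P hA hB3 hBγ
    have h6 : ∑ Q ∈ F, (Ideal.absNorm Q : ℝ) ^ (-s) =
        3 * (Ideal.absNorm P.asIdeal : ℝ) ^ (-s) := by
      have h7 : ∀ Q ∈ F, (Ideal.absNorm Q : ℝ) ^ (-s) = (Ideal.absNorm P.asIdeal : ℝ) ^ (-s) := by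
        intro Q hQ
        rw [cb_norm P Q (hFm Q hQ), hc2 h5 Q (hFm Q hQ), pow_one]
      rw [Finset.sum_congr rfl h7, Finset.sum_const, nsmul_eq_mul, hFc]
      congr 1
      exact_mod_cast le_antisymm hc1 h5
    rw [h6, sub_self, abs_zero]
    positivity
  · rw [Set.indicator_of_notMem
      (show P ∉ {P : HeightOneSpectrum (𝓞 k) | ∃ x : 𝓞 k, x ^ 3 - γ ∈ P.asIdeal} from hA)]
    rw [mul_zero, sub_zero, abs_of_nonneg (Finset.sum_nonneg fun Q _ => by positivity)]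
    calc ∑ Q ∈ F, (Ideal.absNorm Q : ℝ) ^ (-s)
        ≤ ∑ Q ∈ F, (Ideal.absNorm P.asIdeal : ℝ) ^ (-2 : ℝ) := by
          refine Finset.sum_le_sum fun Q hQ => ?_
          rw [cb_norm P Q (hFm Q hQ)]
          push_cast
          have h8 := cb_deg g hg P hA Q (hFm Q hQ)
          rw [← Real.rpow_natCast, ← Real.rpow_mul (by positivity)]
          refine Real.rpow_le_rpow_of_exponent_le hN1 ?_
          have h9 : (2 : ℝ) ≤ (Ideal.inertiaDeg' P.asIdeal Q : ℝ) := by exact_mod_cast h8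
          nlinarith
      _ = F.card * (Ideal.absNorm P.asIdeal : ℝ) ^ (-2 : ℝ) := by
          rw [Finset.sum_const, nsmul_eq_mul]
      _ ≤ 3 * (Ideal.absNorm P.asIdeal : ℝ) ^ (-2 : ℝ) := by gcongr

end primes

/-- Task S4, second part: a prime at which `γ` is a cube is the norm of a prime of degree one. -/
theorem exists_prime_of_cube (k N : Type) [Field k] [NumberField k] [Field N] [NumberField N]
    [Algebra k N] {ω : 𝓞 k} (hω : ω ^ 2 + ω + 1 = 0) (γ : 𝓞 k) (h0 : γ ≠ 0)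
    (hγ : ∀ x : k, x ^ 3 ≠ γ) (g : N) (hg : g ^ 3 = algebraMap k N γ) (h3 : finrank k N = 3)
    (P : HeightOneSpectrum (𝓞 k)) (hP : ∃ x : 𝓞 k, x ^ 3 - γ ∈ P.asIdeal)
    (hP3 : (3 : 𝓞 k) ∉ P.asIdeal) (hPγ : γ ∉ P.asIdeal) :
    ∃ Q : Ideal (𝓞 N), Q.IsPrime ∧ Q.under (𝓞 k) = P.asIdeal ∧
      Ideal.absNorm Q = Ideal.absNorm P.asIdeal := by
  have h5 := cb_three hω hγ g hg h3 P hP hP3 hPγ
  obtain ⟨Q, hQ⟩ : (P.asIdeal.primesOver (𝓞 N)).Nonempty := by
    apply Set.nonempty_of_ncard_ne_zero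
    omega
  refine ⟨Q, hQ.1, hQ.2.over.symm, ?_⟩
  rw [cb_norm P Q hQ, (cb_sum h3 P).2 h5 Q hQ, pow_one]

/-- Task S4 (Refl/Cubic.lean). -/
theorem psum_cubic (k : Type) [Field k] [NumberField k] {ω : 𝓞 k} (hω : ω ^ 2 + ω + 1 = 0)
    (γ : 𝓞 k) (h0 : γ ≠ 0) (hγ : ∀ x : k, x ^ 3 ≠ γ) :
    ∃ C : ℝ, ∀ᶠ s in 𝓝[>] (1 : ℝ),
      |3 * psum k {P | ∃ x : 𝓞 k, x ^ 3 - γ ∈ P.asIdeal} s - psum k Set.univ s| ≤ C := by
  -- the Kummer extension
  have hirr : Irreducible (Polynomial.X ^ 3 - Polynomial.C (γ : k) : Polynomial k) :=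
    X_pow_sub_C_irreducible_of_prime Nat.prime_three hγ
  have : Fact (Irreducible (Polynomial.X ^ 3 - Polynomial.C (γ : k) : Polynomial k)) := ⟨hirr⟩
  have hfin : finrank k (AdjoinRoot (Polynomial.X ^ 3 - Polynomial.C (γ : k) :
      Polynomial k)) = 3 := by
    rw [(AdjoinRoot.powerBasis hirr.ne_zero).finrank, AdjoinRoot.powerBasis_dim,
      Polynomial.natDegree_X_pow_sub_C]
  obtain ⟨N, _, _, _, h3, g, hg⟩ : ∃ (N : Type) (_ : Field N) (_ : NumberField N)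
      (_ : Algebra k N), finrank k N = 3 ∧ ∃ g : N, g ^ 3 = algebraMap k N γ := by
    have h1 : FiniteDimensional k (AdjoinRoot (Polynomial.X ^ 3 - Polynomial.C (γ : k) :
      Polynomial k)) := FiniteDimensional.of_finrank_pos (by omega)
    have h2 : CharZero (AdjoinRoot (Polynomial.X ^ 3 - Polynomial.C (γ : k) : Polynomial k)) :=
      algebraRat.charZero _
    refine ⟨AdjoinRoot (Polynomial.X ^ 3 - Polynomial.C (γ : k) : Polynomial k), inferInstance,
      ?_, inferInstance, hfin, AdjoinRoot.root _, ?_⟩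
    · exact NumberField.of_module_finite k _
    · have := AdjoinRoot.eval₂_root (Polynomial.X ^ 3 - Polynomial.C (γ : k) : Polynomial k)
      rw [Polynomial.eval₂_sub, Polynomial.eval₂_pow, Polynomial.eval₂_X, Polynomial.eval₂_C,
        sub_eq_zero] at this
      exact this
  obtain ⟨C1, hC1⟩ := psum_univ k
  obtain ⟨C2, hC2⟩ := psum_univ N
  have hBfin : ({P | 3 * γ ∈ P.asIdeal} : Set (HeightOneSpectrum (𝓞 k))).Finite := by
    have h1 : (3 * γ : 𝓞 k) ≠ 0 := mul_ne_zero (by norm_num) h0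
    have h2 := Ideal.finite_factors (R := 𝓞 k) (I := Ideal.span {3 * γ}) (by simpa using h1)
    refine h2.subset fun P hP => ?_
    simpa [Ideal.dvd_span_singleton] using hP
  set D : HeightOneSpectrum (𝓞 k) → ℝ := fun P => 3 * (Ideal.absNorm P.asIdeal : ℝ) ^ (-2 : ℝ) +
        ({P | 3 * γ ∈ P.asIdeal} : Set (HeightOneSpectrum (𝓞 k))).indicator (fun _ => 3) P
    with hD
  have hDs : Summable D := by
    refine Summable.add ((summable_prime k (s := 2) (by norm_num)).mul_left 3) ?_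
    refine summable_of_hasFiniteSupport ?_
    refine hBfin.subset ?_
    exact Set.support_indicator_subset
  refine ⟨∑' P, D P + C1 + C2, ?_⟩
  filter_upwards [hC1, hC2, self_mem_nhdsWithin] with s hs1 hs2 hs
  have hs : 1 < s := hs
  have hsumN := summable_prime N hs
  have hsumk := summable_prime k hs
  have h1 : HasSum (fun P : HeightOneSpectrum (𝓞 k) =>
      ∑' Q : ((HeightOneSpectrum.under (𝓞 k) : HeightOneSpectrum (𝓞 N) → _) ⁻¹' {P}),
        (Ideal.absNorm Q.1.asIdeal : ℝ) ^ (-s)) (psum N Set.univ s) := by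
    have h2 := hsumN.hasSum.tsum_fiberwise
      (HeightOneSpectrum.under (𝓞 k) : HeightOneSpectrum (𝓞 N) → _)
    have h3 : psum N Set.univ s =
        ∑' Q : HeightOneSpectrum (𝓞 N), (Ideal.absNorm Q.asIdeal : ℝ) ^ (-s) := by
      simp [psum]
    rw [h3]
    exact h2
  have h2 : HasSum (fun P : HeightOneSpectrum (𝓞 k) =>
      3 * ({P | ∃ x : 𝓞 k, x ^ 3 - γ ∈ P.asIdeal} : Set (HeightOneSpectrum (𝓞 k))).indicator
          (fun P => (Ideal.absNorm P.asIdeal : ℝ) ^ (-s)) P)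
      (3 * psum k {P | ∃ x : 𝓞 k, x ^ 3 - γ ∈ P.asIdeal} s) :=
    ((hsumk.indicator _).hasSum).mul_left 3
  have h4 : |psum N Set.univ s - 3 * psum k {P | ∃ x : 𝓞 k, x ^ 3 - γ ∈ P.asIdeal} s| ≤
      ∑' P, D P := by
    have h5 := h1.sub h2
    rw [← h5.tsum_eq, ← Real.norm_eq_abs]
    exact tsum_of_norm_bounded hDs.hasSum fun P => cb_local hω hγ g hg h3 P hs
  rw [abs_le] at hs1 hs2 h4 ⊢
  constructor <;> linarith

end Pool.Agent.Lib.MP_695920_nt.Refl
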