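import Mathlib
import Pool.Agent.Lib.MP_695920_nt.Tow.EVBase

set_option autoImplicit false

open Finset NumberField Module IsDedekindDomain
open scoped nonZeroDivisors NNReal ENNReal

namespace Pool.Agent.Lib.MP_695920_nt.Refl

open Pool.Agent.Lib.MP_695920_nt.Tow

section rel

variable {F K M : Type*} [Field F] [NumberField F] [Field K] [NumberField K] [Field M]
  [NumberField M] [Algebra F K] [Algebra K M]

/-- Ellenberg-Venkatesh with primes of a subfield, over a base field -/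
theorem ev_baseM {l : ℕ} (hl : 0 < l) (hn : 1 < finrank ℚ K) (T : ℝ) (hT0 : 0 < T)
    (hT : ∀ A : IntermediateField ℚ K, ¬ A ≤ (IsScalarTower.toAlgHom ℚ F K).fieldRange →
      T ≤ |(discr A : ℝ)|) (G : Finset ℕ) (x : ℝ) (hx1 : 1 ≤ x)
    (hG : ∀ p ∈ G, p.Prime ∧ (p : ℝ) ≤ x ∧ TwoRel F K p)
    (hx : (l : ℝ) * finrank ℚ M * (finrank ℚ K - 1) * Real.log x +
      2 * l * (finrank ℚ M : ℝ) ^ 2 ≤ Real.log T) :
    (G.card : ℝ) * (Nat.card {x : ClassGroup (𝓞 M) // x ^ l = 1} : ℝ) ≤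
      Bn (finrank ℚ M) * Real.sqrt |(discr M : ℝ)| *
        Real.log |(discr M : ℝ)| ^ finrank ℚ M := by
  classical
  set n := finrank ℚ K with hnn
  set N := finrank ℚ M with hNN
  set m := finrank K M with hmm
  have hmn : n * m = N := Module.finrank_mul_finrank ℚ K M
  have hmpos : 0 < m := finrank_pos
  have hnr : (2 : ℝ) ≤ n := by exact_mod_cast hn
  have hmr : (1 : ℝ) ≤ m := by exact_mod_cast hmpos
  have hmnr : (n : ℝ) * m = N := by exact_mod_cast hmn
  have hlr : (1 : ℝ) ≤ l := by exact_mod_cast hl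
  have hlogx : 0 ≤ Real.log x := Real.log_nonneg hx1
  have hx0 : 0 < x := by linarith
  -- choose the primes
  have hex : ∀ p : ℕ, ∃ P R : Ideal (𝓞 K), p.Prime → TwoRel F K p → P.IsPrime ∧ R.IsPrime ∧
      (p : 𝓞 K) ∈ P ∧ (p : 𝓞 K) ∈ R ∧ P.under (𝓞 F) = R.under (𝓞 F) ∧ P ≠ R ∧
      Ideal.absNorm P ^ 2 ≤ p ^ n := by
    intro p
    by_cases hp : p.Prime ∧ TwoRel F K p
    · obtain ⟨hpp, Q1, Q2, a, b, c, d, e, f⟩ := hp
      rcases norm_twoG hpp a b c d f with h | h
      · exact ⟨Q1, Q2, fun _ _ => ⟨a, b, c, d, e, f, h⟩⟩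
      · exact ⟨Q2, Q1, fun _ _ => ⟨b, a, d, c, e.symm, f.symm, h⟩⟩
    · exact ⟨⊥, ⊥, fun h1 h2 => absurd ⟨h1, h2⟩ hp⟩
  choose P R hPR using hex
  have hgood : ∀ p ∈ G, p.Prime ∧ P p ≠ ⊥ ∧ (P p).IsPrime ∧ (R p).IsPrime ∧
      (p : 𝓞 K) ∈ P p ∧ (p : 𝓞 K) ∈ R p ∧ (P p).under (𝓞 F) = (R p).under (𝓞 F) ∧ P p ≠ R p ∧
      Ideal.absNorm (P p) ^ 2 ≤ p ^ n := by
    intro p hp
    obtain ⟨h1, _, h3⟩ := hG p hp
    obtain ⟨a, b, c, d, e, f, g⟩ := hPR p h1 h3
    exact ⟨h1, P_ne_bot h1 c, a, b, c, d, e, f, g⟩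
  -- primes above different primes
  have hdist : ∀ p ∈ G, ∀ q ∈ G, p ≠ q → ∀ S : Ideal (𝓞 K), S.IsPrime → (p : 𝓞 K) ∈ S →
      ¬ S ∣ P q := by
    intro p hp q hq hpq S hS hpS
    exact not_dvd_of_ne (hgood p hp).1 (hgood q hq).1 hpq hS hpS (hgood q hq).2.2.2.2.1
  have hPinj : Set.InjOn P (G : Set ℕ) := by
    intro p hp q hq hpq
    by_contra hne
    obtain ⟨_, _, a, _, c, _⟩ := hgood p hp
    exact hdist p hp q hq hne (P p) a c (by rw [hpq])
  have hRP : ∀ p ∈ G, ¬ R p ∣ P p := by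
    intro p hp h
    obtain ⟨h1, h2, a, b, c, d, e, f, g⟩ := hgood p hp
    exact f ((a.isMaximal h2).eq_of_le b.ne_top (Ideal.le_of_dvd h))
  have hInorm : ∀ p ∈ G, (Ideal.absNorm (P p) : ℝ) ≤ Real.exp ((n : ℝ) / 2 * Real.log x) := by
    intro p hp
    obtain ⟨h1, h2, a, b, c, d, e, f, g⟩ := hgood p hp
    have h2 : (0 : ℝ) < Ideal.absNorm (P p) := by
      exact_mod_cast absNorm_pos_of_ne_bot h2
    have h3 : ((Ideal.absNorm (P p) : ℝ)) ^ 2 ≤ x ^ n := by
      calc ((Ideal.absNorm (P p) : ℝ)) ^ 2 ≤ ((p : ℝ)) ^ n := by exact_mod_cast g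
        _ ≤ x ^ n := pow_le_pow_left₀ (Nat.cast_nonneg _) (hG p hp).2.1 n
    have h4 := Real.log_le_log (by positivity) h3
    rw [Real.log_pow, Real.log_pow] at h4
    push_cast at h4
    rw [← Real.log_le_iff_le_exp h2]
    linarith
  have hmain := ev_count0 (K := K) (M := M) (IsScalarTower.toAlgHom ℚ F K).fieldRange hl
    (G.image P) (by
      intro I hI
      rw [mem_image] at hI
      obtain ⟨p, hp, rfl⟩ := hI
      exact (hgood p hp).2.1) (by
      intro I hI J hJ hIJ u v hu hv huv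
      rw [mem_image] at hI hJ
      obtain ⟨p, hp, rfl⟩ := hI
      obtain ⟨q, hq, rfl⟩ := hJ
      have hne : p ≠ q := fun h => hIJ (by rw [h])
      obtain ⟨h1, h2, a, b, c, d, e, f, g⟩ := hgood p hp
      refine not_base (F := F) (Nat.mul_pos finrank_pos hl) h2 (hgood q hq).2.1 hu hv huv h1 a b c d
        e (hRP p hp) (hdist p hp q hq hne _ b d) ?_
      rw [multiplicity_eq_zero_of_not_dvd (hdist p hp q hq hne _ a c)]
      intro h0
      rw [multiplicity_eq_zero] at h0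
      exact h0 dvd_rfl) (Real.exp ((n : ℝ) / 2 * Real.log x)) (by
      intro I hI
      rw [mem_image] at hI
      obtain ⟨p, hp, rfl⟩ := hI
      exact hInorm p hp) (by
      intro A hA
      refine lt_of_lt_of_le ?_ (hT A hA)
      rw [← Real.log_lt_log_iff (by positivity) hT0]
      refine lt_of_lt_of_le ?_ hx
      rw [Real.log_mul (by positivity) (by positivity), Real.log_pow, Real.log_pow, Real.log_pow,
        Real.log_mul (by norm_num) (by positivity), Real.log_exp, Real.log_exp]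
      rw [← hnn, ← hmm]
      have h1 : Real.log 2 < 1 := by linarith [Real.log_two_lt_d9]
      have h1' : 0 < Real.log 2 := Real.log_pos (by norm_num)
      have hn1 : 1 ≤ n := hn.le
      have e1 : ((n - 1 : ℕ) : ℝ) = n - 1 := by
        rw [Nat.cast_sub hn1, Nat.cast_one]
      push_cast
      rw [e1]
      have hn0 : (0 : ℝ) < n := by linarith
      have hNr : (n : ℝ) ≤ N := by nlinarith
      have hN0 : (0 : ℝ) < N := by linarith
      have h2 : (n : ℝ) * (n - 1) * Real.log 2 ≤ l * (N * N) := by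
        calc (n : ℝ) * (n - 1) * Real.log 2 ≤ n * (n - 1) * 1 := by
              apply mul_le_mul_of_nonneg_left h1.le
              nlinarith
          _ ≤ N * N := by nlinarith
          _ ≤ l * (N * N) := by nlinarith [mul_pos hN0 hN0]
      have h5 : (n : ℝ) * (n - 1) * (m * l) < l * (N * N) := by
        calc (n : ℝ) * (n - 1) * (m * l) = (l * N) * (n - 1) := by rw [← hmnr]; ring
          _ < (l * N) * N := by
              apply mul_lt_mul_of_pos_left _ (by positivity)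
              linarith
          _ = _ := by ring
      have h6 : 2 * ((n : ℝ) - 1) * (m * l * (n / 2 * Real.log x)) =
          l * N * (n - 1) * Real.log x := by
        rw [← hmnr]; ring
      nlinarith)
  rw [Finset.card_image_of_injOn hPinj] at hmain
  exact hmain.trans (sum_bound' (K := M) (by rw [← hNN, ← hmn]; exact lt_of_lt_of_le hn (Nat.le_mul_of_pos_right _ hmpos)))

end rel

end Pool.Agent.Lib.MP_695920_nt.Refl
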