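import Mathlib

/-!
The extension generated by a cube root of a singular primary number is unramified.
-/

set_option autoImplicit false

open NumberField Module Polynomial
open scoped IntermediateField

namespace Pool.Agent.Lib.MP_695920_nt.Refl

variable {K N : Type*} [Field K] [NumberField K] [Field N] [NumberField N] [Algebra K N]

lemma adjoin_eq_top_of_prime (h3 : finrank K N = 3) {y : N} (hy : y ∉ (algebraMap K N).range) :
    K⟮y⟯ = ⊤ := by
  have h1 : finrank K K⟮y⟯ ∣ 3 := by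
    rw [← h3]
    exact ⟨finrank K⟮y⟯ N, (finrank_mul_finrank K K⟮y⟯ N).symm⟩
  rcases (Nat.dvd_prime Nat.prime_three).mp h1 with h | h
  · exfalso
    rw [IntermediateField.finrank_eq_one_iff] at h
    have h2 : y ∈ K⟮y⟯ := IntermediateField.mem_adjoin_simple_self K y
    rw [h, IntermediateField.mem_bot] at h2
    exact hy h2
  · apply IntermediateField.eq_of_le_of_finrank_eq le_top
    rw [h, IntermediateField.finrank_top', h3]

/-- the derivative at a generator lies in the different -/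
lemma deriv_mem_different (h3 : finrank K N = 3) (y : 𝓞 N) (hy : (y : N) ∉ (algebraMap K N).range)
    (f : (𝓞 K)[X]) (hf : f.Monic) (hdeg : f.natDegree = 3) (h0 : aeval y f = 0) :
    aeval y (derivative f) ∈ differentIdeal (𝓞 K) (𝓞 N) := by
  have htop := adjoin_eq_top_of_prime h3 hy
  have hyint : IsIntegral (𝓞 K) y := Algebra.IsIntegral.isIntegral y
  have hyK : IsIntegral K (y : N) := Algebra.IsIntegral.isIntegral _
  have hmin : minpoly K (y : N) = f.map (algebraMap (𝓞 K) K) := by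
    have h4 : minpoly K (y : N) ∣ f.map (algebraMap (𝓞 K) K) := by
      apply minpoly.dvd
      rw [aeval_map_algebraMap]
      have h5 : aeval (algebraMap (𝓞 N) N y) f = algebraMap (𝓞 N) N (aeval y f) :=
        aeval_algebraMap_apply N y f
      rw [h0, map_zero] at h5
      exact h5
    have h5 : (minpoly K (y : N)).natDegree = 3 := by
      rw [← IntermediateField.adjoin.finrank hyK, htop, IntermediateField.finrank_top', h3]
    refine (eq_of_monic_of_dvd_of_natDegree_le (minpoly.monic hyK) (hf.map _) h4 ?_).symm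
    rw [hf.natDegree_map, hdeg, h5]
  have hmin2 : minpoly (𝓞 K) y = f := by
    apply Polynomial.map_injective (algebraMap (𝓞 K) K) (FaithfulSMul.algebraMap_injective (𝓞 K) K)
    have h4 := minpoly.isIntegrallyClosed_eq_field_fractions K N hyint
    rw [← h4]
    exact hmin
  have hadj : Algebra.adjoin K {algebraMap (𝓞 N) N y} = ⊤ := by
    have h4 := IntermediateField.adjoin_simple_toSubalgebra_of_isAlgebraic (F := K)
      (α := (y : N)) hyK.isAlgebraic
    have h5 : Algebra.adjoin K {(y : N)} = ⊤ := by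
      rw [← h4, htop]
      rfl
    exact h5
  have hmem := aeval_derivative_mem_differentIdeal (𝓞 K) K N y hadj
  rwa [hmin2] at hmem

lemma deriv_cubic {A B : Type*} [CommRing A] [CommRing B] [Algebra A B] (a b c : A) (y : B) :
    (aeval y) (derivative (X ^ 3 - C a * X ^ 2 - C b * X - C c : A[X])) =
      3 * y ^ 2 - algebraMap A B a * (2 * y) - algebraMap A B b := by
  simp only [derivative_sub, derivative_mul, derivative_X_pow, derivative_C, derivative_X,
    zero_mul, zero_add, mul_one, sub_zero, map_sub, map_mul, aeval_C, map_natCast, map_pow,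
    aeval_X]
  norm_num

/-- primes not above three -/
lemma not_dvd_different_tame (h3 : finrank K N = 3) {γ : N} (hγ : γ ∉ (algebraMap K N).range)
    {α : 𝓞 K} (hα0 : α ≠ 0) (hα : γ ^ 3 = algebraMap K N α) {I : Ideal (𝓞 K)}
    (hI : Ideal.span {α} = I ^ 3) (P : Ideal (𝓞 N)) (hP : P.IsPrime) (hP3 : (3 : 𝓞 N) ∉ P)
    (hP0 : P ≠ ⊥) : ¬ P ∣ differentIdeal (𝓞 K) (𝓞 N) := by
  set p : Ideal (𝓞 K) := P.under (𝓞 K) with hp
  have hpp : p.IsPrime := inferInstance
  have hI0 : I ≠ ⊥ := by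
    rintro rfl
    rw [← Ideal.zero_eq_bot, zero_pow (by norm_num), Ideal.zero_eq_bot,
      Ideal.span_singleton_eq_bot] at hI
    exact hα0 hI
  obtain ⟨m, hmI, hm0⟩ := Submodule.exists_mem_ne_zero_of_ne_bot hI0
  obtain ⟨J, hJ⟩ := (Ideal.dvd_span_singleton (I := I) (x := m)).mpr hmI
  have hJ0 : J ≠ ⊥ := by
    rintro rfl
    rw [Ideal.mul_bot, Ideal.span_singleton_eq_bot] at hJ
    exact hm0 hJ
  have hlt : ∃ b ∈ J, b ∉ J * p := by
    by_contra h
    push Not at h
    have h1 : J ≤ J * p := h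
    have h2 : J * p = J * 1 := by
      rw [mul_one]
      exact le_antisymm Ideal.mul_le_left h1
    have h4 := mul_left_cancel₀ hJ0 h2
    exact hpp.ne_top (by rw [h4, Ideal.one_eq_top])
  obtain ⟨b, hbJ, hbp⟩ := hlt
  obtain ⟨Q, hQ⟩ := (Ideal.dvd_span_singleton (I := J) (x := b)).mpr hbJ
  have hQp : ¬ p ∣ Q := by
    rintro ⟨R, rfl⟩
    apply hbp
    have h1 : J * p ∣ Ideal.span {b} := by
      rw [hQ, ← mul_assoc]
      exact dvd_mul_right _ _
    exact Ideal.dvd_span_singleton.mp h1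
  have hspan : Ideal.span {α * b ^ 3} = Ideal.span {m ^ 3} * Q ^ 3 := by
    rw [← Ideal.span_singleton_mul_span_singleton, ← Ideal.span_singleton_pow, hI, hQ,
      ← Ideal.span_singleton_pow, hJ]
    ring
  have hdvd : m ^ 3 ∣ α * b ^ 3 := by
    apply Ideal.span_singleton_le_span_singleton.mp
    rw [hspan]
    exact Ideal.mul_le_left
  obtain ⟨ν, hν⟩ := hdvd
  have hνQ : Ideal.span {ν} = Q ^ 3 := by
    rw [hν, ← Ideal.span_singleton_mul_span_singleton] at hspan
    have hne : (Ideal.span {m ^ 3} : Ideal (𝓞 K)) ≠ 0 := by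
      rw [Ne, Ideal.zero_eq_bot, Ideal.span_singleton_eq_bot]
      exact pow_ne_zero 3 hm0
    exact mul_left_cancel₀ hne hspan
  have hνp : ν ∉ p := by
    intro h
    have h1 : p ∣ Ideal.span {ν} := Ideal.dvd_span_singleton.mpr h
    rw [hνQ] at h1
    have hpr : Prime p := by
      apply Ideal.prime_of_isPrime _ hpp
      intro h0
      apply hP0
      exact Ideal.eq_bot_of_comap_eq_bot h0
    exact hQp (hpr.dvd_of_dvd_pow h1)
  -- the element
  have hm0' : algebraMap K N (m : K) ≠ 0 := by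
    rw [Ne, map_eq_zero]
    exact fun h => hm0 (RingOfIntegers.ext h)
  set y0 : N := γ * algebraMap K N (b : K) / algebraMap K N (m : K) with hy0
  have hy3 : y0 ^ 3 = algebraMap K N (ν : K) := by
    have h1 := congrArg (fun z : 𝓞 K => algebraMap K N (algebraMap (𝓞 K) K z)) hν
    simp only [map_mul, map_pow] at h1
    rw [hy0, div_pow, mul_pow, hα, div_eq_iff (pow_ne_zero 3 hm0')]
    linear_combination h1
  have hint : IsIntegral ℤ y0 := by
    apply IsIntegral.of_pow (n := 3) (by norm_num)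
    rw [hy3]
    exact (RingOfIntegers.isIntegral_coe ν).algebraMap
  let y : 𝓞 N := ⟨y0, hint⟩
  have hyν : y ^ 3 = algebraMap (𝓞 K) (𝓞 N) ν := RingOfIntegers.ext hy3
  have hb0 : b ≠ 0 := by
    rintro rfl
    exact hbp (Ideal.zero_mem _)
  have hb0' : algebraMap K N (b : K) ≠ 0 := by
    rw [Ne, map_eq_zero]
    exact fun h => hb0 (RingOfIntegers.ext h)
  have hyK : (y : N) ∉ (algebraMap K N).range := by
    rintro ⟨x, hx⟩
    apply hγ
    refine ⟨x * m / b, ?_⟩
    rw [map_div₀, map_mul, hx]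
    change y0 * _ / _ = γ
    rw [hy0]
    field_simp
  have hmem := deriv_mem_different h3 y hyK (X ^ 3 - C ν) (by monicity!)
    (natDegree_X_pow_sub_C) (by
      rw [map_sub, map_pow, aeval_X, aeval_C, hyν, sub_self])
  intro hdvd
  have h5 := (Ideal.dvd_iff_le.mp hdvd) hmem
  have h6 : (aeval y) (derivative (X ^ 3 - C ν)) = 3 * y ^ 2 := by
    rw [derivative_sub, derivative_X_pow, derivative_C, sub_zero, map_mul, aeval_C, map_natCast,
      map_pow, aeval_X]
    norm_num
  rw [h6] at h5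
  rcases hP.mem_or_mem h5 with h | h
  · exact hP3 h
  · apply hνp
    have h7 : y ∈ P := hP.mem_of_pow_mem 2 h
    change algebraMap (𝓞 K) (𝓞 N) ν ∈ P
    rw [← hyν]
    exact P.pow_mem_of_mem h7 3 (by norm_num)

/-- primes above three -/
lemma not_dvd_different_wild (h3 : finrank K N = 3) {γ : N} (hγ : γ ∉ (algebraMap K N).range)
    {α β t s : 𝓞 K} (hs : s ^ 2 = -3) (hα : γ ^ 3 = algebraMap K N α)
    (hβ : α - β ^ 3 = 27 * t) (P : Ideal (𝓞 N)) (hP : P.IsPrime) (hP3 : (3 : 𝓞 N) ∈ P)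
    (hβP : algebraMap (𝓞 K) (𝓞 N) β ∉ P) :
    ¬ P ∣ differentIdeal (𝓞 K) (𝓞 N) := by
  have hsN : (algebraMap K N (s : K)) ^ 2 = -3 := by
    have h1 := congrArg (algebraMap (𝓞 K) K) hs
    rw [map_pow, map_neg, map_ofNat] at h1
    rw [← map_pow, h1, map_neg, map_ofNat]
  have hs0 : algebraMap K N (s : K) ≠ 0 := by
    intro h
    rw [h] at hsN
    norm_num at hsN
  have hαN : algebraMap K N (α : K) = (algebraMap K N (β : K)) ^ 3 + 27 * algebraMap K N (t : K) := by
    have h1 := congrArg (algebraMap (𝓞 K) K) hβ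
    rw [map_sub, map_mul, map_pow, map_ofNat] at h1
    have h2 := congrArg (algebraMap K N) h1
    rw [map_sub, map_mul, map_pow, map_ofNat] at h2
    linear_combination h2
  set S := algebraMap K N (s : K) with hS
  set β' := algebraMap K N (β : K) with hβ'
  set t' := algebraMap K N (t : K) with ht'
  set y0 : N := (γ - β') / S with hy0
  have hγy : γ = β' + S * y0 := by
    rw [hy0]
    field_simp
    ring
  have hroot : y0 ^ 3 - S * β' * y0 ^ 2 - β' ^ 2 * y0 - 3 * t' * S = 0 := by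
    have h1 : γ ^ 3 = β' ^ 3 + 27 * t' := by rw [hα, hαN]
    rw [hγy] at h1
    have h2 : S * (-3) * (y0 ^ 3 - S * β' * y0 ^ 2 - β' ^ 2 * y0 - 3 * t' * S) = 0 := by
      linear_combination h1 + (9 * t' - S * y0 ^ 3) * hsN
    rcases mul_eq_zero.mp h2 with h | h
    · exfalso
      rcases mul_eq_zero.mp h with h | h
      · exact hs0 h
      · norm_num at h
    · exact h
  -- the integral element
  have hmon : (X ^ 3 - C (s * β) * X ^ 2 - C (β ^ 2) * X - C (3 * t * s) : (𝓞 K)[X]).Monic := by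
    monicity!
  have hdeg : (X ^ 3 - C (s * β) * X ^ 2 - C (β ^ 2) * X - C (3 * t * s) : (𝓞 K)[X]).natDegree = 3 := by
    compute_degree!
  have hrootA : eval₂ (algebraMap (𝓞 K) N) y0
      (X ^ 3 - C (s * β) * X ^ 2 - C (β ^ 2) * X - C (3 * t * s) : (𝓞 K)[X]) = 0 := by
    have e1 : ∀ z : 𝓞 K, algebraMap (𝓞 K) N z = algebraMap K N (z : K) := fun z => rfl
    simp only [eval₂_sub, eval₂_mul, eval₂_pow, eval₂_X, eval₂_C]
    simp only [map_mul, map_pow, map_ofNat, e1]
    linear_combination hroot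
  have hint : IsIntegral (𝓞 K) y0 := ⟨_, hmon, hrootA⟩
  have hint2 : IsIntegral ℤ y0 := isIntegral_trans (A := 𝓞 K) y0 hint
  let y : 𝓞 N := ⟨y0, hint2⟩
  have hyK : (y : N) ∉ (algebraMap K N).range := by
    rintro ⟨x, hx⟩
    apply hγ
    refine ⟨β + s * x, ?_⟩
    rw [map_add, map_mul, hx]
    exact hγy.symm
  have hy0' : aeval y (X ^ 3 - C (s * β) * X ^ 2 - C (β ^ 2) * X - C (3 * t * s) : (𝓞 K)[X]) = 0 := by
    apply RingOfIntegers.ext
    have h1 := aeval_algebraMap_apply N y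
      (X ^ 3 - C (s * β) * X ^ 2 - C (β ^ 2) * X - C (3 * t * s) : (𝓞 K)[X])
    change algebraMap (𝓞 N) N _ = algebraMap (𝓞 N) N 0
    rw [map_zero, ← h1]
    exact hrootA
  have hmem := deriv_mem_different h3 y hyK _ hmon hdeg hy0'
  intro hdvd
  have h5 := (Ideal.dvd_iff_le.mp hdvd) hmem
  have h6 : (aeval y) (derivative (X ^ 3 - C (s * β) * X ^ 2 - C (β ^ 2) * X - C (3 * t * s) :
      (𝓞 K)[X])) = 3 * y ^ 2 - algebraMap (𝓞 K) (𝓞 N) (s * β) * (2 * y) -
        (algebraMap (𝓞 K) (𝓞 N) β) ^ 2 := by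
    rw [deriv_cubic, map_pow]
  rw [h6] at h5
  have hsP : algebraMap (𝓞 K) (𝓞 N) s ∈ P := by
    apply hP.mem_of_pow_mem 2
    rw [← map_pow, hs, map_neg, map_ofNat]
    exact P.neg_mem hP3
  have h7 : (algebraMap (𝓞 K) (𝓞 N) β) ^ 2 ∈ P := by
    have h8 : 3 * y ^ 2 - algebraMap (𝓞 K) (𝓞 N) (s * β) * (2 * y) ∈ P := by
      apply P.sub_mem (P.mul_mem_right _ hP3)
      rw [map_mul]
      exact P.mul_mem_right _ (P.mul_mem_right _ hsP)
    have h9 := P.sub_mem h8 h5
    rwa [sub_sub_cancel] at h9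
  exact hβP (hP.mem_of_pow_mem 2 h7)

/-- the extension generated by a cube root of a singular primary number is unramified -/
theorem not_dvd_different (h3 : finrank K N = 3) {γ : N} (hγ : γ ∉ (algebraMap K N).range)
    {α β t s : 𝓞 K} (hα0 : α ≠ 0) (hs : s ^ 2 = -3) (hα : γ ^ 3 = algebraMap K N α)
    {I : Ideal (𝓞 K)} (hI : Ideal.span {α} = I ^ 3)
    (hβ : α - β ^ 3 = 27 * t) (hcop : IsCoprime β 3) (P : Ideal (𝓞 N)) (hP : P.IsPrime)
    (hP0 : P ≠ ⊥) : ¬ P ∣ differentIdeal (𝓞 K) (𝓞 N) := by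
  by_cases hP3 : (3 : 𝓞 N) ∈ P
  · apply not_dvd_different_wild h3 hγ hs hα hβ P hP hP3
    intro h
    obtain ⟨a, b, hab⟩ := hcop
    apply hP.ne_top
    rw [Ideal.eq_top_iff_one]
    have h1 := congrArg (algebraMap (𝓞 K) (𝓞 N)) hab
    rw [map_add, map_mul, map_mul, map_one, map_ofNat] at h1
    rw [← h1]
    exact P.add_mem (P.mul_mem_left _ h) (P.mul_mem_left _ hP3)
  · exact not_dvd_different_tame h3 hγ hα0 hα hI P hP hP3 hP0

end Pool.Agent.Lib.MP_695920_nt.Refl
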